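import Mathlib

/-!
# Normal subgroups of symmetric groups containing an odd permutation
-/

set_option autoImplicit false
set_option linter.all false

namespace Pool.Agent.K9h5.T

open Equiv Equiv.Perm

theorem top_of_alt {n : ℕ} (N : Subgroup (Perm (Fin n))) (h : alternatingGroup (Fin n) ≤ N)
    (π : Perm (Fin n)) (hπ : π ∈ N) (hs : sign π = -1) : N = ⊤ := by
  rw [eq_top_iff]
  intro g _
  rcases Int.units_eq_one_or (sign g) with h1 | h1
  · exact h (mem_alternatingGroup.2 h1)
  · have h2 : g * π ∈ N := h (mem_alternatingGroup.2 (by rw [Equiv.Perm.sign_mul, h1, hs]; rfl))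
    exact (N.mul_mem_cancel_right hπ).1 h2

theorem top_of_swap {n : ℕ} (N : Subgroup (Perm (Fin n))) [N.Normal] (a b : Fin n) (hab : a ≠ b)
    (h : swap a b ∈ N) : N = ⊤ := by
  rw [eq_top_iff, ← closure_isSwap, Subgroup.closure_le]
  rintro σ ⟨x, y, hxy, rfl⟩
  obtain ⟨g, hg⟩ := isConj_iff.1 (isConj_swap hab hxy)
  rw [← hg]
  exact (inferInstance : N.Normal).conj_mem _ h g

theorem four : ∀ π : Perm (Fin 4), sign π = -1 → ∃ g h : Perm (Fin 4),
    π * (g * π * g⁻¹) * (h * π * h⁻¹) = swap 0 1 := by
  decide +kernel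

theorem three : ∀ π : Perm (Fin 3), sign π = -1 → ∃ g h : Perm (Fin 3),
    π * (g * π * g⁻¹) * (h * π * h⁻¹) = swap 0 1 := by
  decide +kernel

theorem two : ∀ π : Perm (Fin 2), sign π = -1 → π = swap 0 1 := by
  decide +kernel

theorem top_of_odd {n : ℕ} (N : Subgroup (Perm (Fin n))) [hN : N.Normal] (π : Perm (Fin n))
    (hπ : π ∈ N) (hs : sign π = -1) : N = ⊤ := by
  by_cases h5 : 5 ≤ n
  · haveI : Nontrivial N := by
      refine ⟨⟨⟨π, hπ⟩, 1, ?_⟩⟩
      intro h
      have h1 := congrArg Subtype.val h
      simp only [Subgroup.coe_one] at h1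
      rw [h1, Equiv.Perm.sign_one] at hs
      exact absurd hs (by decide)
    exact top_of_alt N (alternatingGroup_le_of_normal (by simpa using h5) inferInstance) π hπ hs
  · have key : ∀ g h : Perm (Fin n), π * (g * π * g⁻¹) * (h * π * h⁻¹) ∈ N := fun g h =>
      N.mul_mem (N.mul_mem hπ (hN.conj_mem _ hπ g)) (hN.conj_mem _ hπ h)
    interval_cases n
    · exact Subsingleton.elim _ _
    · exact Subsingleton.elim _ _
    · exact top_of_swap N 0 1 (by decide) (by rw [← two π hs]; exact hπ)
    · obtain ⟨g, h, hgh⟩ := three π hs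
      exact top_of_swap N 0 1 (by decide) (by rw [← hgh]; exact key g h)
    · obtain ⟨g, h, hgh⟩ := four π hs
      exact top_of_swap N 0 1 (by decide) (by rw [← hgh]; exact key g h)

/-- **Goursat.** A family of permutations which is closed under products, surjects to each factor
and contains, for each factor, an element which is odd there and trivial elsewhere. -/
theorem all_of_odd {m n : ℕ} (H : Subgroup (Fin m → Perm (Fin n)))
    (h1 : ∀ (i : Fin m) (π : Perm (Fin n)), ∃ g ∈ H, g i = π)
    (h2 : ∀ i : Fin m, ∃ g ∈ H, sign (g i) = -1 ∧ ∀ k, k ≠ i → g k = 1) : H = ⊤ := by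
  classical
  have key : ∀ (i : Fin m) (π : Perm (Fin n)), Pi.mulSingle i π ∈ H := by
    intro i
    let N : Subgroup (Perm (Fin n)) := H.comap (MonoidHom.mulSingle (fun _ => Perm (Fin n)) i)
    have hN : N.Normal := by
      constructor
      intro π hπ g
      obtain ⟨γ, hγ, hγi⟩ := h1 i g
      have h3 : Pi.mulSingle i (g * π * g⁻¹) = γ * Pi.mulSingle i π * γ⁻¹ := by
        funext k
        rw [Pi.mul_apply, Pi.mul_apply, Pi.inv_apply]
        by_cases hk : k = i
        · subst hk
          rw [Pi.mulSingle_eq_same, Pi.mulSingle_eq_same, hγi]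
        · rw [Pi.mulSingle_eq_of_ne hk, Pi.mulSingle_eq_of_ne hk, mul_one, mul_inv_cancel]
      show Pi.mulSingle i (g * π * g⁻¹) ∈ H
      rw [h3]
      exact H.mul_mem (H.mul_mem hγ hπ) (H.inv_mem hγ)
    obtain ⟨g, hg, hs, hk⟩ := h2 i
    have hgi : g i ∈ N := by
      show Pi.mulSingle i (g i) ∈ H
      have h3 : Pi.mulSingle i (g i) = g := by
        funext k
        by_cases hki : k = i
        · subst hki
          rw [Pi.mulSingle_eq_same]
        · rw [Pi.mulSingle_eq_of_ne hki, hk k hki]
      rw [h3]
      exact hg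
    have h4 := top_of_odd N (g i) hgi hs
    intro π
    have h5 : π ∈ N := by rw [h4]; exact Subgroup.mem_top _
    exact h5
  rw [eq_top_iff]
  intro g _
  have h6 : ∀ s : Finset (Fin m), (fun i => if i ∈ s then g i else 1) ∈ H := by
    intro s
    induction s using Finset.induction_on with
    | empty =>
      have : (fun i : Fin m => if i ∈ (∅ : Finset (Fin m)) then g i else 1) = 1 := by
        funext i; simp
      rw [this]
      exact H.one_mem
    | insert i s hi ih =>
      have : (fun k : Fin m => if k ∈ insert i s then g k else 1) =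
          Pi.mulSingle i (g i) * (fun k => if k ∈ s then g k else 1) := by
        funext k
        rw [Pi.mul_apply]
        by_cases hk : k = i
        · subst hk
          rw [Pi.mulSingle_eq_same, if_pos (Finset.mem_insert_self _ _), if_neg hi, mul_one]
        · rw [Pi.mulSingle_eq_of_ne hk, one_mul]
          simp [Finset.mem_insert, hk]
      rw [this]
      exact H.mul_mem (key i (g i)) ih
  have h7 := h6 Finset.univ
  have h8 : (fun i => if i ∈ (Finset.univ : Finset (Fin m)) then g i else 1) = g := by
    funext i; simp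
  rw [h8] at h7
  exact h7

end Pool.Agent.K9h5.T
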