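import Mathlib

/-!
# Resolvents
-/

set_option autoImplicit false
set_option linter.all false

namespace Pool.Agent.K9h5.T

open Polynomial

section star

variable {A : Type} [CommRing A]

/-- the monic polynomial with given coefficients -/
noncomputable def pol {n : ℕ} (c : Fin n → A) : A[X] :=
  X ^ n + ∑ k : Fin n, C (c k) * X ^ (n - 1 - (k : ℕ))

theorem pol_rest {n : ℕ} (c : Fin n → A) :
    (∑ k : Fin n, C (c k) * X ^ (n - 1 - (k : ℕ))).degree < (n : WithBot ℕ) := by
  refine (degree_sum_le _ _).trans_lt ?_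
  refine (Finset.sup_lt_iff (WithBot.bot_lt_coe n)).2 ?_
  intro k _
  refine (degree_C_mul_X_pow_le _ _).trans_lt ?_
  have := k.2
  exact Nat.cast_lt.2 (by omega : n - 1 - (k : ℕ) < n)

theorem pol_monic {n : ℕ} (c : Fin n → A) : (pol c).Monic := by
  unfold pol
  exact monic_X_pow_add (pol_rest c)

theorem pol_natDegree [Nontrivial A] {n : ℕ} (c : Fin n → A) : (pol c).natDegree = n := by
  apply natDegree_eq_of_degree_eq_some
  unfold pol
  rw [degree_add_eq_left_of_degree_lt]
  · exact degree_X_pow n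
  · rw [degree_X_pow]
    exact pol_rest c

theorem pol_map {B : Type} [CommRing B] (φ : A →+* B) {n : ℕ} (c : Fin n → A) :
    (pol c).map φ = pol (fun k => φ (c k)) := by
  unfold pol
  simp [Polynomial.map_sum]

theorem pol_coeff {n : ℕ} (c : Fin n → A) (k : Fin n) : (pol c).coeff (n - 1 - (k : ℕ)) = c k := by
  unfold pol
  rw [coeff_add, coeff_X_pow, if_neg (by have := k.2; omega), zero_add, finset_sum_coeff,
    Finset.sum_eq_single k]
  · rw [coeff_C_mul, coeff_X_pow, if_pos rfl, mul_one]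
  · intro k' _ hk'
    rw [coeff_C_mul, coeff_X_pow, if_neg, mul_zero]
    intro h
    apply hk'
    apply Fin.ext
    have := k.2
    have := k'.2
    omega
  · intro h; exact absurd (Finset.mem_univ _) h

theorem pol_inj {n : ℕ} {c c' : Fin n → A} (h : pol c = pol c') : c = c' := by
  funext k
  rw [← pol_coeff c k, h, pol_coeff]

/-- every monic polynomial is of this form -/
theorem exists_pol {n : ℕ} (P : A[X]) (hP : P.Monic) (hn : P.natDegree = n) :
    ∃ c : Fin n → A, P = pol c := by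
  refine ⟨fun k => P.coeff (n - 1 - (k : ℕ)), ?_⟩
  unfold pol
  conv_lhs => rw [hP.as_sum]
  rw [hn]
  congr 1
  rw [← Fin.sum_univ_eq_sum_range (fun i => C (P.coeff i) * X ^ i) n]
  rw [← Equiv.sum_comp Fin.revPerm]
  refine Finset.sum_congr rfl fun k _ => ?_
  have : ((Fin.revPerm k : Fin n) : ℕ) = n - 1 - (k : ℕ) := by
    rw [Fin.revPerm_apply, Fin.val_rev]
    omega
  rw [this]

/-- the symmetric polynomial -/
noncomputable def symP (n : ℕ) {e : ℕ} (lam : Fin e → A) (G : A[X]) : MvPolynomial (Fin n) A[X] :=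
  ∏ s : Fin e ↪ Fin n, G.eval₂ ((MvPolynomial.C).comp C)
    (MvPolynomial.C X - ∑ j, MvPolynomial.C (C (lam j)) * MvPolynomial.X (s j))

theorem symP_symm (n : ℕ) {e : ℕ} (lam : Fin e → A) (G : A[X]) : (symP n lam G).IsSymmetric := by
  intro π
  unfold symP
  rw [map_prod]
  conv_rhs => rw [← Equiv.prod_comp (Equiv.embeddingCongr (Equiv.refl (Fin e)) π)]
  refine Finset.prod_congr rfl fun s _ => ?_
  have e1 : ((MvPolynomial.rename (R := A[X]) π) :
      MvPolynomial (Fin n) A[X] →+* MvPolynomial (Fin n) A[X]).comp ((MvPolynomial.C).comp C) =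
      (MvPolynomial.C).comp (C : A →+* A[X]) := by
    ext1 x
    simp
  have h1 := Polynomial.hom_eval₂ G ((MvPolynomial.C).comp C)
    ((MvPolynomial.rename (R := A[X]) π) : MvPolynomial (Fin n) A[X] →+* MvPolynomial (Fin n) A[X])
    (MvPolynomial.C X - ∑ j, MvPolynomial.C (C (lam j)) * MvPolynomial.X (s j))
  rw [e1] at h1
  rw [RingHom.coe_coe] at h1
  rw [h1]
  congr 1
  rw [map_sub, map_sum, MvPolynomial.rename_C]
  congr 1
  refine Finset.sum_congr rfl fun j _ => ?_
  rw [map_mul, MvPolynomial.rename_C, MvPolynomial.rename_X]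
  rfl

/-- the universal polynomial -/
noncomputable def univP (n : ℕ) {e : ℕ} (lam : Fin e → A) (G : A[X]) : MvPolynomial (Fin n) A[X] :=
  (MvPolynomial.esymmAlgEquiv (Fin n) A[X] (Fintype.card_fin n)).symm ⟨symP n lam G, symP_symm n lam G⟩

theorem univP_spec (n : ℕ) {e : ℕ} (lam : Fin e → A) (G : A[X]) :
    MvPolynomial.aeval (fun i : Fin n => MvPolynomial.esymm (Fin n) A[X] ((i : ℕ) + 1))
      (univP n lam G) = symP n lam G := by
  have h1 := (MvPolynomial.esymmAlgEquiv (Fin n) A[X] (Fintype.card_fin n)).apply_symm_apply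
    ⟨symP n lam G, symP_symm n lam G⟩
  have h2 := congrArg Subtype.val h1
  refine Eq.trans ?_ h2
  rw [← MvPolynomial.esymmAlgHom_apply]
  rfl

theorem univP_unique (n : ℕ) {e : ℕ} (lam : Fin e → A) (G : A[X]) (u : MvPolynomial (Fin n) A[X])
    (hu : MvPolynomial.aeval (fun i : Fin n => MvPolynomial.esymm (Fin n) A[X] ((i : ℕ) + 1)) u =
      symP n lam G) : u = univP n lam G := by
  have hinj := MvPolynomial.esymmAlgHom_injective (R := A[X]) (σ := Fin n) (n := n)
    (by simp)
  apply hinj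
  apply Subtype.ext
  rw [MvPolynomial.esymmAlgHom_apply, MvPolynomial.esymmAlgHom_apply, hu, univP_spec]

/-- the resolvent step -/
noncomputable def star {n e : ℕ} (lam : Fin e → A) (G : A[X]) (c : Fin n → A) : A[X] :=
  MvPolynomial.eval (fun k : Fin n => C ((-1) ^ ((k : ℕ) + 1) * c k)) (univP n lam G)

theorem esymm_roots {n : ℕ} {c w : Fin n → A} (hw : pol c = ∏ j, (X - C (w j))) (k : Fin n) :
    MvPolynomial.aeval w (MvPolynomial.esymm (Fin n) A ((k : ℕ) + 1)) =
      (-1) ^ ((k : ℕ) + 1) * c k := by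
  rw [MvPolynomial.aeval_esymm_eq_multiset_esymm]
  have hk := k.2
  have h1 := Multiset.prod_X_sub_C_coeff (Multiset.map w Finset.univ.val) (k := n - 1 - (k : ℕ))
    (by simp; omega)
  rw [Multiset.map_map] at h1
  have h2 : (Multiset.map ((fun t => X - C t) ∘ w) Finset.univ.val).prod = ∏ j, (X - C (w j)) := rfl
  rw [h2, ← hw, pol_coeff] at h1
  have e1 : Multiset.card (Multiset.map w Finset.univ.val) - (n - 1 - (k : ℕ)) = (k : ℕ) + 1 := by
    simp
    omega
  rw [e1] at h1
  rw [h1, ← mul_assoc, ← mul_pow]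
  simp

theorem star_prod {n e : ℕ} (lam : Fin e → A) (G : A[X]) {c w : Fin n → A}
    (hw : pol c = ∏ j, (X - C (w j))) :
    star lam G c = ∏ s : Fin e ↪ Fin n, G.comp (X - C (∑ j, lam j * w (s j))) := by
  unfold star
  have h1 : (fun k : Fin n => (C ((-1) ^ ((k : ℕ) + 1) * c k) : A[X])) = fun k : Fin n =>
      MvPolynomial.aeval (fun j => (C (w j) : A[X])) (MvPolynomial.esymm (Fin n) A[X] ((k : ℕ) + 1)) := by
    funext k
    rw [← esymm_roots hw k]
    have h2 : (MvPolynomial.esymm (Fin n) A[X] ((k : ℕ) + 1)) =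
        MvPolynomial.map C (MvPolynomial.esymm (Fin n) A ((k : ℕ) + 1)) :=
      (MvPolynomial.map_esymm (σ := Fin n) (R := A) (n := (k : ℕ) + 1) C).symm
    have h3 := MvPolynomial.hom_eval₂ (MvPolynomial.esymm (Fin n) A ((k : ℕ) + 1))
      (RingHom.id A) C w
    have h4 : MvPolynomial.aeval w (MvPolynomial.esymm (Fin n) A ((k : ℕ) + 1)) =
        MvPolynomial.eval₂ (RingHom.id A) w (MvPolynomial.esymm (Fin n) A ((k : ℕ) + 1)) := by
      rw [MvPolynomial.aeval_def]
      rfl
    rw [h4, h3, h2, MvPolynomial.aeval_def, MvPolynomial.eval₂_map]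
    rfl
  rw [h1]
  have h2 : ∀ u : MvPolynomial (Fin n) A[X], MvPolynomial.eval (fun k : Fin n =>
      MvPolynomial.aeval (fun j => (C (w j) : A[X])) (MvPolynomial.esymm (Fin n) A[X] ((k : ℕ) + 1))) u =
      MvPolynomial.aeval (fun j => (C (w j) : A[X])) (MvPolynomial.aeval
        (fun i : Fin n => MvPolynomial.esymm (Fin n) A[X] ((i : ℕ) + 1)) u) := by
    intro u
    rw [← AlgHom.comp_apply, MvPolynomial.comp_aeval, MvPolynomial.aeval_eq_eval]
    rfl
  rw [h2, univP_spec, symP, map_prod]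
  refine Finset.prod_congr rfl fun s _ => ?_
  have h3 := Polynomial.hom_eval₂ G ((MvPolynomial.C).comp C)
    ((MvPolynomial.aeval (R := A[X]) (fun j => (C (w j) : A[X]))).toRingHom)
    (MvPolynomial.C X - ∑ j, MvPolynomial.C (C (lam j)) * MvPolynomial.X (s j))
  refine Eq.trans h3 ?_
  rw [Polynomial.comp]
  have e1 : ((MvPolynomial.aeval (R := A[X]) (fun j => (C (w j) : A[X]))).toRingHom).comp
      ((MvPolynomial.C).comp C) = (C : A →+* A[X]) := by
    ext1 x
    simp
  rw [e1]
  congr 1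
  simp [map_sum]

theorem symP_map {B : Type} [CommRing B] (φ : A →+* B) (n : ℕ) {e : ℕ} (lam : Fin e → A) (G : A[X]) :
    MvPolynomial.map (mapRingHom φ) (symP n lam G) = symP n (fun j => φ (lam j)) (G.map φ) := by
  unfold symP
  rw [map_prod]
  refine Finset.prod_congr rfl fun s _ => ?_
  rw [Polynomial.hom_eval₂, Polynomial.eval₂_map]
  congr 1
  · ext1 x
    simp
  · simp [map_sum]

theorem univP_map {B : Type} [CommRing B] (φ : A →+* B) (n : ℕ) {e : ℕ} (lam : Fin e → A) (G : A[X]) :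
    MvPolynomial.map (mapRingHom φ) (univP n lam G) = univP n (fun j => φ (lam j)) (G.map φ) := by
  apply univP_unique
  rw [← symP_map, ← univP_spec]
  rw [MvPolynomial.aeval_def, MvPolynomial.eval₂_map, MvPolynomial.aeval_def,
    MvPolynomial.hom_eval₂]
  have e1 : (algebraMap B[X] (MvPolynomial (Fin n) B[X])).comp (mapRingHom φ) =
      (MvPolynomial.map (mapRingHom φ)).comp (algebraMap A[X] (MvPolynomial (Fin n) A[X])) := by
    refine RingHom.ext fun x => ?_
    rw [RingHom.comp_apply, RingHom.comp_apply, MvPolynomial.algebraMap_eq,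
      MvPolynomial.algebraMap_eq, MvPolynomial.map_C]
  rw [e1]
  congr 1
  funext i
  rw [MvPolynomial.map_esymm]

theorem star_map {B : Type} [CommRing B] (φ : A →+* B) {n e : ℕ} (lam : Fin e → A) (G : A[X])
    (c : Fin n → A) : (star lam G c).map φ = star (fun j => φ (lam j)) (G.map φ) (fun k => φ (c k)) := by
  unfold star
  rw [← univP_map]
  rw [← coe_mapRingHom, ← MvPolynomial.eval₂_id, MvPolynomial.hom_eval₂, ← MvPolynomial.eval₂_id,
    MvPolynomial.eval₂_map]
  congr 1
  funext k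
  simp

/-- the resolvent of several polynomials -/
noncomputable def MR {n : ℕ} : (m : ℕ) → (e : Fin m → ℕ) → (lam : ∀ i, Fin (e i) → A) →
    (c : Fin m → Fin n → A) → A[X]
  | 0, _, _, _ => X
  | m + 1, e, lam, c => star (lam 0) (MR m (fun i => e i.succ) (fun i => lam i.succ)
      (fun i => c i.succ)) (c 0)

theorem MR_map {B : Type} [CommRing B] (φ : A →+* B) {n : ℕ} (m : ℕ) (e : Fin m → ℕ)
    (lam : ∀ i, Fin (e i) → A) (c : Fin m → Fin n → A) :
    (MR m e lam c).map φ = MR m e (fun i j => φ (lam i j)) (fun i k => φ (c i k)) := by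
  induction m with
  | zero => simp [MR]
  | succ m ih =>
    rw [MR, MR, star_map, ih]

theorem MR_prod {n : ℕ} (m : ℕ) (e : Fin m → ℕ)
    (lam : ∀ i, Fin (e i) → A) (c w : Fin m → Fin n → A)
    (hw : ∀ i, pol (c i) = ∏ j, (X - C (w i j))) :
    MR m e lam c = ∏ s : (∀ i, Fin (e i) ↪ Fin n), (X - C (∑ i, ∑ j, lam i j * w i (s i j))) := by
  induction m with
  | zero =>
    rw [MR]
    simp
  | succ m ih =>
    rw [MR, star_prod _ _ (hw 0), ih _ _ _ (fun i => w i.succ) (fun i => hw i.succ)]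
    rw [← Equiv.prod_comp (Fin.consEquiv (fun i => Fin (e i) ↪ Fin n)), Fintype.prod_prod_type]
    refine Finset.prod_congr rfl fun s _ => ?_
    rw [Polynomial.prod_comp]
    refine Finset.prod_congr rfl fun s' _ => ?_
    rw [sub_comp, X_comp, C_comp, sub_sub, ← C_add]
    congr 2
    rw [Fin.sum_univ_succ]
    rfl

end star

end Pool.Agent.K9h5.T
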