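import Mathlib
import Pool.Agent.K9h5.T.Res

/-!
# Irreducibility at a special point
-/

set_option autoImplicit false
set_option linter.all false

namespace Pool.Agent.K9h5.T

open Polynomial

/-- homomorphisms to algebraically closed fields extend to integral extensions -/
theorem ext_hom {A B K : Type} [CommRing A] [CommRing B] [Algebra A B] [Algebra.IsIntegral A B]
    [Field K] [IsAlgClosed K] (ρ : A →+* K)
    (h : RingHom.ker (algebraMap A B) ≤ RingHom.ker ρ) :
    ∃ ψ : B →+* K, ∀ x, ψ (algebraMap A B x) = ρ x := by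
  haveI : (RingHom.ker ρ).IsPrime := RingHom.ker_isPrime ρ
  obtain ⟨Q, _, hQ, hQP⟩ := Ideal.exists_ideal_over_prime_of_isIntegral (RingHom.ker ρ)
    (⊥ : Ideal B) (by rw [← RingHom.ker_eq_comap_bot]; exact h)
  let ρ' : A ⧸ (Q.comap (algebraMap A B)) →+* K := Ideal.Quotient.lift _ ρ (by
    intro x hx
    rw [hQP] at hx
    exact hx)
  have hinj : Function.Injective ρ' := by
    rw [RingHom.injective_iff_ker_eq_bot, eq_bot_iff]
    intro x hx
    obtain ⟨x, rfl⟩ := Ideal.Quotient.mk_surjective x
    rw [RingHom.mem_ker] at hx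
    have hx' : ρ x = 0 := hx
    rw [Ideal.mem_bot, Ideal.Quotient.eq_zero_iff_mem, hQP]
    exact hx'
  letI alg1 : Algebra (A ⧸ (Q.comap (algebraMap A B))) K := ρ'.toAlgebra
  letI alg2 : Algebra (A ⧸ (Q.comap (algebraMap A B))) (B ⧸ Q) :=
    (Ideal.quotientMap Q (algebraMap A B) le_rfl).toAlgebra
  haveI : IsDomain (B ⧸ Q) := Ideal.Quotient.isDomain Q
  haveI : (Q.comap (algebraMap A B)).IsPrime := Ideal.comap_isPrime _ Q
  haveI : IsDomain (A ⧸ (Q.comap (algebraMap A B))) := Ideal.Quotient.isDomain _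
  have hf1 : FaithfulSMul (A ⧸ (Q.comap (algebraMap A B))) K :=
    (faithfulSMul_iff_algebraMap_injective _ _).2 hinj
  have hinj2 : Function.Injective (algebraMap (A ⧸ (Q.comap (algebraMap A B))) (B ⧸ Q)) :=
    Ideal.quotientMap_injective
  have hf2 : FaithfulSMul (A ⧸ (Q.comap (algebraMap A B))) (B ⧸ Q) :=
    (faithfulSMul_iff_algebraMap_injective _ _).2 hinj2
  have hint : Algebra.IsIntegral (A ⧸ (Q.comap (algebraMap A B))) (B ⧸ Q) := by
    constructor
    intro x
    obtain ⟨x, rfl⟩ := Ideal.Quotient.mk_surjective x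
    obtain ⟨p, hp, hpx⟩ := Algebra.IsIntegral.isIntegral (R := A) x
    refine ⟨p.map (Ideal.Quotient.mk _), hp.map _, ?_⟩
    rw [eval₂_map]
    have e1 : (algebraMap (A ⧸ (Q.comap (algebraMap A B))) (B ⧸ Q)).comp (Ideal.Quotient.mk _) =
        (Ideal.Quotient.mk Q).comp (algebraMap A B) := by
      refine RingHom.ext fun y => ?_
      rfl
    rw [e1, ← Polynomial.hom_eval₂, hpx, map_zero]
  have halg : Algebra.IsAlgebraic (A ⧸ (Q.comap (algebraMap A B))) (B ⧸ Q) := inferInstance
  let ψ : (B ⧸ Q) →ₐ[A ⧸ (Q.comap (algebraMap A B))] K := IsAlgClosed.lift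
  refine ⟨ψ.toRingHom.comp (Ideal.Quotient.mk Q), fun x => ?_⟩
  have h1 := ψ.commutes (Ideal.Quotient.mk _ x)
  exact h1

theorem coeff_swap {F : Type} [CommRing F] (p : F[X][X]) (i j : ℕ) :
    ((Bivariate.swap p).coeff j).coeff i = (p.coeff i).coeff j := by
  induction p using Polynomial.induction_on' with
  | add p q hp hq => rw [map_add, coeff_add, coeff_add, coeff_add, coeff_add, hp, hq]
  | monomial n f =>
    induction f using Polynomial.induction_on' with
    | add p q hp hq =>
      rw [map_add, map_add, coeff_add, coeff_add, coeff_add, coeff_add, hp, hq]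
    | monomial m r =>
      rw [Bivariate.swap_monomial_monomial]
      simp only [coeff_monomial]
      by_cases h1 : m = j <;> by_cases h2 : n = i <;> simp [h1, h2]
      · rw [coeff_monomial, if_neg h2]
      · rw [coeff_monomial, if_neg h1]

theorem natDegree_coeff_le {F : Type} [CommRing F] (p : F[X][X]) (i : ℕ) :
    (p.coeff i).natDegree ≤ (Bivariate.swap p).natDegree := by
  rw [natDegree_le_iff_coeff_eq_zero]
  intro j hj
  rw [← coeff_swap, coeff_eq_zero_of_natDegree_lt hj, coeff_zero]

theorem natDegree_swap_le {F : Type} [CommRing F] (p : F[X][X]) {M : ℕ}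
    (h : ∀ i, (p.coeff i).natDegree ≤ M) : (Bivariate.swap p).natDegree ≤ M := by
  rw [natDegree_le_iff_coeff_eq_zero]
  intro j hj
  ext i
  rw [coeff_swap, coeff_zero]
  exact coeff_eq_zero_of_natDegree_lt (lt_of_le_of_lt (h i) hj)

/-- the degrees of the coefficients of a factor -/
theorem natDegree_coeff_factor {F : Type} [CommRing F] [IsDomain F] {u v : F[X][X]} (hv : v ≠ 0)
    (hu : u ≠ 0) {M : ℕ} (h : ∀ i, ((u * v).coeff i).natDegree ≤ M) (i : ℕ) :
    (u.coeff i).natDegree ≤ M ∧ (v.coeff i).natDegree ≤ M := by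
  have h1 := natDegree_swap_le _ h
  have hu' : Bivariate.swap u ≠ 0 := by
    rw [← map_zero (Bivariate.swap (R := F))]
    exact fun h => hu ((Bivariate.swap (R := F)).injective h)
  have hv' : Bivariate.swap v ≠ 0 := by
    rw [← map_zero (Bivariate.swap (R := F))]
    exact fun h => hv ((Bivariate.swap (R := F)).injective h)
  rw [map_mul, natDegree_mul hu' hv'] at h1
  exact ⟨(natDegree_coeff_le u i).trans (by omega), (natDegree_coeff_le v i).trans (by omega)⟩

/-- the polynomial with a given table of coefficients -/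
noncomputable def tab {B : Type} [CommRing B] {a M : ℕ} (c : Fin a → Fin (M + 1) → B) : B[X][X] :=
  pol (fun i => ∑ k : Fin (M + 1), C (c i k) * X ^ (k : ℕ))

theorem tab_coeff {B : Type} [CommRing B] {M : ℕ} (c : Fin (M + 1) → B) (k : Fin (M + 1)) :
    (∑ k : Fin (M + 1), C (c k) * X ^ (k : ℕ)).coeff (k : ℕ) = c k := by
  rw [finset_sum_coeff, Finset.sum_eq_single k]
  · rw [coeff_C_mul, coeff_X_pow, if_pos rfl, mul_one]
  · intro k' _ hk'
    rw [coeff_C_mul, coeff_X_pow, if_neg, mul_zero]
    intro h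
    exact hk' (Fin.ext h.symm)
  · intro h; exact absurd (Finset.mem_univ _) h

theorem exists_tab {B : Type} [CommRing B] {a M : ℕ} (u : B[X][X]) (hu : u.Monic)
    (hn : u.natDegree = a) (hM : ∀ i, (u.coeff i).natDegree ≤ M) :
    ∃ c : Fin a → Fin (M + 1) → B, u = tab c := by
  obtain ⟨c, hc⟩ := exists_pol u hu hn
  refine ⟨fun i k => (c i).coeff k, ?_⟩
  rw [hc]
  unfold tab
  congr 1
  funext i
  have h1 : (c i).natDegree ≤ M := by
    rw [← pol_coeff c i, ← hc]
    exact hM _
  conv_lhs => rw [(c i).as_sum_range_C_mul_X_pow' (Nat.lt_succ_of_le h1)]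
  rw [Finset.sum_range]

theorem tab_map {B S : Type} [CommRing B] [CommRing S] (φ : B →+* S) {a M : ℕ}
    (c : Fin a → Fin (M + 1) → B) :
    (tab c).map (mapRingHom φ) = tab (fun i k => φ (c i k)) := by
  unfold tab
  rw [pol_map]
  congr 1
  funext i
  rw [coe_mapRingHom, Polynomial.map_sum]
  refine Finset.sum_congr rfl fun k _ => ?_
  simp

theorem tab_monic {B : Type} [CommRing B] {a M : ℕ} (c : Fin a → Fin (M + 1) → B) :
    (tab c).Monic := pol_monic _

theorem tab_natDegree {B : Type} [CommRing B] [Nontrivial B] {a M : ℕ}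
    (c : Fin a → Fin (M + 1) → B) : (tab c).natDegree = a := pol_natDegree _

section

attribute [local instance] Polynomial.algebra

/-- one type of factorization -/
theorem nf_aux {A K₀ : Type} [CommRing A] [Field K₀] [IsAlgClosed K₀] (ρ : A →+* K₀) (f : A[X][X])
    (hf : f.Monic) (M a b : ℕ) (ha : 0 < a) (hb : 0 < b)
    (hirr : Irreducible (f.map (mapRingHom ρ))) :
    ∃ D : A, ρ D ≠ 0 ∧ ∀ (F : Type) [Field F] (φ : A →+* F), φ D ≠ 0 →
      ∀ (c : Fin a → Fin (M + 1) → F) (d : Fin b → Fin (M + 1) → F),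
        tab c * tab d ≠ f.map (mapRingHom φ) := by
  classical
  let ι := (Fin a × Fin (M + 1)) ⊕ (Fin b × Fin (M + 1))
  let P := MvPolynomial ι A
  let uu : P[X][X] := tab (fun i k => (MvPolynomial.X (Sum.inl (i, k)) : P))
  let vv : P[X][X] := tab (fun i k => (MvPolynomial.X (Sum.inr (i, k)) : P))
  let ff : P[X][X] := f.map (mapRingHom (MvPolynomial.C))
  let J : Ideal P := Ideal.span {z | ∃ i j : ℕ, z = ((uu * vv - ff).coeff i).coeff j}
  let B := P ⧸ J
  let π : P →+* B := Ideal.Quotient.mk J
  let α : A →+* B := π.comp MvPolynomial.C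
  letI : Algebra A B := α.toAlgebra
  have hαdef : algebraMap A B = α := rfl
  let cc : Fin a → Fin (M + 1) → B := fun i k => π (MvPolynomial.X (Sum.inl (i, k)))
  let dd : Fin b → Fin (M + 1) → B := fun i k => π (MvPolynomial.X (Sum.inr (i, k)))
  have hprod : tab cc * tab dd = f.map (mapRingHom α) := by
    have h1 : (uu * vv - ff).map (mapRingHom π) = 0 := by
      ext i j
      rw [coeff_map, coe_mapRingHom, coeff_map, coeff_zero, coeff_zero]
      exact Ideal.Quotient.eq_zero_iff_mem.2 (Ideal.subset_span ⟨i, j, rfl⟩)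
    rw [Polynomial.map_sub, Polynomial.map_mul, sub_eq_zero, tab_map, tab_map,
      Polynomial.map_map] at h1
    rw [h1]
    congr 1
    rw [mapRingHom_comp]
  have hfmap : ∀ (S : Type) [CommRing S] (φ : A →+* S), f.map (mapRingHom φ) =
      f.map (mapRingHom φ) := fun _ _ _ => rfl
  have halg : (algebraMap A[X] B[X]) = mapRingHom α := rfl
  -- the coefficients are integral
  have hc : ∀ i k, IsIntegral A (cc i k) := by
    intro i k
    have h1 := Polynomial.isIntegral_coeff_of_dvd (R := A[X]) (S := B[X]) f (tab cc) hf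
      (tab_monic cc) ⟨tab dd, by rw [halg]; exact hprod.symm⟩ (a - 1 - (i : ℕ))
    have h2 : (tab cc).coeff (a - 1 - (i : ℕ)) = ∑ k : Fin (M + 1), C (cc i k) * X ^ (k : ℕ) :=
      pol_coeff _ i
    rw [h2] at h1
    have h3 := h1.coeff (k : ℕ)
    rw [tab_coeff] at h3
    exact h3
  have hd : ∀ i k, IsIntegral A (dd i k) := by
    intro i k
    have h1 := Polynomial.isIntegral_coeff_of_dvd (R := A[X]) (S := B[X]) f (tab dd) hf
      (tab_monic dd) ⟨tab cc, by rw [halg, mul_comm]; exact hprod.symm⟩ (b - 1 - (i : ℕ))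
    have h2 : (tab dd).coeff (b - 1 - (i : ℕ)) = ∑ k : Fin (M + 1), C (dd i k) * X ^ (k : ℕ) :=
      pol_coeff _ i
    rw [h2] at h1
    have h3 := h1.coeff (k : ℕ)
    rw [tab_coeff] at h3
    exact h3
  haveI hint : Algebra.IsIntegral A B := by
    constructor
    intro z
    obtain ⟨z, rfl⟩ := Ideal.Quotient.mk_surjective z
    induction z using MvPolynomial.induction_on with
    | C x => exact isIntegral_algebraMap (R := A) (A := B) (x := x)
    | add p q hp hq => rw [map_add]; exact hp.add hq
    | mul_X p i hp =>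
      rw [map_mul]
      refine hp.mul ?_
      rcases i with ⟨i, k⟩ | ⟨i, k⟩
      · exact hc i k
      · exact hd i k
  by_cases hker : RingHom.ker (algebraMap A B) ≤ RingHom.ker ρ
  · exfalso
    obtain ⟨ψ, hψ⟩ := ext_hom (A := A) (B := B) ρ hker
    have hψα : ψ.comp α = ρ := RingHom.ext hψ
    have h1 := congrArg (fun g => g.map (mapRingHom ψ)) hprod
    rw [Polynomial.map_mul, tab_map, tab_map, Polynomial.map_map, mapRingHom_comp, hψα] at h1
    rw [← h1] at hirr
    rcases hirr.isUnit_or_isUnit rfl with h2 | h2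
    · have h3 := (tab_monic (fun i k => ψ (cc i k))).eq_one_of_isUnit h2
      have h4 := tab_natDegree (fun i k => ψ (cc i k))
      rw [h3, natDegree_one] at h4
      omega
    · have h3 := (tab_monic (fun i k => ψ (dd i k))).eq_one_of_isUnit h2
      have h4 := tab_natDegree (fun i k => ψ (dd i k))
      rw [h3, natDegree_one] at h4
      omega
  · rw [SetLike.not_le_iff_exists] at hker
    obtain ⟨D, hD1, hD2⟩ := hker
    refine ⟨D, hD2, ?_⟩
    intro F _ φ hφ c d hcd
    apply hφ
    let θ : P →+* F := MvPolynomial.eval₂Hom φ (Sum.elim (fun v => c v.1 v.2) (fun v => d v.1 v.2))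
    have hθJ : ∀ z ∈ J, θ z = 0 := by
      intro z hz
      have hle : J ≤ RingHom.ker θ := by
        rw [Ideal.span_le]
        rintro _ ⟨i, j, rfl⟩
        rw [SetLike.mem_coe, RingHom.mem_ker]
        have h1 : (uu * vv - ff).map (mapRingHom θ) = 0 := by
          rw [Polynomial.map_sub, Polynomial.map_mul, sub_eq_zero, tab_map, tab_map,
            Polynomial.map_map, mapRingHom_comp]
          have e1 : θ.comp MvPolynomial.C = φ := by
            refine RingHom.ext fun x => ?_
            exact MvPolynomial.eval₂_C _ _ _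
          have e2 : ∀ i k, θ (MvPolynomial.X (Sum.inl (i, k))) = c i k := fun i k =>
            MvPolynomial.eval₂_X _ _ _
          have e3 : ∀ i k, θ (MvPolynomial.X (Sum.inr (i, k))) = d i k := fun i k =>
            MvPolynomial.eval₂_X _ _ _
          rw [e1, ← hcd]
          simp only [e2, e3]
        have h2 := congrArg (fun g => (g.coeff i).coeff j) h1
        simp only [coeff_map, coe_mapRingHom, coeff_zero] at h2
        exact h2
      exact hle hz
    let θ' : B →+* F := Ideal.Quotient.lift J θ hθJ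
    have h1 : θ' (algebraMap A B D) = φ D := by
      exact MvPolynomial.eval₂_C _ _ _
    rw [← h1]
    have h2 : algebraMap A B D = 0 := hD1
    rw [h2, map_zero]

/-- **Irreducibility at a special point is an open condition.** -/
theorem nf {A K₀ : Type} [CommRing A] [Field K₀] [IsAlgClosed K₀] (ρ : A →+* K₀) (f : A[X][X])
    (hf : f.Monic) (h0 : 0 < f.natDegree) (hirr : Irreducible (f.map (mapRingHom ρ))) :
    ∃ D : A, ρ D ≠ 0 ∧ ∀ (F : Type) [Field F] (φ : A →+* F), φ D ≠ 0 →
      Irreducible (f.map (mapRingHom φ)) := by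
  classical
  set N := f.natDegree with hN
  set M := (Bivariate.swap f).natDegree with hM
  choose! D hD1 hD2 using fun (a : ℕ) (b : ℕ) (ha : 0 < a) (hb : 0 < b) =>
    nf_aux ρ f hf M a b ha hb hirr
  refine ⟨∏ a ∈ Finset.Ioo 0 N, D a (N - a), ?_, ?_⟩
  · rw [map_prod, Finset.prod_ne_zero_iff]
    intro a ha
    rw [Finset.mem_Ioo] at ha
    exact hD1 a (N - a) ha.1 (by omega)
  · intro F _ φ hφ
    rw [map_prod, Finset.prod_ne_zero_iff] at hφ
    have hfm : (f.map (mapRingHom φ)).Monic := hf.map _
    have hfd : (f.map (mapRingHom φ)).natDegree = N := hf.natDegree_map _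
    rw [hfm.irreducible_iff_natDegree']
    refine ⟨?_, ?_⟩
    · intro h1
      rw [h1, natDegree_one] at hfd
      omega
    · intro u v hu hv huv hdeg
      rw [Finset.mem_Ioc, hfd] at hdeg
      have huvd : u.natDegree + v.natDegree = N := by
        rw [← hu.natDegree_mul hv, huv, hfd]
      have hb : ∀ i, ((u * v).coeff i).natDegree ≤ M := by
        intro i
        rw [huv, coeff_map, coe_mapRingHom]
        exact natDegree_map_le.trans (natDegree_coeff_le f i)
      have hc := natDegree_coeff_factor hv.ne_zero hu.ne_zero hb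
      obtain ⟨c, hc'⟩ := exists_tab u hu rfl (fun i => (hc i).1)
      obtain ⟨d, hd'⟩ := exists_tab v hv rfl (fun i => (hc i).2)
      have hu0 : 0 < u.natDegree := by omega
      have e1 : v.natDegree = N - u.natDegree := by omega
      have h1 := hφ u.natDegree (by rw [Finset.mem_Ioo]; omega)
      rw [← e1] at h1
      exact hD2 _ _ hu0 hdeg.1 F φ h1 c d (by rw [← hc', ← hd']; exact huv)

end

end Pool.Agent.K9h5.T
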