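import Mathlib
import Pool.Agent.K9h5.T.NF
import Pool.Agent.K9h5.Pf

/-!
# Norms of polynomials over the coordinate ring
-/

set_option autoImplicit false
set_option linter.all false

namespace Pool.Agent.K9h5.T

open Polynomial Pool.Agent.K9h5

section

variable {S : Type} [CommRing S] (a b : S)

/-- the coordinate ring with an additional variable -/
abbrev QT : Type := QuadraticAlgebra S[X][X] (C (X ^ 3 + C a * X + C b)) 0

/-- the coefficients -/
noncomputable def cQ : QA S a b →+* QT a b where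
  toFun z := ⟨C z.re, C z.im⟩
  map_zero' := by ext1 <;> simp
  map_one' := by ext1 <;> simp [QuadraticAlgebra.re_one, QuadraticAlgebra.im_one]
  map_add' z w := by ext1 <;> simp
  map_mul' z w := by ext1 <;> simp [QuadraticAlgebra.re_mul, QuadraticAlgebra.im_mul]

/-- polynomials over the coordinate ring -/
noncomputable def LamQ : (QA S a b)[X] →+* QT a b := eval₂RingHom (cQ a b) ⟨X, 0⟩

theorem LamQ_C (z : QA S a b) : LamQ a b (C z) = ⟨C z.re, C z.im⟩ := by
  unfold LamQ
  rw [coe_eval₂RingHom, eval₂_C]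
  rfl

theorem LamQ_X : LamQ a b X = ⟨X, 0⟩ := by
  unfold LamQ
  rw [coe_eval₂RingHom, eval₂_X]

theorem LamQ_X_pow (m : ℕ) : LamQ a b (X ^ m) = ⟨X ^ m, 0⟩ := by
  rw [map_pow, LamQ_X]
  induction m with
  | zero => rw [pow_zero, pow_zero]; ext1 <;> simp [QuadraticAlgebra.re_one, QuadraticAlgebra.im_one]
  | succ m ih =>
    rw [pow_succ, ih]
    ext1 <;> simp [QuadraticAlgebra.re_mul, QuadraticAlgebra.im_mul, pow_succ]

theorem LamQ_re (R : (QA S a b)[X]) (m : ℕ) : (LamQ a b R).re.coeff m = (R.coeff m).re := by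
  induction R using Polynomial.induction_on' with
  | add p q hp hq =>
    rw [map_add (LamQ a b), QuadraticAlgebra.re_add, coeff_add, coeff_add, hp, hq,
      QuadraticAlgebra.re_add]
  | monomial k z =>
    rw [← C_mul_X_pow_eq_monomial, map_mul (LamQ a b), LamQ_C, LamQ_X_pow,
      QuadraticAlgebra.re_mul]
    simp only [mul_zero, add_zero]
    rw [coeff_C_mul, coeff_C_mul, coeff_X_pow, coeff_X_pow]
    split_ifs <;> simp

theorem LamQ_im (R : (QA S a b)[X]) (m : ℕ) : (LamQ a b R).im.coeff m = (R.coeff m).im := by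
  induction R using Polynomial.induction_on' with
  | add p q hp hq =>
    rw [map_add (LamQ a b), QuadraticAlgebra.im_add, coeff_add, coeff_add, hp, hq,
      QuadraticAlgebra.im_add]
  | monomial k z =>
    rw [← C_mul_X_pow_eq_monomial, map_mul (LamQ a b), LamQ_C, LamQ_X_pow,
      QuadraticAlgebra.im_mul]
    simp only [mul_zero, zero_add, zero_mul, add_zero]
    rw [coeff_C_mul, coeff_C_mul, coeff_X_pow, coeff_X_pow]
    split_ifs <;> simp

/-- the norm -/
noncomputable def nrm (R : (QA S a b)[X]) : S[X][X] := QuadraticAlgebra.norm (LamQ a b R)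

theorem nrm_mul (R R' : (QA S a b)[X]) : nrm a b (R * R') = nrm a b R * nrm a b R' := by
  unfold nrm
  rw [map_mul, map_mul]

theorem nrm_monic [Nontrivial S] {R : (QA S a b)[X]} (hR : R.Monic) :
    (nrm a b R).Monic ∧ (nrm a b R).natDegree = 2 * R.natDegree := by
  set N := R.natDegree with hN
  have hre : (LamQ a b R).re.Monic ∧ (LamQ a b R).re.natDegree = N := by
    have h1 : (LamQ a b R).re.coeff N = 1 := by
      rw [LamQ_re, hN, hR.coeff_natDegree, QuadraticAlgebra.re_one]
    have h2 : (LamQ a b R).re.natDegree ≤ N := by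
      rw [natDegree_le_iff_coeff_eq_zero]
      intro m hm
      rw [LamQ_re, coeff_eq_zero_of_natDegree_lt hm, QuadraticAlgebra.re_zero]
    have h3 := monic_of_natDegree_le_of_coeff_eq_one N h2 h1
    refine ⟨h3, le_antisymm h2 ?_⟩
    apply le_natDegree_of_ne_zero
    rw [h1]
    exact one_ne_zero
  have him : (LamQ a b R).im.degree < (N : WithBot ℕ) := by
    rw [degree_lt_iff_coeff_zero]
    intro m hm
    rw [LamQ_im]
    rcases hm.eq_or_lt with h | h
    · rw [← h, hN, hR.coeff_natDegree, QuadraticAlgebra.im_one]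
    · rw [coeff_eq_zero_of_natDegree_lt h, QuadraticAlgebra.im_zero]
  have hdef : nrm a b R = (LamQ a b R).re ^ 2 +
      (-(C (X ^ 3 + C a * X + C b) * (LamQ a b R).im ^ 2)) := by
    unfold nrm
    rw [QuadraticAlgebra.norm_def]
    ring
  have hm : ((LamQ a b R).re ^ 2).Monic := hre.1.pow 2
  have hd : ((LamQ a b R).re ^ 2).degree = ((2 * N : ℕ) : WithBot ℕ) := by
    rw [degree_eq_natDegree hm.ne_zero, hre.1.natDegree_pow, hre.2]
  have hlt : (-(C (X ^ 3 + C a * X + C b) * (LamQ a b R).im ^ 2)).degree <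
      ((LamQ a b R).re ^ 2).degree := by
    rw [hd, degree_neg, degree_lt_iff_coeff_zero]
    intro m hm
    rw [coeff_C_mul]
    have h1 : ((LamQ a b R).im ^ 2).coeff m = 0 := by
      by_cases h0 : (LamQ a b R).im = 0
      · rw [h0]; simp
      · apply coeff_eq_zero_of_natDegree_lt
        refine lt_of_le_of_lt natDegree_pow_le ?_
        have h2 := (natDegree_lt_iff_degree_lt h0).2 him
        omega
    rw [h1, mul_zero]
  constructor
  · rw [hdef]
    exact hm.add_of_left hlt
  · apply natDegree_eq_of_degree_eq_some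
    rw [hdef, degree_add_eq_left_of_degree_lt hlt, hd]

/-- evaluation -/
noncomputable def evT {K : Type} [CommRing K] (ι : S →+* K) (x y : K)
    (h : y ^ 2 = x ^ 3 + ι a * x + ι b) : QT a b →+* K[X] where
  toFun z := z.re.map (eval₂RingHom ι x) + z.im.map (eval₂RingHom ι x) * C y
  map_zero' := by simp
  map_one' := by
    simp [QuadraticAlgebra.re_one, QuadraticAlgebra.im_one]
  map_add' z w := by
    simp only [QuadraticAlgebra.re_add, QuadraticAlgebra.im_add, Polynomial.map_add]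
    ring
  map_mul' z w := by
    have hC : (C y : K[X]) ^ 2 = C (x ^ 3 + ι a * x + ι b) := by rw [← C_pow, h]
    simp only [QuadraticAlgebra.re_mul, QuadraticAlgebra.im_mul, Polynomial.map_add,
      Polynomial.map_mul, map_C, coe_eval₂RingHom, eval₂_add, eval₂_mul, eval₂_pow,
      eval₂_X, eval₂_C, Polynomial.map_zero]
    linear_combination - (z.im.map (eval₂RingHom ι x) * w.im.map (eval₂RingHom ι x)) * hC

theorem evT_apply {K : Type} [CommRing K] (ι : S →+* K) (x y : K)
    (h : y ^ 2 = x ^ 3 + ι a * x + ι b) (z : QT a b) :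
    evT a b ι x y h z = z.re.map (eval₂RingHom ι x) + z.im.map (eval₂RingHom ι x) * C y := rfl

theorem evT_LamQ {K : Type} [CommRing K] (ι : S →+* K) (x y : K)
    (h : y ^ 2 = x ^ 3 + ι a * x + ι b) (R : (QA S a b)[X]) :
    evT a b ι x y h (LamQ a b R) = R.map (evQ ι a b x y h) := by
  have h1 : (evT a b ι x y h).comp (LamQ a b) = mapRingHom (evQ ι a b x y h) := by
    apply Polynomial.ringHom_ext
    · intro z
      rw [RingHom.comp_apply, LamQ_C, evT_apply, coe_mapRingHom, Polynomial.map_C (evQ ι a b x y h),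
        evQ_apply]
      simp only [map_C, coe_eval₂RingHom, C_add, C_mul]
    · rw [RingHom.comp_apply, LamQ_X, evT_apply, coe_mapRingHom, map_X]
      simp
  have h2 := congrArg (fun g => g R) h1
  exact h2

/-- **The norm at a point.** -/
theorem nrm_eval {K : Type} [CommRing K] (ι : S →+* K) (x y : K)
    (h : y ^ 2 = x ^ 3 + ι a * x + ι b) (h' : (-y) ^ 2 = x ^ 3 + ι a * x + ι b)
    (R : (QA S a b)[X]) : (nrm a b R).map (eval₂RingHom ι x) =
      R.map (evQ ι a b x y h) * R.map (evQ ι a b x (-y) h') := by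
  rw [← evT_LamQ, ← evT_LamQ, evT_apply, evT_apply]
  unfold nrm
  have hC : (C y : K[X]) ^ 2 = C (x ^ 3 + ι a * x + ι b) := by rw [← C_pow, h]
  rw [QuadraticAlgebra.norm_def]
  simp only [Polynomial.map_add, Polynomial.map_sub, Polynomial.map_mul, map_C, coe_eval₂RingHom,
    eval₂_add, eval₂_mul, eval₂_pow, eval₂_X, eval₂_C, Polynomial.map_zero, C_neg]
  linear_combination ((LamQ a b R).im.map (eval₂RingHom ι x)) ^ 2 * hC

end

theorem nrm_map {S T : Type} [CommRing S] [CommRing T] (φ : S →+* T) (a b : S) (a' b' : T)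
    (ha : φ a = a') (hb : φ b = b') (R : (QA S a b)[X]) :
    (nrm a b R).map (mapRingHom φ) = nrm a' b' (R.map (mapQ φ a b a' b' ha hb)) := by
  subst ha hb
  unfold nrm
  have h1 : (LamQ (φ a) (φ b) (R.map (mapQ φ a b _ _ rfl rfl))).re =
      (LamQ a b R).re.map (mapRingHom φ) := by
    ext1 m
    rw [LamQ_re, coeff_map, coeff_map, LamQ_re, mapQ_re, coe_mapRingHom]
  have h2 : (LamQ (φ a) (φ b) (R.map (mapQ φ a b _ _ rfl rfl))).im =
      (LamQ a b R).im.map (mapRingHom φ) := by
    ext1 m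
    rw [LamQ_im, coeff_map, coeff_map, LamQ_im, mapQ_im, coe_mapRingHom]
  rw [QuadraticAlgebra.norm_def, QuadraticAlgebra.norm_def, h1, h2]
  simp [Polynomial.map_mul]

section

variable {S : Type} [CommRing S] (a b : S)

/-- the plane curve of the tuples of roots -/
noncomputable def Th {n : ℕ} (m : ℕ) (e : Fin m → ℕ) (lam : ∀ i, Fin (e i) → S) (μ : S)
    (c : Fin m → Fin n → QA S a b) : S[X][X] :=
  nrm a b ((MR m e (fun i j => qc S a b (lam i j)) c).comp (X - C (qc S a b μ * qy S a b)))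

theorem evQ_qc {K : Type} [CommRing K] (ι : S →+* K) (x y : K)
    (h : y ^ 2 = x ^ 3 + ι a * x + ι b) (z : S) : evQ ι a b x y h (qc S a b z) = ι z := by
  rw [evQ_apply, qc_apply]
  simp

theorem evQ_qy {K : Type} [CommRing K] (ι : S →+* K) (x y : K)
    (h : y ^ 2 = x ^ 3 + ι a * x + ι b) : evQ ι a b x y h (qy S a b) = y := by
  rw [evQ_apply]
  simp [qy]

theorem Th_half {n : ℕ} {K : Type} [CommRing K] (ι : S →+* K) (x y : K)
    (h : y ^ 2 = x ^ 3 + ι a * x + ι b) (m : ℕ) (e : Fin m → ℕ) (lam : ∀ i, Fin (e i) → S) (μ : S)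
    (c : Fin m → Fin n → QA S a b) (w : Fin m → Fin n → K)
    (hw : ∀ i, pol (fun k => evQ ι a b x y h (c i k)) = ∏ j, (X - C (w i j))) :
    ((MR m e (fun i j => qc S a b (lam i j)) c).comp (X - C (qc S a b μ * qy S a b))).map
      (evQ ι a b x y h) = ∏ s : (∀ i, Fin (e i) ↪ Fin n),
        (X - C (ι μ * y + ∑ i, ∑ j, ι (lam i j) * w i (s i j))) := by
  rw [Polynomial.map_comp, MR_map, MR_prod _ _ _ _ w hw, Polynomial.map_sub, map_X, map_C, map_mul,
    evQ_qc, evQ_qy, Polynomial.prod_comp]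
  refine Finset.prod_congr rfl fun s _ => ?_
  rw [sub_comp, X_comp, C_comp, sub_sub, ← C_add]
  congr 3
  refine Finset.sum_congr rfl fun i _ => Finset.sum_congr rfl fun j _ => ?_
  rw [evQ_qc]

theorem Th_eval {n : ℕ} {K : Type} [CommRing K] (ι : S →+* K) (x y : K)
    (h : y ^ 2 = x ^ 3 + ι a * x + ι b) (h' : (-y) ^ 2 = x ^ 3 + ι a * x + ι b)
    (m : ℕ) (e : Fin m → ℕ) (lam : ∀ i, Fin (e i) → S) (μ : S)
    (c : Fin m → Fin n → QA S a b) (w w' : Fin m → Fin n → K)
    (hw : ∀ i, pol (fun k => evQ ι a b x y h (c i k)) = ∏ j, (X - C (w i j)))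
    (hw' : ∀ i, pol (fun k => evQ ι a b x (-y) h' (c i k)) = ∏ j, (X - C (w' i j))) :
    (Th a b m e lam μ c).map (eval₂RingHom ι x) =
      (∏ s : (∀ i, Fin (e i) ↪ Fin n), (X - C (ι μ * y + ∑ i, ∑ j, ι (lam i j) * w i (s i j)))) *
      (∏ s : (∀ i, Fin (e i) ↪ Fin n), (X - C (ι μ * (-y) + ∑ i, ∑ j, ι (lam i j) * w' i (s i j)))) := by
  unfold Th
  rw [nrm_eval a b ι x y h h', Th_half a b ι x y h m e lam μ c w hw,
    Th_half a b ι x (-y) h' m e lam μ c w' hw']

end

theorem Th_map {S T : Type} [CommRing S] [CommRing T] (φ : S →+* T) (a b : S) (a' b' : T)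
    (ha : φ a = a') (hb : φ b = b') {n : ℕ} (m : ℕ) (e : Fin m → ℕ) (lam : ∀ i, Fin (e i) → S)
    (μ : S) (c : Fin m → Fin n → QA S a b) :
    (Th a b m e lam μ c).map (mapRingHom φ) =
      Th a' b' m e (fun i j => φ (lam i j)) (φ μ) (fun i k => mapQ φ a b a' b' ha hb (c i k)) := by
  unfold Th
  rw [nrm_map φ a b a' b' ha hb, Polynomial.map_comp, MR_map]
  have h1 : ∀ z, mapQ φ a b a' b' ha hb (qc S a b z) = qc T a' b' (φ z) := by
    intro z
    ext1 <;> simp [mapQ_re, mapQ_im, qc_apply]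
  have h2 : mapQ φ a b a' b' ha hb (qy S a b) = qy T a' b' := by
    ext1 <;> simp [mapQ_re, mapQ_im, qy]
  rw [Polynomial.map_sub, map_X, map_C, map_mul, h1, h2]
  simp only [h1]

end Pool.Agent.K9h5.T
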