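import Mathlib
import Pool.Agent.K9h5.T.Nrm
import Pool.Agent.K9h5.Sz

/-!
# The algebraic closure of the function field
-/

set_option autoImplicit false
set_option linter.all false

namespace Pool.Agent.K9h5.T

open Polynomial Pool.Agent.K9h5 Pool.Agent.H901R3.MS

section

variable {K : Type} [Field K] (a b : K)

instance instNZD : NoZeroDivisors (QA K a b) := by
  constructor
  intro z w h
  by_contra hc
  push Not at hc
  have h1 := norm_ne_zero hc.1
  have h2 := norm_ne_zero hc.2
  apply mul_ne_zero h1 h2
  rw [← map_mul, h, QuadraticAlgebra.norm_zero]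

instance instDomQA : IsDomain (QA K a b) := NoZeroDivisors.to_isDomain _

/-- the function field -/
abbrev FE : Type := FractionRing (QA K a b)

/-- its algebraic closure -/
abbrev Om : Type := AlgebraicClosure (FE a b)

/-- the embedding of the coordinate ring -/
noncomputable def jO : QA K a b →+* Om a b := (algebraMap (FE a b) (Om a b)).comp (algebraMap (QA K a b) (FE a b))

theorem jO_inj : Function.Injective (jO a b) :=
  (algebraMap (FE a b) (Om a b)).injective.comp (IsFractionRing.injective (QA K a b) (FE a b))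

/-- the polynomials in `x` -/
noncomputable def kO : K[X] →+* Om a b := (jO a b).comp (algebraMap K[X] (QA K a b))

theorem algebraMap_QA (p : K[X]) : algebraMap K[X] (QA K a b) p = ⟨p, 0⟩ := rfl

theorem kO_inj : Function.Injective (kO a b) := by
  refine (jO_inj a b).comp ?_
  intro p q h
  rw [algebraMap_QA, algebraMap_QA] at h
  exact congrArg QuadraticAlgebra.re h

/-- the constants -/
noncomputable def cO : K →+* Om a b := (kO a b).comp C

noncomputable def xO : Om a b := kO a b X

noncomputable def yO : Om a b := jO a b (qy K a b)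

theorem eqn_O : (yO a b) ^ 2 = (xO a b) ^ 3 + cO a b a * xO a b + cO a b b := by
  unfold yO xO cO
  rw [← map_pow]
  have h1 : (qy K a b) ^ 2 = algebraMap K[X] (QA K a b) (X ^ 3 + C a * X + C b) := by
    rw [algebraMap_QA, sq]
    ext1 <;> simp [qy, QuadraticAlgebra.re_mul, QuadraticAlgebra.im_mul]
  rw [h1]
  show kO a b _ = _
  rw [map_add, map_add, map_mul, map_pow]
  rfl

theorem eqn_O' : (-yO a b) ^ 2 = (xO a b) ^ 3 + cO a b a * xO a b + cO a b b := by
  rw [neg_sq, eqn_O]

theorem kO_eq : kO a b = eval₂RingHom (cO a b) (xO a b) := by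
  apply Polynomial.ringHom_ext
  · intro z
    rw [coe_eval₂RingHom, eval₂_C]
    rfl
  · rw [coe_eval₂RingHom, eval₂_X]
    rfl

theorem QA_decomp (z : QA K a b) : z = algebraMap K[X] (QA K a b) z.re +
    algebraMap K[X] (QA K a b) z.im * qy K a b := by
  rw [algebraMap_QA, algebraMap_QA]
  ext1 <;> simp [qy, QuadraticAlgebra.re_mul, QuadraticAlgebra.im_mul]

theorem jO_eq : jO a b = evQ (cO a b) a b (xO a b) (yO a b) (eqn_O a b) := by
  refine RingHom.ext fun z => ?_
  rw [evQ_apply]
  conv_lhs => rw [QA_decomp a b z]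
  rw [map_add, map_mul]
  have h1 : ∀ p : K[X], jO a b (algebraMap K[X] (QA K a b) p) = p.eval₂ (cO a b) (xO a b) := by
    intro p
    show kO a b p = _
    rw [kO_eq]
    rfl
  rw [h1, h1]
  rfl

instance instFSMul : FaithfulSMul K[X] (FE a b) := by
  rw [faithfulSMul_iff_algebraMap_injective, IsScalarTower.algebraMap_eq K[X] (QA K a b) (FE a b)]
  refine (IsFractionRing.injective (QA K a b) (FE a b)).comp ?_
  intro p q h
  have h' : algebraMap K[X] (QA K a b) p = algebraMap K[X] (QA K a b) q := h
  rw [algebraMap_QA, algebraMap_QA] at h'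
  exact congrArg QuadraticAlgebra.re h'

/-- the fraction field of `K[x]` acts -/
noncomputable instance instAlgKx : Algebra (FractionRing K[X]) (FE a b) :=
  FractionRing.liftAlgebra K[X] (FE a b)

instance instTow : IsScalarTower K[X] (FractionRing K[X]) (FE a b) :=
  FractionRing.isScalarTower_liftAlgebra K[X] (FE a b)

instance instAlgFE : Algebra.IsAlgebraic (FractionRing K[X]) (FE a b) :=
  isAlgebraic_of_isFractionRing K[X] (QA K a b) (FractionRing K[X]) (FE a b)

theorem algKx (p : K[X]) : algebraMap (FractionRing K[X]) (Om a b) (algebraMap K[X] _ p) = kO a b p := by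
  rw [IsScalarTower.algebraMap_apply (FractionRing K[X]) (FE a b) (Om a b),
    ← IsScalarTower.algebraMap_apply K[X] (FractionRing K[X]) (FE a b)]
  rfl

/-- automorphisms of the function field extend -/
theorem lift_FE (τ : FE a b ≃+* FE a b) : ∃ α : Om a b ≃+* Om a b,
    ∀ z : FE a b, α (algebraMap (FE a b) (Om a b) z) = algebraMap (FE a b) (Om a b) (τ z) :=
  ⟨IsAlgClosure.equivOfEquiv (Om a b) (Om a b) τ, fun z => IsAlgClosure.equivOfEquiv_algebraMap _ _ τ z⟩

/-- the conjugation of the coordinate ring -/
noncomputable def conjQ : QA K a b ≃+* QA K a b where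
  toFun z := ⟨z.re, -z.im⟩
  invFun z := ⟨z.re, -z.im⟩
  left_inv z := by ext1 <;> simp
  right_inv z := by ext1 <;> simp
  map_mul' z w := by ext1 <;> simp [QuadraticAlgebra.re_mul, QuadraticAlgebra.im_mul, add_comm]
  map_add' z w := by ext1 <;> simp [add_comm]

/-- the conjugation of the algebraic closure -/
theorem exists_alpha : ∃ α : Om a b ≃+* Om a b,
    ∀ z : QA K a b, α (jO a b z) = evQ (cO a b) a b (xO a b) (-yO a b) (eqn_O' a b) z := by
  obtain ⟨α, hα⟩ := lift_FE a b (IsFractionRing.ringEquivOfRingEquiv (conjQ a b))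
  refine ⟨α, fun z => ?_⟩
  have h1 : α (jO a b z) = jO a b (conjQ a b z) := by
    unfold jO
    rw [RingHom.comp_apply, hα, IsFractionRing.ringEquivOfRingEquiv_algebraMap]
    rfl
  rw [h1, jO_eq, evQ_apply, evQ_apply]
  simp [conjQ]

end

end Pool.Agent.K9h5.T
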