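import Mathlib
import Pool.Agent.K9h5.T.Om

/-!
# Irreducibility of the curve of tuples and transitivity of the Galois group
-/

set_option autoImplicit false
set_option linter.all false

namespace Pool.Agent.K9h5.T

open Polynomial Pool.Agent.K9h5 Pool.Agent.H901R3.MS

section

variable {K : Type} [Field K] (a b : K) {n m : ℕ}

/-- the index set -/
abbrev IX {m : ℕ} (n : ℕ) (e : Fin m → ℕ) : Type := ∀ i, Fin (e i) ↪ Fin n

/-- the values of the linear form -/
noncomputable def thv (e : Fin m → ℕ) (lam : ∀ i, Fin (e i) → K) (μ : K)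
    (w : Fin m → Fin n → Om a b) (y : Om a b) (s : IX n e) : Om a b :=
  cO a b μ * y + ∑ i, ∑ j, cO a b (lam i j) * w i (s i j)

/-- the factorization -/
theorem th_fact (e : Fin m → ℕ) (lam : ∀ i, Fin (e i) → K) (μ : K)
    (c : Fin m → Fin n → QA K a b) (w : Fin m → Fin n → Om a b)
    (hw : ∀ i, pol (fun k => jO a b (c i k)) = ∏ j, (X - C (w i j)))
    (α : Om a b ≃+* Om a b)
    (hα : ∀ z : QA K a b, α (jO a b z) = evQ (cO a b) a b (xO a b) (-yO a b) (eqn_O' a b) z) :
    (Th a b m e lam μ c).map (kO a b) = ∏ t : IX n e ⊕ IX n e,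
      (X - C (Sum.elim (thv a b e lam μ w (yO a b))
        (thv a b e lam μ (fun i j => α (w i j)) (-yO a b)) t)) := by
  rw [kO_eq, Th_eval a b (cO a b) (xO a b) (yO a b) (eqn_O a b) (eqn_O' a b) m e lam μ c w
    (fun i j => α (w i j)), Fintype.prod_sum_type]
  · rfl
  · intro i
    rw [← hw i]
    simp only [jO_eq]
  · intro i
    have h1 := congrArg (fun P => P.map (α : Om a b →+* Om a b)) (hw i)
    simp only [pol_map, Polynomial.map_prod, Polynomial.map_sub, map_X, map_C] at h1
    have h2 : (fun k => (α : Om a b →+* Om a b) (jO a b (c i k))) =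
        fun k => evQ (cO a b) a b (xO a b) (-yO a b) (eqn_O' a b) (c i k) := by
      funext k
      exact hα _
    rw [h2] at h1
    exact h1

theorem alpha_c (α : Om a b ≃+* Om a b)
    (hα : ∀ z : QA K a b, α (jO a b z) = evQ (cO a b) a b (xO a b) (-yO a b) (eqn_O' a b) z) :
    (∀ p : K[X], α (kO a b p) = kO a b p) ∧ (∀ z : K, α (cO a b z) = cO a b z) ∧
      α (yO a b) = -yO a b := by
  have h1 : ∀ p : K[X], α (kO a b p) = kO a b p := by
    intro p
    have h2 := hα (algebraMap K[X] (QA K a b) p)
    have h3 : jO a b (algebraMap K[X] (QA K a b) p) = kO a b p := rfl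
    rw [h3] at h2
    rw [h2, algebraMap_QA, evQ_apply, kO_eq]
    simp
  refine ⟨h1, fun z => h1 (C z), ?_⟩
  have h2 := hα (qy K a b)
  have h3 : jO a b (qy K a b) = yO a b := rfl
  rw [h3] at h2
  rw [h2, evQ_apply]
  simp [qy]

/-- **Transitivity implies irreducibility.** -/
theorem irr_of_tra (e : Fin m → ℕ) (lam : ∀ i, Fin (e i) → K) (μ : K)
    (c : Fin m → Fin n → QA K a b) (w : Fin m → Fin n → Om a b)
    (hw : ∀ i, pol (fun k => jO a b (c i k)) = ∏ j, (X - C (w i j)))
    (htra : ∀ s s' : IX n e, ∃ σ : Om a b ≃+* Om a b, (∀ z : QA K a b, σ (jO a b z) = jO a b z) ∧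
      ∀ i j, σ (w i (s i j)) = w i (s' i j))
    (hsep : ((Th a b m e lam μ c).map (kO a b)).Separable) (hne : Nonempty (IX n e)) :
    Irreducible (Th a b m e lam μ c) := by
  classical
  obtain ⟨α, hα⟩ := exists_alpha a b
  obtain ⟨hα1, hα2, hα3⟩ := alpha_c a b α hα
  set Θ := Th a b m e lam μ c with hΘ
  set θ : IX n e ⊕ IX n e → Om a b := Sum.elim (thv a b e lam μ w (yO a b))
        (thv a b e lam μ (fun i j => α (w i j)) (-yO a b)) with hθ
  have hfac : Θ.map (kO a b) = ∏ t, (X - C (θ t)) := th_fact a b e lam μ c w hw α hα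
  have hmon : ((MR m e (fun i j => qc K a b (lam i j)) c).comp
      (X - C (qc K a b μ * qy K a b))).Monic ∧ Θ.Monic := by
    have hc : ((MR m e (fun i j => qc K a b (lam i j)) c).comp
      (X - C (qc K a b μ * qy K a b))).Monic := by
      have h1 := Th_half a b (cO a b) (xO a b) (yO a b) (eqn_O a b) m e lam μ c w (by
        intro i
        rw [← hw i]
        simp only [jO_eq])
      rw [← jO_eq] at h1
      apply Function.Injective.monic_map_iff (jO_inj a b) |>.2
      rw [h1]
      exact monic_prod_of_monic _ _ fun s _ => monic_X_sub_C _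
    exact ⟨hc, (nrm_monic a b hc).1⟩
  have hΘm : Θ.Monic := hmon.2
  -- the action
  have hact : ∀ t t', ∃ σ : Om a b ≃+* Om a b, (∀ p : K[X], σ (kO a b p) = kO a b p) ∧
      σ (θ t) = θ t' := by
    have key : ∀ s s', ∃ σ : Om a b ≃+* Om a b, (∀ p : K[X], σ (kO a b p) = kO a b p) ∧
        σ (θ (Sum.inl s)) = θ (Sum.inl s') := by
      intro s s'
      obtain ⟨σ, h1, h2⟩ := htra s s'
      refine ⟨σ, fun p => h1 _, ?_⟩
      show σ (thv a b e lam μ w (yO a b) s) = thv a b e lam μ w (yO a b) s'
      unfold thv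
      have h3 : ∀ z : K, σ (cO a b z) = cO a b z := fun z => h1 (algebraMap K[X] (QA K a b) (C z))
      have h4 : σ (yO a b) = yO a b := h1 _
      simp only [map_add, map_mul, map_sum, h3, h4, h2]
    have hαt : ∀ s, α (θ (Sum.inl s)) = θ (Sum.inr s) := by
      intro s
      show α (thv a b e lam μ w (yO a b) s) = thv a b e lam μ (fun i j => α (w i j)) (-yO a b) s
      unfold thv
      simp only [map_add, map_mul, map_sum, hα2, hα3]
    have hαs : ∀ s, α.symm (θ (Sum.inr s)) = θ (Sum.inl s) := by
      intro s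
      rw [← hαt, RingEquiv.symm_apply_apply]
    have hα1' : ∀ p : K[X], α.symm (kO a b p) = kO a b p := by
      intro p
      conv_lhs => rw [← hα1 p]
      rw [RingEquiv.symm_apply_apply]
    intro t t'
    rcases t with s | s <;> rcases t' with s' | s'
    · exact key s s'
    · obtain ⟨σ, h1, h2⟩ := key s s'
      refine ⟨σ.trans α, fun p => ?_, ?_⟩
      · rw [RingEquiv.trans_apply, h1, hα1]
      · rw [RingEquiv.trans_apply, h2, hαt]
    · obtain ⟨σ, h1, h2⟩ := key s s'
      refine ⟨α.symm.trans σ, fun p => ?_, ?_⟩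
      · rw [RingEquiv.trans_apply, hα1', h1]
      · rw [RingEquiv.trans_apply, hαs, h2]
    · obtain ⟨σ, h1, h2⟩ := key s s'
      refine ⟨(α.symm.trans σ).trans α, fun p => ?_, ?_⟩
      · rw [RingEquiv.trans_apply, RingEquiv.trans_apply, hα1', h1, hα1]
      · rw [RingEquiv.trans_apply, RingEquiv.trans_apply, hαs, h2, hαt]
  -- irreducibility
  rw [hΘm.irreducible_iff_natDegree']
  have hroot : ∀ u v : K[X][X], u * v = Θ → u.Monic → 0 < u.natDegree → ∃ t, (u.map (kO a b)).eval (θ t) = 0 := by
    intro u v huv hu hu0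
    have h1 : 0 < (u.map (kO a b)).degree := by
      rw [hu.degree_map]
      exact natDegree_pos_iff_degree_pos.1 hu0
    obtain ⟨r, hr⟩ := IsAlgClosed.exists_root _ h1.ne'
    rw [IsRoot.def] at hr
    have h2 : (Θ.map (kO a b)).eval r = 0 := by
      rw [← huv, Polynomial.map_mul, eval_mul, hr, zero_mul]
    rw [hfac, eval_prod, Finset.prod_eq_zero_iff] at h2
    obtain ⟨t, _, ht⟩ := h2
    rw [eval_sub, eval_X, eval_C, sub_eq_zero] at ht
    exact ⟨t, by rw [← ht]; exact hr⟩
  constructor
  · intro h1
    have h2 := congrArg (fun P => (P.map (kO a b)).eval (θ (Sum.inl hne.some))) h1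
    simp only [Polynomial.map_one, eval_one] at h2
    rw [hfac, eval_prod, Finset.prod_eq_zero (Finset.mem_univ (Sum.inl hne.some))] at h2
    · exact zero_ne_one h2
    · simp
  · intro u v hu hv huv hdeg
    rw [Finset.mem_Ioc] at hdeg
    have hd : u.natDegree + v.natDegree = Θ.natDegree := by rw [← hu.natDegree_mul hv, huv]
    obtain ⟨t, ht⟩ := hroot u v huv hu (by omega)
    obtain ⟨t', ht'⟩ := hroot v u (by rw [mul_comm]; exact huv) hv hdeg.1
    obtain ⟨σ, h1, h2⟩ := hact t t'
    have h3 : (u.map (kO a b)).eval (θ t') = 0 := by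
      rw [← h2]
      have h4 := congrArg σ ht
      rw [map_zero, eval_map, ← RingEquiv.coe_toRingHom, Polynomial.hom_eval₂] at h4
      rw [eval_map]
      have h5 : (σ : Om a b →+* Om a b).comp (kO a b) = kO a b := RingHom.ext h1
      rw [h5] at h4
      exact h4
    rw [← huv, Polynomial.map_mul] at hsep
    have h6 := hsep.isCoprime
    obtain ⟨A, B, hAB⟩ := h6
    have h7 := congrArg (fun P => P.eval (θ t')) hAB
    simp only [eval_add, eval_mul, h3, ht', mul_zero, add_zero, eval_one] at h7
    exact zero_ne_one h7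

/-- automorphisms permute the roots -/
theorem perm_roots {L : Type} [Field L] {n : ℕ} (c w w' : Fin n → L) (hw : pol c = ∏ j, (X - C (w j)))
    (σ : L ≃+* L) (hw' : pol (fun k => σ (c k)) = ∏ j, (X - C (w' j))) (j : Fin n) :
    ∃ j', σ (w j) = w' j' := by
  have h1 : (pol (fun k => σ (c k))).eval (σ (w j)) = 0 := by
    have h2 : pol (fun k => σ (c k)) = (pol c).map (σ : L →+* L) := by
      rw [pol_map]
      rfl
    rw [h2, hw, Polynomial.map_prod, eval_prod, Finset.prod_eq_zero (Finset.mem_univ j)]
    simp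
  rw [hw', eval_prod, Finset.prod_eq_zero_iff] at h1
  obtain ⟨j', _, h2⟩ := h1
  rw [eval_sub, eval_X, eval_C, sub_eq_zero] at h2
  exact ⟨j', h2⟩

/-- **Irreducibility implies transitivity.** -/
theorem tra_of_irr (e : Fin m → ℕ) (lam : ∀ i, Fin (e i) → K) (μ : K)
    (c : Fin m → Fin n → QA K a b) (w : Fin m → Fin n → Om a b)
    (hw : ∀ i, pol (fun k => jO a b (c i k)) = ∏ j, (X - C (w i j)))
    (hsep : ((Th a b m e lam μ c).map (kO a b)).Separable)
    (hirr : Irreducible (Th a b m e lam μ c)) (hmon : (Th a b m e lam μ c).Monic) (s s' : IX n e) :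
    ∃ σ : Om a b ≃+* Om a b, (∀ z : QA K a b, σ (jO a b z) = jO a b z) ∧
      ∀ i j, σ (w i (s i j)) = w i (s' i j) := by
  classical
  obtain ⟨α, hα⟩ := exists_alpha a b
  obtain ⟨hα1, hα2, hα3⟩ := alpha_c a b α hα
  set Θ := Th a b m e lam μ c with hΘ
  set θ : IX n e ⊕ IX n e → Om a b := Sum.elim (thv a b e lam μ w (yO a b))
        (thv a b e lam μ (fun i j => α (w i j)) (-yO a b)) with hθ
  have hfac : Θ.map (kO a b) = ∏ t, (X - C (θ t)) := th_fact a b e lam μ c w hw α hα
  rw [hfac, separable_prod_X_sub_C_iff] at hsep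
  -- the automorphism
  have hirr' : Irreducible (Θ.map (algebraMap K[X] (FractionRing K[X]))) :=
    hmon.irreducible_iff_irreducible_map_fraction_map.1 hirr
  have hmon' : (Θ.map (algebraMap K[X] (FractionRing K[X]))).Monic := hmon.map _
  have hroot : ∀ t, aeval (θ t) (Θ.map (algebraMap K[X] (FractionRing K[X]))) = 0 := by
    intro t
    rw [aeval_def, eval₂_map]
    have h1 : (algebraMap (FractionRing K[X]) (Om a b)).comp (algebraMap K[X] (FractionRing K[X])) =
        kO a b := RingHom.ext fun p => algKx a b p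
    rw [h1, ← eval_map, hfac, eval_prod, Finset.prod_eq_zero (Finset.mem_univ t)]
    simp
  have hmin : ∀ t, minpoly (FractionRing K[X]) (θ t) = Θ.map (algebraMap K[X] (FractionRing K[X])) :=
    fun t => (minpoly.eq_of_irreducible_of_monic hirr' (hroot t) hmon').symm
  have hconj : IsConjRoot (FractionRing K[X]) (θ (Sum.inl s')) (θ (Sum.inl s)) := by
    unfold IsConjRoot
    rw [hmin, hmin]
  obtain ⟨σ, hσ⟩ := hconj.exists_algEquiv
  have hσk : ∀ p : K[X], σ (kO a b p) = kO a b p := by
    intro p
    rw [← algKx]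
    exact σ.commutes _
  have hσc : ∀ z : K, σ (cO a b z) = cO a b z := fun z => hσk (C z)
  have hσx : σ (xO a b) = xO a b := hσk X
  have hσy : σ (yO a b) = yO a b ∨ σ (yO a b) = - yO a b := by
    rw [← sq_eq_sq_iff_eq_or_eq_neg, ← map_pow, eqn_O]
    simp only [map_add, map_mul, map_pow, hσc, hσx]
  have hwα : ∀ i, pol (fun k => evQ (cO a b) a b (xO a b) (-yO a b) (eqn_O' a b) (c i k)) =
      ∏ j, (X - C (α (w i j))) := by
    intro i
    have h1 := congrArg (fun P => P.map (α : Om a b →+* Om a b)) (hw i)
    simp only [pol_map, Polynomial.map_prod, Polynomial.map_sub, map_X, map_C] at h1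
    have h2 : (fun k => (α : Om a b →+* Om a b) (jO a b (c i k))) =
        fun k => evQ (cO a b) a b (xO a b) (-yO a b) (eqn_O' a b) (c i k) := by
      funext k
      exact hα _
    rw [h2] at h1
    exact h1
  -- the roots occurring in a tuple are distinct
  have hinj : ∀ i, Function.Injective (fun j => w i (s i j)) := by
    intro i j j' hjj
    by_contra hne
    set s'' : IX n e := Function.update s i ((Equiv.swap j j').toEmbedding.trans (s i)) with hs''
    have h1 : θ (Sum.inl s'') = θ (Sum.inl s) := by
      show thv a b e lam μ w (yO a b) s'' = thv a b e lam μ w (yO a b) s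
      unfold thv
      congr 1
      refine Finset.sum_congr rfl fun i' _ => Finset.sum_congr rfl fun k _ => ?_
      congr 1
      by_cases hi : i' = i
      · subst hi
        rw [hs'', Function.update_self]
        show w i' (s i' (Equiv.swap j j' k)) = w i' (s i' k)
        by_cases hk : k = j
        · subst hk
          rw [Equiv.swap_apply_left]
          exact hjj.symm
        · by_cases hk' : k = j'
          · subst hk'
            rw [Equiv.swap_apply_right]
            exact hjj
          · rw [Equiv.swap_apply_of_ne_of_ne hk hk']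
      · rw [hs'', Function.update_of_ne hi]
    have h2 := Sum.inl_injective (hsep h1)
    have h3 := DFunLike.congr_fun (congrFun h2 i) j
    rw [hs'', Function.update_self] at h3
    have h4 : s i (Equiv.swap j j' j) = s i j := h3
    rw [Equiv.swap_apply_left] at h4
    exact hne ((s i).injective h4).symm
  rcases hσy with hy | hy
  · have hσj : ∀ z : QA K a b, σ (jO a b z) = jO a b z := by
      intro z
      rw [QA_decomp a b z]
      have h1 : ∀ p : K[X], jO a b (algebraMap K[X] (QA K a b) p) = kO a b p := fun _ => rfl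
      have h2 : jO a b (qy K a b) = yO a b := rfl
      rw [map_add, map_mul, h1, h1, h2, map_add, map_mul, hσk, hσk, hy]
    choose g hg using fun i (j : Fin (e i)) => perm_roots (fun k => jO a b (c i k)) (w i) (w i)
      (hw i) (σ : Om a b ≃+* Om a b) (by
        have h1 : (fun k => (σ : Om a b ≃+* Om a b) (jO a b (c i k))) = fun k => jO a b (c i k) := by
          funext k
          exact hσj _
        rw [h1, hw i]) (s i j)
    have hginj : ∀ i, Function.Injective (g i) := by
      intro i j j' h
      apply hinj i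
      apply σ.injective
      have h1 := hg i j
      have h2 := hg i j'
      rw [← h] at h2
      exact h1.trans h2.symm
    set s3 : IX n e := fun i => ⟨g i, hginj i⟩ with hs3
    have h1 : θ (Sum.inl s3) = θ (Sum.inl s') := by
      rw [← hσ]
      show thv a b e lam μ w (yO a b) s3 = σ (thv a b e lam μ w (yO a b) s)
      unfold thv
      simp only [map_add, map_mul, map_sum, hσc, hy]
      congr 1
      refine Finset.sum_congr rfl fun i _ => Finset.sum_congr rfl fun j _ => ?_
      congr 1
      exact (hg i j).symm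
    have h2 := Sum.inl_injective (hsep h1)
    refine ⟨(σ : Om a b ≃+* Om a b), hσj, fun i j => ?_⟩
    rw [← h2]
    exact hg i j
  · exfalso
    have hσj : ∀ z : QA K a b, σ (jO a b z) =
        evQ (cO a b) a b (xO a b) (-yO a b) (eqn_O' a b) z := by
      intro z
      conv_lhs => rw [QA_decomp a b z]
      have h1 : ∀ p : K[X], jO a b (algebraMap K[X] (QA K a b) p) = kO a b p := fun _ => rfl
      have h2 : jO a b (qy K a b) = yO a b := rfl
      rw [map_add, map_mul, h1, h1, h2, map_add, map_mul, hσk, hσk, hy, evQ_apply, kO_eq]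
      rfl
    choose g hg using fun i (j : Fin (e i)) => perm_roots (fun k => jO a b (c i k)) (w i)
      (fun j => α (w i j)) (hw i) (σ : Om a b ≃+* Om a b) (by
        have h1 : (fun k => (σ : Om a b ≃+* Om a b) (jO a b (c i k))) = fun k =>
            evQ (cO a b) a b (xO a b) (-yO a b) (eqn_O' a b) (c i k) := by
          funext k
          exact hσj _
        rw [h1, hwα i]) (s i j)
    have hginj : ∀ i, Function.Injective (g i) := by
      intro i j j' h
      apply hinj i
      apply σ.injective
      have h1 := hg i j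
      have h2 := hg i j'
      rw [← h] at h2
      exact h1.trans h2.symm
    set s3 : IX n e := fun i => ⟨g i, hginj i⟩ with hs3
    have h1 : θ (Sum.inr s3) = θ (Sum.inl s') := by
      rw [← hσ]
      show thv a b e lam μ (fun i j => α (w i j)) (-yO a b) s3 = σ (thv a b e lam μ w (yO a b) s)
      unfold thv
      simp only [map_add, map_mul, map_sum, hσc, hy]
      congr 1
      refine Finset.sum_congr rfl fun i _ => Finset.sum_congr rfl fun j _ => ?_
      congr 1
      exact (hg i j).symm
    have h2 := hsep h1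
    cases h2

end

end Pool.Agent.K9h5.T
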