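import Mathlib
import Pool.Agent.K9h5.T.Irr

/-!
# Linear forms which separate the tuples
-/

set_option autoImplicit false
set_option linter.all false

namespace Pool.Agent.K9h5.T

open Polynomial Pool.Agent.K9h5 Pool.Agent.H901R3.MS

section

variable {m : ℕ}

/-- the number of a variable -/
noncomputable def idx (e : Fin m → ℕ) (v : Σ i, Fin (e i)) : ℕ :=
  (Fintype.equivFin (Σ i, Fin (e i)) v : ℕ) + 1

theorem idx_inj (e : Fin m → ℕ) : Function.Injective (idx e) := by
  intro u v h
  unfold idx at h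
  apply (Fintype.equivFin (Σ i, Fin (e i))).injective
  apply Fin.ext
  omega

theorem idx_pos (e : Fin m → ℕ) (v : Σ i, Fin (e i)) : 0 < idx e v := Nat.succ_pos _

theorem idx_le (e : Fin m → ℕ) (v : Σ i, Fin (e i)) : idx e v ≤ Fintype.card (Σ i, Fin (e i)) :=
  (Fintype.equivFin (Σ i, Fin (e i)) v).2

/-- the coefficients of the linear form -/
noncomputable def lamt {S : Type} [CommRing S] (e : Fin m → ℕ) (t : S) : ∀ i, Fin (e i) → S :=
  fun i j => t ^ idx e ⟨i, j⟩

theorem lamt_map {S T : Type} [CommRing S] [CommRing T] (φ : S →+* T) (e : Fin m → ℕ) (t : S) :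
    (fun i j => φ (lamt e t i j)) = lamt e (φ t) := by
  funext i j
  show φ (t ^ _) = (φ t) ^ _
  exact map_pow φ t _

/-- the values -/
noncomputable def vt {L : Type} [Field L] {n : ℕ} (e : Fin m → ℕ) (w : Fin m → Fin n → L) (y t : L)
    (s : IX n e) : L := y + ∑ i, ∑ j, lamt e t i j * w i (s i j)

/-- the values as polynomials in `t` -/
noncomputable def vP {L : Type} [Field L] {n : ℕ} (e : Fin m → ℕ) (w : Fin m → Fin n → L) (y : L)
    (s : IX n e) : L[X] := C y + ∑ v : Σ i, Fin (e i), C (w v.1 (s v.1 v.2)) * X ^ idx e v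

theorem vP_eval {L : Type} [Field L] {n : ℕ} (e : Fin m → ℕ) (w : Fin m → Fin n → L) (y t : L)
    (s : IX n e) : (vP e w y s).eval t = vt e w y t s := by
  unfold vP vt lamt
  rw [eval_add, eval_C, eval_finset_sum, Fintype.sum_sigma]
  congr 1
  refine Finset.sum_congr rfl fun i _ => Finset.sum_congr rfl fun j _ => ?_
  rw [eval_mul, eval_C, eval_pow, eval_X, mul_comm]

theorem vP_coeff {L : Type} [Field L] {n : ℕ} (e : Fin m → ℕ) (w : Fin m → Fin n → L) (y : L)
    (s : IX n e) (v : Σ i, Fin (e i)) : (vP e w y s).coeff (idx e v) = w v.1 (s v.1 v.2) := by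
  unfold vP
  rw [coeff_add, coeff_C, if_neg (idx_pos e v).ne', zero_add, finset_sum_coeff,
    Finset.sum_eq_single v]
  · rw [coeff_C_mul, coeff_X_pow, if_pos rfl, mul_one]
  · intro v' _ hv'
    rw [coeff_C_mul, coeff_X_pow, if_neg, mul_zero]
    intro h
    exact hv' (idx_inj e h.symm)
  · intro h; exact absurd (Finset.mem_univ _) h

theorem vP_coeff_zero {L : Type} [Field L] {n : ℕ} (e : Fin m → ℕ) (w : Fin m → Fin n → L) (y : L)
    (s : IX n e) : (vP e w y s).coeff 0 = y := by
  unfold vP
  rw [coeff_add, coeff_C, if_pos rfl, finset_sum_coeff, Finset.sum_eq_zero, add_zero]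
  intro v _
  rw [coeff_C_mul, coeff_X_pow, if_neg (idx_pos e v).ne, mul_zero]

theorem vP_natDegree {L : Type} [Field L] {n : ℕ} (e : Fin m → ℕ) (w : Fin m → Fin n → L) (y : L)
    (s : IX n e) : (vP e w y s).natDegree ≤ Fintype.card (Σ i, Fin (e i)) := by
  unfold vP
  refine (natDegree_add_le _ _).trans (max_le (by simp) ?_)
  apply natDegree_sum_le_of_forall_le
  intro v _
  exact (natDegree_C_mul_X_pow_le _ _).trans (idx_le e v)

/-- **Linear forms which separate the tuples.** -/
theorem exists_sep {L : Type} [Field L] {n : ℕ} (e : Fin m → ℕ) (w w' : Fin m → Fin n → L)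
    (hw : ∀ i, Function.Injective (w i)) (hw' : ∀ i, Function.Injective (w' i)) (y y' : L)
    (hy : y ≠ y') : ∃ Bad : Finset L,
      Bad.card ≤ (2 * Fintype.card (IX n e)) ^ 2 * Fintype.card (Σ i, Fin (e i)) ∧
      ∀ t ∉ Bad, Function.Injective (Sum.elim (vt e w y t) (vt e w' y' t)) := by
  classical
  set P : IX n e ⊕ IX n e → L[X] := Sum.elim (vP e w y) (vP e w' y') with hP
  have hne : ∀ u v, u ≠ v → P u ≠ P v := by
    have key : ∀ (w : Fin m → Fin n → L) (hw : ∀ i, Function.Injective (w i)) (y : L)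
        (s s' : IX n e), vP e w y s = vP e w y s' → s = s' := by
      intro w hw y s s' h
      funext i
      apply DFunLike.ext
      intro j
      apply hw i
      have h1 := congrArg (fun q => q.coeff (idx e ⟨i, j⟩)) h
      simp only [vP_coeff] at h1
      exact h1
    intro u v huv h
    apply huv
    rcases u with s | s <;> rcases v with s' | s'
    · exact congrArg Sum.inl (key w hw y s s' h)
    · exfalso
      apply hy
      have h1 := congrArg (fun q => q.coeff 0) h
      simp only [hP, Sum.elim_inl, Sum.elim_inr, vP_coeff_zero] at h1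
      exact h1
    · exfalso
      apply hy
      have h1 := congrArg (fun q => q.coeff 0) h
      simp only [hP, Sum.elim_inl, Sum.elim_inr, vP_coeff_zero] at h1
      exact h1.symm
    · exact congrArg Sum.inr (key w' hw' y' s s' h)
  refine ⟨(Finset.univ : Finset ((IX n e ⊕ IX n e) × (IX n e ⊕ IX n e))).biUnion
    (fun z => (P z.1 - P z.2).roots.toFinset), ?_, ?_⟩
  · refine (Finset.card_biUnion_le_card_mul _ _ (Fintype.card (Σ i, Fin (e i))) ?_).trans ?_
    · intro z _
      refine (Multiset.toFinset_card_le _).trans ((card_roots' _).trans ?_)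
      refine (natDegree_sub_le _ _).trans (max_le ?_ ?_)
      · rcases z.1 with s | s
        · exact vP_natDegree e w y s
        · exact vP_natDegree e w' y' s
      · rcases z.2 with s | s
        · exact vP_natDegree e w y s
        · exact vP_natDegree e w' y' s
    · apply Nat.mul_le_mul_right
      rw [Finset.card_univ, Fintype.card_prod, Fintype.card_sum, sq, two_mul]
  · intro t ht u v huv
    by_contra hne'
    apply ht
    rw [Finset.mem_biUnion]
    refine ⟨(u, v), Finset.mem_univ _, ?_⟩
    rw [Multiset.mem_toFinset, mem_roots (sub_ne_zero.2 (hne u v hne')), IsRoot.def, eval_sub,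
      sub_eq_zero]
    have h1 : ∀ u, (P u).eval t = Sum.elim (vt e w y t) (vt e w' y' t) u := by
      intro u
      rcases u with s | s
      · exact vP_eval e w y t s
      · exact vP_eval e w' y' t s
    rw [h1, h1]
    exact huv

end

/-! ### the universal curve -/

section

variable (m n D : ℕ)

/-- the variables of the universal ring -/
abbrev IdxU : Type := Fin 3 ⊕ (Fin m × Fin n × Bool × Fin (D + 1))

/-- the universal ring -/
abbrev UU : Type := MvPolynomial (IdxU m n D) ℤ

noncomputable def aU : UU m n D := MvPolynomial.X (Sum.inl 0)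
noncomputable def bU : UU m n D := MvPolynomial.X (Sum.inl 1)
noncomputable def tU : UU m n D := MvPolynomial.X (Sum.inl 2)
noncomputable def cU (i : Fin m) (k : Fin n) : QA (UU m n D) (aU m n D) (bU m n D) :=
  ⟨∑ l : Fin (D + 1), C (MvPolynomial.X (Sum.inr (i, k, true, l))) * X ^ (l : ℕ),
    ∑ l : Fin (D + 1), C (MvPolynomial.X (Sum.inr (i, k, false, l))) * X ^ (l : ℕ)⟩

/-- the universal curve -/
noncomputable def ThU (e : Fin m → ℕ) : (UU m n D)[X][X] :=
  Th (aU m n D) (bU m n D) m e (lamt e (tU m n D)) 1 (cU m n D)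

/-- specializations of the universal curve -/
theorem ThU_spec (e : Fin m → ℕ) {S : Type} [CommRing S] (a b t : S) (c : Fin m → Fin n → QA S a b)
    (hc : ∀ i k, degQ (c i k) D) : ∃ φ : UU m n D →+* S,
      (ThU m n D e).map (mapRingHom φ) = Th a b m e (lamt e t) 1 c := by
  let φ : UU m n D →+* S := MvPolynomial.eval₂Hom (Int.castRingHom S)
    (Sum.elim ![a, b, t] (fun v => if v.2.2.1 then (c v.1 v.2.1).re.coeff v.2.2.2
      else (c v.1 v.2.1).im.coeff v.2.2.2))
  have ha : φ (aU m n D) = a := MvPolynomial.eval₂_X _ _ _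
  have hb : φ (bU m n D) = b := MvPolynomial.eval₂_X _ _ _
  have ht : φ (tU m n D) = t := MvPolynomial.eval₂_X _ _ _
  refine ⟨φ, ?_⟩
  unfold ThU
  rw [Th_map φ _ _ a b ha hb, lamt_map, ht, map_one]
  congr 1
  funext i k
  have h1 : ∀ l : Fin (D + 1), φ (MvPolynomial.X (Sum.inr (i, k, true, l))) =
      (c i k).re.coeff l := fun l => MvPolynomial.eval₂_X _ _ _
  have h2 : ∀ l : Fin (D + 1), φ (MvPolynomial.X (Sum.inr (i, k, false, l))) =
      (c i k).im.coeff l := fun l => MvPolynomial.eval₂_X _ _ _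
  ext1
  · rw [mapQ_re]
    simp only [cU, Polynomial.map_sum, Polynomial.map_mul, map_C, Polynomial.map_pow, map_X, h1]
    conv_rhs => rw [(c i k).re.as_sum_range_C_mul_X_pow' (Nat.lt_succ_of_le (hc i k).1)]
    rw [Finset.sum_range]
  · rw [mapQ_im]
    simp only [cU, Polynomial.map_sum, Polynomial.map_mul, map_C, Polynomial.map_pow, map_X, h2]
    conv_rhs => rw [(c i k).im.as_sum_range_C_mul_X_pow' (Nat.lt_succ_of_le (hc i k).2)]
    rw [Finset.sum_range]

/-- the degrees -/
theorem Th_bounds (e : Fin m → ℕ) : ∃ d δ : ℕ, ∀ {S : Type} [CommRing S] (a b t : S)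
    (c : Fin m → Fin n → QA S a b), (∀ i k, degQ (c i k) D) → ∀ N : ℕ, N = 2 * Fintype.card (IX n e) →
      (∀ i, ((Th a b m e (lamt e t) 1 c).coeff i).natDegree ≤ d) ∧
      (resultant (Th a b m e (lamt e t) 1 c) (derivative (Th a b m e (lamt e t) 1 c)) N (N - 1)).natDegree ≤
        δ := by
  refine ⟨(Bivariate.swap (ThU m n D e)).natDegree, (resultant (ThU m n D e)
    (derivative (ThU m n D e)) (2 * Fintype.card (IX n e)) (2 * Fintype.card (IX n e) - 1)).natDegree, ?_⟩
  intro S _ a b t c hc N hN
  obtain ⟨φ, hφ⟩ := ThU_spec m n D e a b t c hc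
  constructor
  · intro i
    rw [← hφ, coeff_map, coe_mapRingHom]
    exact natDegree_map_le.trans (natDegree_coeff_le _ i)
  · rw [← hφ, derivative_map, resultant_map_map, hN, coe_mapRingHom]
    exact natDegree_map_le

end

end Pool.Agent.K9h5.T
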