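import Mathlib
import Pool.Agent.K9h5.T.Dst

/-!
# The fibres of the curve of tuples over a finite field
-/

set_option autoImplicit false
set_option linter.all false

namespace Pool.Agent.K9h5.T

open Polynomial Finset Pool.Agent.K9h5

section

variable {F : Type} [Field F] [Fintype F] {K : Type} [Field K] [Algebra F K]

theorem pow_card_iff (z : K) : z ^ Fintype.card F = z ↔ ∃ u : F, algebraMap F K u = z := by
  classical
  constructor
  · intro hz
    by_contra hc
    push Not at hc
    have h1 : (X ^ Fintype.card F - X : K[X]) = 0 := by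
      apply Polynomial.eq_zero_of_natDegree_lt_card_of_eval_eq_zero' _
        (insert z (univ.image (algebraMap F K)))
      · intro u hu
        rw [mem_insert, mem_image] at hu
        rcases hu with rfl | ⟨v, _, rfl⟩
        · rw [eval_sub, eval_pow, eval_X, hz, sub_self]
        · rw [eval_sub, eval_pow, eval_X, ← map_pow, FiniteField.pow_card, sub_self]
      · rw [card_insert_of_notMem (by simpa using hc),
          card_image_of_injective _ (algebraMap F K).injective, card_univ,
          FiniteField.X_pow_card_sub_X_natDegree_eq K Fintype.one_lt_card]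
        exact Nat.lt_succ_self _
    exact FiniteField.X_pow_card_sub_X_ne_zero K Fintype.one_lt_card h1
  · rintro ⟨u, rfl⟩
    rw [← map_pow, FiniteField.pow_card]

theorem perm_roots' {L : Type} [Field L] {n : ℕ} (c w w' : Fin n → L)
    (hw : pol c = ∏ j, (X - C (w j)))
    (σ : L →+* L) (hw' : pol (fun k => σ (c k)) = ∏ j, (X - C (w' j))) (j : Fin n) :
    ∃ j', σ (w j) = w' j' := by
  have h1 : (pol (fun k => σ (c k))).eval (σ (w j)) = 0 := by
    rw [← pol_map, hw, Polynomial.map_prod, eval_prod, Finset.prod_eq_zero (Finset.mem_univ j)]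
    simp
  rw [hw', eval_prod, Finset.prod_eq_zero_iff] at h1
  obtain ⟨j', _, h2⟩ := h1
  rw [eval_sub, eval_X, eval_C, sub_eq_zero] at h2
  exact ⟨j', h2⟩

theorem vt_map {L : Type} [Field L] {m n : ℕ} (e : Fin m → ℕ) (w : Fin m → Fin n → L) (y t : L)
    (σ : L →+* L) (s : IX n e) :
    σ (vt e w y t s) = vt e (fun i j => σ (w i j)) (σ y) (σ t) s := by
  unfold vt lamt
  rw [map_add, map_sum]
  congr 1
  refine Finset.sum_congr rfl fun i _ => ?_
  rw [map_sum]
  refine Finset.sum_congr rfl fun j _ => ?_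
  rw [map_mul, map_pow]

/-- the roots are distinct if the tuples are separated -/
theorem w_inj {L : Type} [Field L] {m n : ℕ} (e : Fin m → ℕ) (w : Fin m → Fin n → L) (y t : L)
    (hinj : Function.Injective (vt e w y t)) (hne : Nonempty (IX n e)) (i : Fin m)
    (hi : 1 ≤ e i) : Function.Injective (w i) := by
  classical
  intro j j' hjj
  by_contra hne'
  obtain ⟨s⟩ := hne
  set s1 : IX n e := Function.update s i
    ((s i).trans (Equiv.swap (s i ⟨0, hi⟩) j).toEmbedding) with hs1
  have h1 : s1 i ⟨0, hi⟩ = j := by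
    rw [hs1, Function.update_self]
    show Equiv.swap (s i ⟨0, hi⟩) j (s i ⟨0, hi⟩) = j
    rw [Equiv.swap_apply_left]
  set s2 : IX n e := Function.update s1 i ((s1 i).trans (Equiv.swap j j').toEmbedding) with hs2
  have h2 : s2 i ⟨0, hi⟩ = j' := by
    rw [hs2, Function.update_self]
    show Equiv.swap j j' (s1 i ⟨0, hi⟩) = j'
    rw [h1, Equiv.swap_apply_left]
  have h3 : vt e w y t s2 = vt e w y t s1 := by
    unfold vt
    congr 1
    refine Finset.sum_congr rfl fun i' _ => Finset.sum_congr rfl fun k _ => ?_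
    congr 1
    by_cases hi' : i' = i
    · subst hi'
      rw [hs2, Function.update_self]
      show w i' (Equiv.swap j j' (s1 i' k)) = w i' (s1 i' k)
      by_cases hk : s1 i' k = j
      · rw [hk, Equiv.swap_apply_left]
        exact hjj.symm
      · by_cases hk' : s1 i' k = j'
        · rw [hk', Equiv.swap_apply_right]
          exact hjj
        · rw [Equiv.swap_apply_of_ne_of_ne hk hk']
    · rw [hs2, Function.update_of_ne hi']
  have h4 := hinj h3
  rw [h4, h1] at h2
  exact hne' h2

/-- the permutations of the roots -/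
theorem exists_perm {L : Type} [Field L] {m n : ℕ} (e : Fin m → ℕ) (c : Fin m → Fin n → L)
    (w w' : Fin m → Fin n → L) (hw : ∀ i, pol (c i) = ∏ j, (X - C (w i j)))
    (σ : L →+* L) (hw' : ∀ i, pol (fun k => σ (c i k)) = ∏ j, (X - C (w' i j)))
    (hinj : ∀ i, 1 ≤ e i → Function.Injective (w i)) :
    ∃ π : ∀ i, Fin n ↪ Fin n, ∀ i, 1 ≤ e i → ∀ j, σ (w i j) = w' i (π i j) := by
  have h1 : ∀ i, ∃ π : Fin n ↪ Fin n, 1 ≤ e i → ∀ j, σ (w i j) = w' i (π j) := by
    intro i
    by_cases hi : 1 ≤ e i
    · choose g hg using perm_roots' (c i) (w i) (w' i) (hw i) σ (hw' i)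
      refine ⟨⟨g, ?_⟩, fun _ => hg⟩
      intro j j' h
      apply hinj i hi
      apply σ.injective
      rw [hg, hg, h]
    · exact ⟨Function.Embedding.refl _, fun h => absurd h hi⟩
  choose π hπ using h1
  exact ⟨π, hπ⟩

theorem vt_perm {L : Type} [Field L] {m n : ℕ} (e : Fin m → ℕ) (w w' : Fin m → Fin n → L) (y t : L)
    (σ : L →+* L) (π : ∀ i, Fin n ↪ Fin n) (hπ : ∀ i, 1 ≤ e i → ∀ j, σ (w i j) = w' i (π i j))
    (s : IX n e) :
    σ (vt e w y t s) = vt e w' (σ y) (σ t) (fun i => (s i).trans (π i)) := by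
  rw [vt_map]
  unfold vt
  congr 1
  refine Finset.sum_congr rfl fun i _ => Finset.sum_congr rfl fun j _ => ?_
  congr 1
  exact hπ i (by have := j.2; omega) (s i j)

/-- number of tuples in given subsets -/
theorem card_tuples {m n : ℕ} (e : Fin m → ℕ) (R : Fin m → Finset (Fin n)) [DecidablePred
    (fun s : IX n e => ∀ i j, s i j ∈ R i)] :
    (univ.filter (fun s : IX n e => ∀ i j, s i j ∈ R i)).card =
      ∏ i, ((R i).card).descFactorial (e i) := by
  classical
  rw [← Fintype.card_subtype]
  have h1 : Fintype.card (∀ i, (Fin (e i) ↪ (R i : Finset (Fin n)))) =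
      ∏ i, ((R i).card).descFactorial (e i) := by
    rw [Fintype.card_pi]
    refine Finset.prod_congr rfl fun i _ => ?_
    rw [Fintype.card_embedding_eq, Fintype.card_fin, Fintype.card_coe]
  rw [← h1]
  apply Fintype.card_congr
  refine ⟨fun s i => ⟨fun j => ⟨s.1 i j, s.2 i j⟩, ?_⟩, fun s => ⟨fun i => ⟨fun j => s i j, ?_⟩, ?_⟩,
    ?_, ?_⟩
  · intro j j' h
    exact (s.1 i).injective (congrArg Subtype.val h)
  · intro j j' h
    exact (s i).injective (Subtype.ext h)
  · intro i j
    exact (s i j).2
  · intro s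
    rfl
  · intro s
    rfl

/-- the number of roots -/
noncomputable def nr {F : Type} [Field F] (P : F[X]) : ℕ := Nat.card {z : F // P.eval z = 0}

theorem nr_le {F : Type} [Field F] [Finite F] (P : F[X]) (hP : P ≠ 0) : nr P ≤ P.natDegree := by
  classical
  haveI : Fintype F := Fintype.ofFinite F
  unfold nr
  rw [Nat.card_eq_fintype_card, Fintype.card_subtype]
  exact roots_card_le P hP

/-- roots over the big field -/
theorem nr_eq {n : ℕ} (c : Fin n → F) (w : Fin n → K)
    (hw : pol (fun k => algebraMap F K (c k)) = ∏ j, (X - C (w j))) (hinj : Function.Injective w)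
    [DecidablePred (fun j => (w j) ^ Fintype.card F = w j)] :
    nr (pol c) = (univ.filter (fun j => (w j) ^ Fintype.card F = w j)).card := by
  classical
  unfold nr
  rw [← Fintype.card_subtype, ← Nat.card_eq_fintype_card]
  symm
  have key : ∀ z : F, (pol c).eval z = 0 ↔ ∃ j, w j = algebraMap F K z := by
    intro z
    have h1 : (pol (fun k => algebraMap F K (c k))).eval (algebraMap F K z) =
        algebraMap F K ((pol c).eval z) := by
      rw [← pol_map, eval_map, eval₂_at_apply]
    rw [hw, eval_prod] at h1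
    constructor
    · intro hz
      rw [hz, map_zero, Finset.prod_eq_zero_iff] at h1
      obtain ⟨j, _, h2⟩ := h1
      rw [eval_sub, eval_X, eval_C, sub_eq_zero] at h2
      exact ⟨j, h2.symm⟩
    · rintro ⟨j, hj⟩
      rw [Finset.prod_eq_zero (Finset.mem_univ j) (by rw [eval_sub, eval_X, eval_C, hj, sub_self])] at h1
      exact (algebraMap F K).injective (by rw [← h1, map_zero])
  have hex : ∀ j : {j // (w j) ^ Fintype.card F = w j}, ∃ u : F, algebraMap F K u = w j :=
    fun j => (pow_card_iff (w j)).1 j.2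
  choose g hg using hex
  apply Nat.card_congr
  apply Equiv.ofBijective (fun j => (⟨g j, (key _).2 ⟨j, (hg j).symm⟩⟩ : {z : F // (pol c).eval z = 0}))
  constructor
  · intro j j' h
    have h1 := congrArg Subtype.val h
    simp only at h1
    apply Subtype.ext
    apply hinj
    rw [← hg j, ← hg j', h1]
  · rintro ⟨z, hz⟩
    obtain ⟨j, hj⟩ := (key z).1 hz
    refine ⟨⟨j, (pow_card_iff (w j)).2 ⟨z, hj.symm⟩⟩, ?_⟩
    apply Subtype.ext
    apply (algebraMap F K).injective
    show algebraMap F K (g _) = algebraMap F K z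
    rw [hg, hj]

/-- **One half of the fibre, split case.** -/
theorem half_count {m n : ℕ} (e : Fin m → ℕ) (c : Fin m → Fin n → F) (w : Fin m → Fin n → K)
    (y t : F) (hw : ∀ i, pol (fun k => algebraMap F K (c i k)) = ∏ j, (X - C (w i j)))
    (hinj : Function.Injective (vt e w (algebraMap F K y) (algebraMap F K t)))
    (hne : Nonempty (IX n e))
    [DecidablePred (fun s : IX n e => (vt e w (algebraMap F K y) (algebraMap F K t) s) ^
      Fintype.card F = vt e w (algebraMap F K y) (algebraMap F K t) s)] :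
    (univ.filter (fun s : IX n e => (vt e w (algebraMap F K y) (algebraMap F K t) s) ^
      Fintype.card F = vt e w (algebraMap F K y) (algebraMap F K t) s)).card =
        ∏ i, (nr (pol (c i))).descFactorial (e i) := by
  classical
  have hwi := w_inj e w _ _ hinj hne
  set σ : K →+* K := (FiniteField.frobeniusAlgHom F K : K →+* K) with hσ
  have hσa : ∀ z : K, σ z = z ^ Fintype.card F := fun z => rfl
  have hσF : ∀ u : F, σ (algebraMap F K u) = algebraMap F K u := fun u =>
    (FiniteField.frobeniusAlgHom F K).commutes u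
  obtain ⟨π, hπ⟩ := exists_perm e (fun i k => algebraMap F K (c i k)) w w hw σ (by
    intro i
    simp only [hσF]
    exact hw i) hwi
  have h1 : ∀ s : IX n e, ((vt e w (algebraMap F K y) (algebraMap F K t) s) ^
      Fintype.card F = vt e w (algebraMap F K y) (algebraMap F K t) s) ↔
      ∀ i j, s i j ∈ univ.filter (fun j => (w i j) ^ Fintype.card F = w i j) := by
    intro s
    rw [← hσa, vt_perm e w w _ _ σ π hπ s, hσF, hσF, hinj.eq_iff]
    constructor
    · intro h i j
      rw [mem_filter]
      refine ⟨mem_univ _, ?_⟩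
      rw [← hσa, hπ i (by have := j.2; omega)]
      have h2 : π i (s i j) = s i j := DFunLike.congr_fun (congrFun h i) j
      rw [h2]
    · intro h
      funext i
      apply DFunLike.ext
      intro j
      have h2 := (mem_filter.1 (h i j)).2
      rw [← hσa, hπ i (by have := j.2; omega)] at h2
      exact hwi i (by have := j.2; omega) h2
  rw [filter_congr (fun s _ => h1 s)]
  rw [card_tuples e (fun i => univ.filter (fun j => (w i j) ^ Fintype.card F = w i j))]
  refine Finset.prod_congr rfl fun i _ => ?_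
  rcases Nat.eq_zero_or_pos (e i) with hi | hi
  · rw [hi, Nat.descFactorial_zero, Nat.descFactorial_zero]
  · rw [nr_eq (c i) (w i) (hw i) (hwi i hi)]

/-- **The non-split case.** -/
theorem flip_count {m n : ℕ} (e : Fin m → ℕ) (c c' : Fin m → Fin n → K) (w w' : Fin m → Fin n → K)
    (y t : K) (σ : K →+* K) (hσy : σ y = -y) (hσt : σ t = t)
    (hw : ∀ i, pol (c i) = ∏ j, (X - C (w i j)))
    (hw' : ∀ i, pol (fun k => σ (c i k)) = ∏ j, (X - C (w' i j)))
    (hinj : Function.Injective (Sum.elim (vt e w y t) (vt e w' (-y) t)))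
    (hne : Nonempty (IX n e)) (s : IX n e) : σ (vt e w y t s) ≠ vt e w y t s := by
  have hinj1 : Function.Injective (vt e w y t) := fun s s' h =>
    Sum.inl_injective (hinj (show Sum.elim (vt e w y t) (vt e w' (-y) t) (Sum.inl s) =
      Sum.elim (vt e w y t) (vt e w' (-y) t) (Sum.inl s') from h))
  obtain ⟨π, hπ⟩ := exists_perm e c w w' hw σ hw' (w_inj e w _ _ hinj1 hne)
  rw [vt_perm e w w' _ _ σ π hπ s, hσy, hσt]
  intro h
  have h2 := hinj (show Sum.elim (vt e w y t) (vt e w' (-y) t) (Sum.inr _) =
      Sum.elim (vt e w y t) (vt e w' (-y) t) (Sum.inl s) from h)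
  cases h2

end

section

/-- the value of a function -/
noncomputable def vv {S : Type} [CommRing S] {a b : S} (z : QA S a b) (x y : S) : S :=
  z.re.eval x + z.im.eval x * y

theorem evQ_vv {S K : Type} [CommRing S] [CommRing K] (ι : S →+* K) (a b : S) (x y : S)
    (h : (ι y) ^ 2 = (ι x) ^ 3 + ι a * (ι x) + ι b) (z : QA S a b) :
    evQ ι a b (ι x) (ι y) h z = ι (vv z x y) := by
  rw [evQ_apply, vv, map_add, map_mul, eval₂_at_apply, eval₂_at_apply]

variable {F : Type} [Field F] [Fintype F] [DecidableEq F]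

/-- **The fibre.** -/
theorem fib {m n : ℕ} (e : Fin m → ℕ) (a b t : F) (c : Fin m → Fin n → QA F a b) (x0 : F)
    (hx : ((Th a b m e (lamt e t) 1 c).map (evalRingHom x0)).Separable)
    (hne : Nonempty (IX n e)) (h2 : (2 : F) ≠ 0) :
    (univ.filter (fun T : F => evalEval x0 T (Th a b m e (lamt e t) 1 c) = 0)).card =
      ∑ y ∈ univ.filter (fun y : F => y ^ 2 = x0 ^ 3 + a * x0 + b),
        ∏ i, (nr (pol (fun k => vv (c i k) x0 y))).descFactorial (e i) := by
  classical
  set K := AlgebraicClosure F with hK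
  set ι : F →+* K := algebraMap F K with hι
  set q := Fintype.card F with hq
  obtain ⟨y, hy⟩ := IsAlgClosed.exists_pow_nat_eq (ι (x0 ^ 3 + a * x0 + b)) (n := 2) (by norm_num)
  have hy1 : y ^ 2 = (ι x0) ^ 3 + ι a * (ι x0) + ι b := by
    rw [hy]; simp only [map_add, map_mul, map_pow]
  have hy2 : (-y) ^ 2 = (ι x0) ^ 3 + ι a * (ι x0) + ι b := by rw [neg_sq, hy1]
  have hroots : ∀ P : K[X], P.Monic → P.natDegree = n → ∃ w : Fin n → K, P = ∏ j, (X - C (w j)) := by
    intro P hP hn
    have h1 := (IsAlgClosed.splits P).eq_prod_roots_of_monic hP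
    have h2 : P.roots.card = n := by
      rw [← hn]
      exact (IsAlgClosed.splits P).natDegree_eq_card_roots.symm
    obtain ⟨l, hl⟩ := Quot.exists_rep P.roots
    have hl' : l.length = n := by rw [← h2, ← hl]; rfl
    refine ⟨fun j => l.get (j.cast hl'.symm), ?_⟩
    have h3 : (Multiset.map (fun a => X - C a) P.roots).prod = (l.map (fun a => X - C a)).prod := by
      rw [← hl]
      rfl
    rw [h3] at h1
    conv_lhs => rw [h1]
    rw [← List.prod_ofFn]
    congr 1
    apply List.ext_getElem
    · simp [hl']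
    · intro i h1 h2
      simp
  choose w hw using fun i => hroots (pol (fun k => evQ ι a b (ι x0) y hy1 (c i k))) (pol_monic _)
    (pol_natDegree _)
  choose w' hw' using fun i => hroots (pol (fun k => evQ ι a b (ι x0) (-y) hy2 (c i k)))
    (pol_monic _) (pol_natDegree _)
  have hev := Th_eval a b ι (ι x0) y hy1 hy2 m e (lamt e t) 1 c w w' hw hw'
  have hv1 : ∀ s, ι 1 * y + ∑ i, ∑ j, ι (lamt e t i j) * w i (s i j) = vt e w y (ι t) s := by
    intro s
    rw [map_one, one_mul]
    unfold vt lamt
    simp only [map_pow]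
  have hv2 : ∀ s, ι 1 * (-y) + ∑ i, ∑ j, ι (lamt e t i j) * w' i (s i j) =
      vt e w' (-y) (ι t) s := by
    intro s
    rw [map_one, one_mul]
    unfold vt lamt
    simp only [map_pow]
  simp only [hv1, hv2] at hev
  set Θ := Th a b m e (lamt e t) 1 c with hΘ
  have hev2 : ((Θ.map (evalRingHom x0)).map ι) =
      ∏ u : IX n e ⊕ IX n e, (X - C (Sum.elim (vt e w y (ι t)) (vt e w' (-y) (ι t)) u)) := by
    rw [Fintype.prod_sum_type]
    refine Eq.trans ?_ hev
    rw [Polynomial.map_map]
    congr 1
    refine RingHom.ext fun p => ?_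
    rw [RingHom.comp_apply, coe_evalRingHom, coe_eval₂RingHom, eval₂_at_apply]
  have hinj : Function.Injective (Sum.elim (vt e w y (ι t)) (vt e w' (-y) (ι t))) := by
    have h1 := hx.map (f := ι)
    rw [hev2, separable_prod_X_sub_C_iff] at h1
    exact h1
  have hinj1 : Function.Injective (vt e w y (ι t)) := fun s s' h =>
    Sum.inl_injective (hinj (show Sum.elim (vt e w y (ι t)) (vt e w' (-y) (ι t)) (Sum.inl s) =
      Sum.elim (vt e w y (ι t)) (vt e w' (-y) (ι t)) (Sum.inl s') from h))
  have hinj2 : Function.Injective (vt e w' (-y) (ι t)) := fun s s' h =>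
    Sum.inr_injective (hinj (show Sum.elim (vt e w y (ι t)) (vt e w' (-y) (ι t)) (Sum.inr s) =
      Sum.elim (vt e w y (ι t)) (vt e w' (-y) (ι t)) (Sum.inr s') from h))
  -- the rational roots
  have hcount : (univ.filter (fun T : F => evalEval x0 T Θ = 0)).card =
      (univ.filter (fun s : IX n e => (vt e w y (ι t) s) ^ q = vt e w y (ι t) s)).card +
      (univ.filter (fun s : IX n e => (vt e w' (-y) (ι t) s) ^ q = vt e w' (-y) (ι t) s)).card := by
    have key : ∀ T : F, evalEval x0 T Θ = 0 ↔
        ∃ u, Sum.elim (vt e w y (ι t)) (vt e w' (-y) (ι t)) u = ι T := by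
      intro T
      have h1 : ((Θ.map (evalRingHom x0)).map ι).eval (ι T) = ι (evalEval x0 T Θ) := by
        rw [eval_map, eval₂_at_apply, eval_map, eval₂_evalRingHom]
      rw [hev2, eval_prod] at h1
      constructor
      · intro hz
        rw [hz, map_zero, Finset.prod_eq_zero_iff] at h1
        obtain ⟨j, _, h2⟩ := h1
        rw [eval_sub, eval_X, eval_C, sub_eq_zero] at h2
        exact ⟨j, h2.symm⟩
      · rintro ⟨j, hj⟩
        rw [Finset.prod_eq_zero (Finset.mem_univ j)
          (by rw [eval_sub, eval_X, eval_C, hj, sub_self])] at h1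
        exact ι.injective (by rw [← h1, map_zero])
    have h3 : (univ.filter (fun T : F => evalEval x0 T Θ = 0)).card =
        (univ.filter (fun u : IX n e ⊕ IX n e =>
          (Sum.elim (vt e w y (ι t)) (vt e w' (-y) (ι t)) u) ^ q =
            Sum.elim (vt e w y (ι t)) (vt e w' (-y) (ι t)) u)).card := by
      symm
      refine card_bij (fun u hu => ((pow_card_iff (F := F)
        (Sum.elim (vt e w y (ι t)) (vt e w' (-y) (ι t)) u)).1 (mem_filter.1 hu).2).choose) ?_ ?_ ?_
      · intro u hu
        rw [mem_filter]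
        refine ⟨mem_univ _, (key _).2 ⟨u, ?_⟩⟩
        exact ((pow_card_iff (F := F)
          (Sum.elim (vt e w y (ι t)) (vt e w' (-y) (ι t)) u)).1 (mem_filter.1 hu).2).choose_spec.symm
      · intro u hu u' hu' h
        apply hinj
        rw [← ((pow_card_iff (F := F)
          (Sum.elim (vt e w y (ι t)) (vt e w' (-y) (ι t)) u)).1 (mem_filter.1 hu).2).choose_spec,
          ← ((pow_card_iff (F := F)
          (Sum.elim (vt e w y (ι t)) (vt e w' (-y) (ι t)) u')).1 (mem_filter.1 hu').2).choose_spec]
        exact congrArg _ h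
      · intro T hT
        obtain ⟨u, hu⟩ := (key T).1 (mem_filter.1 hT).2
        refine ⟨u, ?_, ?_⟩
        · rw [mem_filter]
          exact ⟨mem_univ _, (pow_card_iff _).2 ⟨T, hu.symm⟩⟩
        · apply ι.injective
          exact Eq.trans ((pow_card_iff (F := F)
            (Sum.elim (vt e w y (ι t)) (vt e w' (-y) (ι t)) u)).1
              ((pow_card_iff _).2 ⟨T, hu.symm⟩)).choose_spec hu
    rw [h3, ← Fintype.card_subtype, ← Fintype.card_subtype, ← Fintype.card_subtype,
      ← Fintype.card_sum]
    apply Fintype.card_congr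
    exact Equiv.subtypeSum
  rw [hcount]
  set σ : K →+* K := (FiniteField.frobeniusAlgHom F K : K →+* K) with hσ
  have hσa : ∀ z : K, σ z = z ^ q := fun z => rfl
  have hσF : ∀ u : F, σ (ι u) = ι u := fun u => (FiniteField.frobeniusAlgHom F K).commutes u
  have hσy : σ y = y ∨ σ y = - y := by
    rw [← sq_eq_sq_iff_eq_or_eq_neg, ← map_pow, hy1]
    simp only [map_add, map_mul, map_pow, hσF]
  have hσev : ∀ (z : QA F a b) (y' y'' : K) (h : y' ^ 2 = (ι x0) ^ 3 + ι a * (ι x0) + ι b)
      (h' : y'' ^ 2 = (ι x0) ^ 3 + ι a * (ι x0) + ι b), σ y' = y'' →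
      σ (evQ ι a b (ι x0) y' h z) = evQ ι a b (ι x0) y'' h' z := by
    intro z y' y'' h h' hyy
    rw [evQ_apply, evQ_apply, eval₂_at_apply, eval₂_at_apply, map_add, map_mul, hσF, hσF, hyy]
  by_cases hyF : ∃ y0 : F, ι y0 = y
  · obtain ⟨y0, hy0⟩ := hyF
    subst hy0
    have hsq : y0 ^ 2 = x0 ^ 3 + a * x0 + b := by
      apply ι.injective
      rw [← hy, map_pow]
    have hy0 : y0 ≠ 0 := by
      rintro rfl
      obtain ⟨s⟩ := hne
      have e1 : ∀ i, ∃ π : Fin n ↪ Fin n, 1 ≤ e i → ∀ j, w i j = w' i (π j) := by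
        obtain ⟨π, hπ⟩ := exists_perm e (fun i k => evQ ι a b (ι x0) (ι 0) hy1 (c i k)) w w' hw
          (RingHom.id K) (by
            intro i
            rw [← hw' i]
            have : (-(ι 0) : K) = ι 0 := by rw [map_zero, neg_zero]
            simp only [RingHom.id_apply, this]) (w_inj e w _ _ hinj1 ⟨s⟩)
        intro i
        exact ⟨π i, fun hi => hπ i hi⟩
      choose π hπ using e1
      have h3 := vt_perm e w w' (ι 0) (ι t) (RingHom.id K) π (fun i hi => hπ i hi) s
      simp only [RingHom.id_apply] at h3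
      have h4 := hinj (show Sum.elim (vt e w (ι 0) (ι t)) (vt e w' (-ι 0) (ι t)) (Sum.inl s) =
        Sum.elim (vt e w (ι 0) (ι t)) (vt e w' (-ι 0) (ι t)) (Sum.inr _) from (by
          rw [Sum.elim_inl, Sum.elim_inr, h3, map_zero, neg_zero]))
      cases h4
    have hfil : univ.filter (fun y : F => y ^ 2 = x0 ^ 3 + a * x0 + b) = {y0, -y0} := by
      ext y
      rw [mem_filter, mem_insert, mem_singleton, ← hsq, sq_eq_sq_iff_eq_or_eq_neg]
      simp
    have hne0 : y0 ≠ -y0 := by
      intro h
      have h5 : 2 * y0 = 0 := by linear_combination h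
      rcases mul_eq_zero.1 h5 with h6 | h6
      · exact h2 h6
      · exact hy0 h6
    rw [hfil, sum_pair hne0]
    have hcw : ∀ i, pol (fun k => ι (vv (c i k) x0 y0)) = ∏ j, (X - C (w i j)) := by
      intro i
      rw [← hw i]
      simp only [evQ_vv]
    have hcw' : ∀ i, pol (fun k => ι (vv (c i k) x0 (-y0))) = ∏ j, (X - C (w' i j)) := by
      intro i
      rw [← hw' i]
      congr 1
      funext k
      rw [evQ_apply, vv, map_add, map_mul, eval₂_at_apply, eval₂_at_apply, map_neg]
    have hmn : (-ι y0) = ι (-y0) := (map_neg ι y0).symm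
    simp only [hmn] at hinj2 ⊢
    congr 1
    · exact half_count e (fun i k => vv (c i k) x0 y0) w y0 t hcw hinj1 hne
    · exact half_count e (fun i k => vv (c i k) x0 (-y0)) w' (-y0) t hcw' hinj2 hne
  · have hσy' : σ y = -y := by
      rcases hσy with h | h
      · exact absurd ((pow_card_iff (F := F) y).1 h) hyF
      · exact h
    have hfil : univ.filter (fun y : F => y ^ 2 = x0 ^ 3 + a * x0 + b) = ∅ := by
      rw [filter_eq_empty_iff]
      intro y' _ hy'
      apply hyF
      have h3 : (ι y') ^ 2 = y ^ 2 := by rw [hy, ← hy', map_pow]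
      rcases sq_eq_sq_iff_eq_or_eq_neg.1 h3 with h | h
      · exact ⟨y', h⟩
      · exact ⟨-y', by rw [map_neg, h, neg_neg]⟩
    rw [hfil, sum_empty]
    have hσy'' : σ (-y) = y := by rw [map_neg, hσy', neg_neg]
    have e1 : univ.filter (fun s : IX n e => (vt e w y (ι t) s) ^ q = vt e w y (ι t) s) = ∅ := by
      rw [filter_eq_empty_iff]
      intro s _ hs
      refine flip_count e (fun i k => evQ ι a b (ι x0) y hy1 (c i k))
        (fun i k => evQ ι a b (ι x0) y hy1 (c i k)) w w' y (ι t) σ hσy' (hσF t) hw ?_ hinj hne s hs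
      intro i
      rw [← hw' i]
      congr 1
      funext k
      exact hσev _ _ _ _ _ hσy'
    have e2 : univ.filter (fun s : IX n e => (vt e w' (-y) (ι t) s) ^ q =
        vt e w' (-y) (ι t) s) = ∅ := by
      rw [filter_eq_empty_iff]
      intro s _ hs
      refine flip_count e (fun i k => evQ ι a b (ι x0) (-y) hy2 (c i k))
        (fun i k => evQ ι a b (ι x0) (-y) hy2 (c i k)) w' w (-y) (ι t) σ (by rw [hσy'', neg_neg])
          (hσF t) hw' ?_ ?_ hne s hs
      · intro i
        rw [← hw i]
        congr 1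
        funext k
        exact hσev _ _ _ _ _ hσy''
      · rw [neg_neg]
        intro u u' huu
        have h3 : ∀ u, Sum.elim (vt e w' (-y) (ι t)) (vt e w y (ι t)) u =
            Sum.elim (vt e w y (ι t)) (vt e w' (-y) (ι t)) (Sum.swap u) := by
          intro u
          rcases u with u | u <;> rfl
        rw [h3, h3] at huu
        have h4 := congrArg Sum.swap (hinj huu)
        rwa [Sum.swap_swap, Sum.swap_swap] at h4
    rw [e1, e2]
    rfl

end

end Pool.Agent.K9h5.T
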