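import Mathlib
import Pool.Agent.K9h5.T.Fib
import Pool.Agent.R410.PW.Weil

/-!
# The number of tuples of roots over a finite field
-/

set_option autoImplicit false
set_option linter.all false

namespace Pool.Agent.K9h5.T

open Polynomial Finset Pool.Agent.K9h5 Pool.Agent.R410.PW

section

theorem res_right {L : Type} [Field L] (f g : L[X]) (hf : f.Monic) (N M : ℕ) (hN : f.natDegree = N)
    (hM : g.natDegree ≤ M) : resultant f g N M = resultant f g := by
  obtain ⟨k, rfl⟩ : ∃ k, M = g.natDegree + k := ⟨M - g.natDegree, by omega⟩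
  rw [resultant_add_right_deg _ _ _ _ _ le_rfl]
  rw [← hN, hf.coeff_natDegree, one_pow, one_mul]

theorem res_sep {L : Type} [Field L] (f : L[X]) (hf : f.Monic) (N : ℕ) (hN : f.natDegree = N) :
    f.Separable ↔ resultant f (derivative f) N (N - 1) ≠ 0 := by
  rw [res_right f _ hf N (N - 1) hN (by rw [← hN]; exact natDegree_derivative_le f)]
  constructor
  · intro h
    exact resultant_ne_zero _ _ h
  · intro h
    rw [ne_eq, resultant_eq_zero_iff] at h
    push Not at h
    exact h (Or.inl hf.ne_zero)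

/-- the full monodromy condition -/
def FullM {K : Type} [Field K] (a b : K) {m n : ℕ} (c : Fin m → Fin n → QA K a b) : Prop :=
  ∃ w : Fin m → Fin n → Om a b, (∀ i, pol (fun k => jO a b (c i k)) = ∏ j, (X - C (w i j))) ∧
    (∀ i, Function.Injective (w i)) ∧
    ∀ π : Fin m → Equiv.Perm (Fin n), ∃ σ : Om a b ≃+* Om a b,
      (∀ z : QA K a b, σ (jO a b z) = jO a b z) ∧ ∀ i j, σ (w i j) = w i (π i j)

theorem yO_ne {K : Type} [Field K] (a b : K) : yO a b ≠ 0 := by
  unfold yO
  rw [Ne, map_eq_zero_iff _ (jO_inj a b)]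
  intro h
  have h1 := congrArg QuadraticAlgebra.im h
  simp [qy] at h1

theorem exists_ext {n e : ℕ} (s s' : Fin e ↪ Fin n) : ∃ π : Equiv.Perm (Fin n), ∀ j, π (s j) = s' j := by
  haveI := Equiv.Perm.isMultiplyPretransitive (Fin n) e
  obtain ⟨π, hπ⟩ := MulAction.exists_smul_eq (Equiv.Perm (Fin n)) s s'
  refine ⟨π, fun j => ?_⟩
  rw [← hπ]
  rfl

/-- the coefficients over the closure -/
noncomputable def cK {F : Type} (K : Type) [Field F] [Field K] [Algebra F K] {a b : F} {m n : ℕ}
    (c : Fin m → Fin n → QA F a b) :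
    Fin m → Fin n → QA K (algebraMap F K a) (algebraMap F K b) := fun i k =>
  mapQ (algebraMap F K) a b (algebraMap F K a) (algebraMap F K b) rfl rfl (c i k)

theorem exists_roots {K : Type} [Field K] [IsAlgClosed K] {n : ℕ} (P : K[X]) (hP : P.Monic)
    (hn : P.natDegree = n) : ∃ w : Fin n → K, P = ∏ j, (X - C (w j)) := by
  have h1 := (IsAlgClosed.splits P).eq_prod_roots_of_monic hP
  have h2 : P.roots.card = n := by
    rw [← hn]
    exact (IsAlgClosed.splits P).natDegree_eq_card_roots.symm
  obtain ⟨l, hl⟩ := Quot.exists_rep P.roots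
  have hl' : l.length = n := by rw [← h2, ← hl]; rfl
  refine ⟨fun j => l.get (j.cast hl'.symm), ?_⟩
  have h3 : (Multiset.map (fun a => X - C a) P.roots).prod = (l.map (fun a => X - C a)).prod := by
    rw [← hl]
    rfl
  rw [h3] at h1
  conv_lhs => rw [h1]
  rw [← List.prod_ofFn]
  congr 1
  apply List.ext_getElem
  · simp [hl']
  · intro i h1 h2
    simp

/-- the factorization over the algebraic closure -/
theorem th_fact_t {K : Type} [Field K] (a b : K) {m n : ℕ} (e : Fin m → ℕ) (t : K)
    (c : Fin m → Fin n → QA K a b) (w : Fin m → Fin n → Om a b)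
    (hw : ∀ i, pol (fun k => jO a b (c i k)) = ∏ j, (X - C (w i j)))
    (α : Om a b ≃+* Om a b)
    (hα : ∀ z : QA K a b, α (jO a b z) = evQ (cO a b) a b (xO a b) (-yO a b) (eqn_O' a b) z) :
    (Th a b m e (lamt e t) 1 c).map (kO a b) = ∏ u : IX n e ⊕ IX n e,
      (X - C (Sum.elim (vt e w (yO a b) (cO a b t))
        (vt e (fun i j => α (w i j)) (-yO a b) (cO a b t)) u)) := by
  rw [th_fact a b e (lamt e t) 1 c w hw α hα]
  refine Finset.prod_congr rfl fun u _ => ?_
  have h1 : ∀ (w : Fin m → Fin n → Om a b) (y : Om a b) (s : IX n e),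
      thv a b e (lamt e t) 1 w y s = vt e w y (cO a b t) s := by
    intro w y s
    unfold thv vt
    rw [map_one, one_mul]
    congr 1
    refine Finset.sum_congr rfl fun i _ => Finset.sum_congr rfl fun j _ => ?_
    rw [← lamt_map]
  rcases u with s | s
  · rw [Sum.elim_inl, Sum.elim_inl, h1]
  · rw [Sum.elim_inr, Sum.elim_inr, h1]

/-- the curve of tuples is monic -/
theorem Th_monic {S K : Type} [CommRing S] [Field K] (ι : S →+* K) (hι : Function.Injective ι)
    (a b t : S) {m n : ℕ} (e : Fin m → ℕ) (c : Fin m → Fin n → QA S a b) :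
    (Th a b m e (lamt e t) 1 c).Monic ∧
      (Th a b m e (lamt e t) 1 c).natDegree = 2 * Fintype.card (IX n e) := by
  classical
  set c' : Fin m → Fin n → QA K (ι a) (ι b) := fun i k => mapQ ι a b (ι a) (ι b) rfl rfl (c i k)
  have h1 : (Th a b m e (lamt e t) 1 c).map (mapRingHom ι) =
      Th (ι a) (ι b) m e (lamt e (ι t)) 1 c' := by
    rw [Th_map ι a b (ι a) (ι b) rfl rfl, lamt_map, map_one]
  have hinj : Function.Injective (mapRingHom ι) := Polynomial.map_injective ι hι
  obtain ⟨α, hα⟩ := exists_alpha (ι a) (ι b)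
  choose w hw using fun i => exists_roots (pol (fun k => jO (ι a) (ι b) (c' i k))) (pol_monic _)
    (pol_natDegree _)
  have h2 := th_fact_t (ι a) (ι b) e (ι t) c' w hw α hα
  rw [← h1, Polynomial.map_map] at h2
  have hinj2 : Function.Injective ((kO (ι a) (ι b)).comp (mapRingHom ι)) :=
    (kO_inj (ι a) (ι b)).comp hinj
  constructor
  · apply hinj2.monic_map_iff.2
    rw [h2]
    exact monic_prod_of_monic _ _ fun s _ => monic_X_sub_C _
  · rw [← natDegree_map_eq_of_injective hinj2, h2, natDegree_finset_prod_X_sub_C_eq_card]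
    rw [card_univ, Fintype.card_sum, two_mul]

/-- **Existence of a good parameter.** -/
theorem exists_t {F : Type} [Field F] {K : Type} [Field K] (ι : F →+* K) (h2 : (2 : K) ≠ 0)
    (a b : K) {m n : ℕ} (e : Fin m → ℕ) (c : Fin m → Fin n → QA K a b)
    (w : Fin m → Fin n → Om a b)
    (hw : ∀ i, pol (fun k => jO a b (c i k)) = ∏ j, (X - C (w i j)))
    (hwi : ∀ i, Function.Injective (w i)) (T : Finset F)
    (hT : (2 * Fintype.card (IX n e)) ^ 2 * Fintype.card (Σ i, Fin (e i)) < T.card) :
    ∃ t ∈ T, ((Th a b m e (lamt e (ι t)) 1 c).map (kO a b)).Separable := by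
  classical
  obtain ⟨α, hα⟩ := exists_alpha a b
  have hyy : yO a b ≠ -yO a b := by
    intro h
    have h5 : cO a b 2 * yO a b = 0 := by
      rw [map_ofNat]
      linear_combination h
    rcases mul_eq_zero.1 h5 with h6 | h6
    · rw [map_ofNat] at h6
      apply h2
      apply (cO a b).injective
      rw [map_ofNat, map_zero, h6]
    · exact yO_ne a b h6
  obtain ⟨Bad, hB, hBad⟩ := exists_sep e w (fun i j => α (w i j)) hwi
    (fun i j j' h => hwi i (α.injective h)) (yO a b) (-yO a b) hyy
  have hinj : Function.Injective (fun t : F => cO a b (ι t)) :=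
    (cO a b).injective.comp ι.injective
  obtain ⟨t, ht, htB⟩ : ∃ t ∈ T, cO a b (ι t) ∉ Bad := by
    by_contra hc
    push Not at hc
    have h3 : (T.image (fun t : F => cO a b (ι t))).card ≤ Bad.card := by
      apply card_le_card
      intro z hz
      obtain ⟨t, ht, rfl⟩ := mem_image.1 hz
      exact hc t ht
    rw [card_image_of_injective _ hinj] at h3
    omega
  refine ⟨t, ht, ?_⟩
  rw [th_fact_t a b e (ι t) c w hw α hα, separable_prod_X_sub_C_iff]
  exact hBad _ htB

theorem tra_of_full {K : Type} [Field K] (a b : K) {m n : ℕ} (e : Fin m → ℕ)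
    (w : Fin m → Fin n → Om a b)
    (hfull : ∀ π : Fin m → Equiv.Perm (Fin n), ∃ σ : Om a b ≃+* Om a b,
      (∀ z : QA K a b, σ (jO a b z) = jO a b z) ∧ ∀ i j, σ (w i j) = w i (π i j)) (s s' : IX n e) :
    ∃ σ : Om a b ≃+* Om a b, (∀ z : QA K a b, σ (jO a b z) = jO a b z) ∧
      ∀ i j, σ (w i (s i j)) = w i (s' i j) := by
  choose π hπ using fun i => exists_ext (s i) (s' i)
  obtain ⟨σ, h1, h2⟩ := hfull π
  refine ⟨σ, h1, fun i j => ?_⟩
  rw [h2, hπ]

end

section

variable {F : Type} [Field F] [Fintype F] [DecidableEq F]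

theorem descF_le {k n e : ℕ} (h : k ≤ n) : k.descFactorial e ≤ n ^ e :=
  (Nat.descFactorial_le_pow k e).trans (Nat.pow_le_pow_left h e)

/-- the sum over the points -/
noncomputable def TS {m n : ℕ} (e : Fin m → ℕ) (a b : F) (c : Fin m → Fin n → QA F a b) : ℕ :=
  ∑ z ∈ Sf (fE a b), ∏ i, (nr (pol (fun k => vv (c i k) z.1 z.2))).descFactorial (e i)

theorem term_le {m n : ℕ} (e : Fin m → ℕ) (a b : F) (c : Fin m → Fin n → QA F a b) (x y : F) :
    ∏ i, (nr (pol (fun k => vv (c i k) x y))).descFactorial (e i) ≤ ∏ i, n ^ (e i) := by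
  apply Finset.prod_le_prod'
  intro i _
  apply descF_le
  refine (nr_le _ (pol_monic _).ne_zero).trans ?_
  rw [pol_natDegree]

theorem TS_le {m n : ℕ} (e : Fin m → ℕ) (a b : F) (c : Fin m → Fin n → QA F a b) :
    TS e a b c ≤ 2 * Fintype.card F * ∏ i, n ^ (e i) := by
  unfold TS
  refine (sum_le_card_nsmul _ _ _ (fun z _ => term_le e a b c z.1 z.2)).trans ?_
  rw [smul_eq_mul]
  apply Nat.mul_le_mul_right
  have h1 := fib_card (Sf (fE a b)) univ 2 (by
    intro x
    refine (card_le_card ?_).trans (sq_card_le ((fE a b).eval x))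
    intro y hy
    simp only [Sf, mem_filter, mem_univ, true_and] at hy ⊢
    exact hy)
  rw [filter_true_of_mem (fun _ _ => mem_univ _), card_univ] at h1
  exact h1

/-- comparison of the two counts -/
theorem TS_compare {m n : ℕ} (e : Fin m → ℕ) (a b t : F) (c : Fin m → Fin n → QA F a b)
    (h2 : (2 : F) ≠ 0) (hne : Nonempty (IX n e)) (hN : (Th a b m e (lamt e t) 1 c).Monic)
    (N : ℕ) (hN' : (Th a b m e (lamt e t) 1 c).natDegree = N) (δ : ℕ)
    (hD : resultant (Th a b m e (lamt e t) 1 c) (derivative (Th a b m e (lamt e t) 1 c)) N (N - 1) ≠ 0)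
    (hδ : (resultant (Th a b m e (lamt e t) 1 c)
      (derivative (Th a b m e (lamt e t) 1 c)) N (N - 1)).natDegree ≤ δ) :
    |((univ.filter (fun z : F × F => evalEval z.1 z.2 (Th a b m e (lamt e t) 1 c) = 0)).card : ℝ) -
      TS e a b c| ≤ δ * (N + 2 * ∏ i, (n : ℝ) ^ (e i)) := by
  classical
  set Θ := Th a b m e (lamt e t) 1 c with hΘ
  set D := resultant Θ (derivative Θ) N (N - 1) with hDdef
  have hrhs : (univ.filter (fun z : F × F => evalEval z.1 z.2 Θ = 0)).card =
      ∑ x : F, (univ.filter (fun T : F => evalEval x T Θ = 0)).card := by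
    rw [card_eq_sum_card_fiberwise (f := fun z : F × F => z.1) (t := univ) (fun _ _ => mem_coe.2 (mem_univ _))]
    refine sum_congr rfl fun x _ => ?_
    refine card_bij (fun z _ => z.2) ?_ ?_ ?_
    · intro z hz
      simp only [mem_filter, mem_univ, true_and] at hz ⊢
      rw [← hz.2]; exact hz.1
    · intro z hz z' hz' h
      simp only [mem_filter, mem_univ, true_and] at hz hz'
      exact Prod.ext (hz.2.trans hz'.2.symm) h
    · intro T hT
      simp only [mem_filter, mem_univ, true_and] at hT
      exact ⟨(x, T), by simp only [mem_filter, mem_univ, true_and, and_true]; exact hT, rfl⟩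
  have hlhs : TS e a b c = ∑ x : F, ∑ y ∈ univ.filter (fun y : F => y ^ 2 = x ^ 3 + a * x + b),
      ∏ i, (nr (pol (fun k => vv (c i k) x y))).descFactorial (e i) := by
    unfold TS
    rw [← sum_fiberwise_of_maps_to (s := Sf (fE a b)) (t := univ) (g := fun z => z.1)
      (fun _ _ => mem_univ _)]
    refine sum_congr rfl fun x _ => ?_
    refine sum_bij (fun z _ => z.2) ?_ ?_ ?_ ?_
    · intro z hz
      simp only [Sf, mem_filter, mem_univ, true_and] at hz ⊢
      rw [← hz.2, hz.1, fE_eval]
    · intro z hz z' hz' h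
      simp only [mem_filter] at hz hz'
      exact Prod.ext (hz.2.trans hz'.2.symm) h
    · intro y hy
      simp only [mem_filter, mem_univ, true_and] at hy
      exact ⟨(x, y), by simp only [Sf, mem_filter, mem_univ, true_and, and_true]; rw [fE_eval]; exact hy, rfl⟩
    · intro z hz
      simp only [mem_filter] at hz
      rw [← hz.2]
  rw [hrhs, hlhs]
  push_cast
  rw [← sum_sub_distrib]
  refine (abs_sum_le_sum_abs _ _).trans ?_
  have hpt : ∀ x : F, |((univ.filter (fun T : F => evalEval x T Θ = 0)).card : ℝ) -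
      ∑ y ∈ univ.filter (fun y : F => y ^ 2 = x ^ 3 + a * x + b),
      ∏ i, ((nr (pol (fun k => vv (c i k) x y))).descFactorial (e i) : ℝ)| ≤
      if D.eval x = 0 then (N + 2 * ∏ i, (n : ℝ) ^ (e i)) else 0 := by
    intro x
    by_cases hx : D.eval x = 0
    · rw [if_pos hx]
      have h3 : ((univ.filter (fun T : F => evalEval x T Θ = 0)).card : ℝ) ≤ N := by
        have hm : (Θ.map (evalRingHom x)).Monic := hN.map _
        have h4 := roots_card_le _ hm.ne_zero
        rw [hN.natDegree_map, hN'] at h4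
        refine le_trans (Nat.cast_le.2 (card_le_card ?_)) (Nat.cast_le.2 h4)
        intro w hw
        simp only [mem_filter, mem_univ, true_and] at hw ⊢
        rw [← hw, ← eval₂_evalRingHom, eval_map]
      have h5 : (∑ y ∈ univ.filter (fun y : F => y ^ 2 = x ^ 3 + a * x + b),
          ∏ i, ((nr (pol (fun k => vv (c i k) x y))).descFactorial (e i) : ℝ)) ≤
          2 * ∏ i, (n : ℝ) ^ (e i) := by
        have h6 : ∀ y ∈ univ.filter (fun y : F => y ^ 2 = x ^ 3 + a * x + b),
            ∏ i, ((nr (pol (fun k => vv (c i k) x y))).descFactorial (e i) : ℝ) ≤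
              ∏ i, (n : ℝ) ^ (e i) := by
          intro y _
          exact_mod_cast term_le e a b c x y
        refine (sum_le_card_nsmul _ _ _ h6).trans ?_
        rw [nsmul_eq_mul]
        apply mul_le_mul_of_nonneg_right
        · exact_mod_cast sq_card_le (x ^ 3 + a * x + b)
        · positivity
      have h7 : 0 ≤ ∑ y ∈ univ.filter (fun y : F => y ^ 2 = x ^ 3 + a * x + b),
          ∏ i, ((nr (pol (fun k => vv (c i k) x y))).descFactorial (e i) : ℝ) := by positivity
      rw [abs_le]
      constructor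
      · have : (0 : ℝ) ≤ ((univ.filter (fun T : F => evalEval x T Θ = 0)).card : ℝ) := by positivity
        have : (0 : ℝ) ≤ N := by positivity
        linarith
      · have : 0 ≤ 2 * ∏ i, (n : ℝ) ^ (e i) := by positivity
        linarith
    · rw [if_neg hx]
      have hs : (Θ.map (evalRingHom x)).Separable := by
        rw [res_sep _ (hN.map _) N (by rw [hN.natDegree_map, hN']), derivative_map, resultant_map_map,
          coe_evalRingHom]
        exact hx
      have h3 := fib e a b t c x hs hne h2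
      rw [← hΘ] at h3
      rw [h3]
      push_cast
      rw [sub_self, abs_zero]
  refine (sum_le_sum (fun x _ => hpt x)).trans ?_
  rw [← sum_filter, sum_const, nsmul_eq_mul]
  apply mul_le_mul_of_nonneg_right
  · have h3 := roots_card_le D hD
    exact_mod_cast h3.trans hδ
  · positivity

end

section

/-- **The number of tuples.** -/
theorem tower {m n : ℕ} (D : ℕ) (e : Fin m → ℕ) (hne : Nonempty (IX n e)) : ∃ C : ℝ, 0 ≤ C ∧
    ∀ (F : Type) [Field F] [Fintype F] [DecidableEq F], (2 : F) ≠ 0 → ∀ (a b : F)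
      (c : Fin m → Fin n → QA F a b), (∀ i k, degQ (c i k) D) →
      FullM _ _ (cK (AlgebraicClosure F) c) →
      |(TS e a b c : ℝ) - Fintype.card F| ≤ C * √(Fintype.card F : ℝ) := by
  classical
  obtain ⟨d, δ, hdδ⟩ := Th_bounds m n D e
  set N := 2 * Fintype.card (IX n e) with hN
  set B := (2 * Fintype.card (IX n e)) ^ 2 * Fintype.card (Σ i, Fin (e i)) with hB
  set M : ℝ := ∏ i, (n : ℝ) ^ (e i) with hM
  have hM0 : 0 ≤ M := by positivity
  refine ⟨WC N d δ + δ * (N + 2 * M) + (2 * M + 1) * B, by positivity, ?_⟩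
  intro F _ _ _ h2 a b c hc hfull
  set K := AlgebraicClosure F with hK
  set ι : F →+* K := algebraMap F K with hι
  set q := Fintype.card F with hq
  have hq1 : (1 : ℝ) ≤ √(q : ℝ) := by
    rw [Real.one_le_sqrt]
    exact_mod_cast Fintype.card_pos
  by_cases hqB : q ≤ B
  · -- small fields
    have h3 := TS_le e a b c
    have h4 : (TS e a b c : ℝ) ≤ 2 * q * M := by
      have h30 := (Nat.cast_le (α := ℝ)).2 h3
      push_cast at h30
      exact h30
    have h5 : (q : ℝ) ≤ B * √(q : ℝ) := by
      have : (q : ℝ) ≤ B := by exact_mod_cast hqB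
      calc (q : ℝ) ≤ B * 1 := by linarith
        _ ≤ B * √(q : ℝ) := mul_le_mul_of_nonneg_left hq1 (by positivity)
    have h6 : |(TS e a b c : ℝ) - q| ≤ 2 * q * M + q := by
      rw [abs_le]
      constructor
      · have : (0 : ℝ) ≤ TS e a b c := by positivity
        have : (0 : ℝ) ≤ q := by positivity
        nlinarith
      · have : (0 : ℝ) ≤ q := by positivity
        linarith
    refine h6.trans ?_
    have h7 : 2 * q * M + q = (2 * M + 1) * q := by ring
    rw [h7]
    calc (2 * M + 1) * (q : ℝ) ≤ (2 * M + 1) * (B * √(q : ℝ)) :=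
          mul_le_mul_of_nonneg_left h5 (by positivity)
      _ = (2 * M + 1) * B * √(q : ℝ) := by ring
      _ ≤ _ := by
          apply mul_le_mul_of_nonneg_right _ (by positivity)
          have : (0 : ℝ) ≤ (WC N d δ : ℝ) + δ * (N + 2 * M) := by positivity
          linarith
  · push Not at hqB
    obtain ⟨w, hw, hwi, hπ⟩ := hfull
    have h2K : (2 : K) ≠ 0 := by
      intro h
      apply h2
      apply ι.injective
      rw [map_ofNat, map_zero, h]
    obtain ⟨t, -, ht⟩ := exists_t ι h2K _ _ e _ w hw hwi (univ : Finset F) (by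
      rw [card_univ]; exact hqB)
    set Θ := Th a b m e (lamt e t) 1 c with hΘ
    obtain ⟨hmon, hdeg⟩ := Th_monic ι ι.injective a b t e c
    rw [← hΘ] at hmon hdeg
    have hmap : Θ.map (mapRingHom ι) =
        Th (ι a) (ι b) m e (lamt e (ι t)) 1 (cK K c) := by
      rw [hΘ, Th_map ι a b (ι a) (ι b) rfl rfl, lamt_map, map_one]
      rfl
    have hirr : Irreducible (Θ.map (mapRingHom ι)) := by
      rw [hmap]
      exact irr_of_tra (ι a) (ι b) e (lamt e (ι t)) 1 (cK K c) w hw
        (tra_of_full _ _ e w hπ) ht hne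
    set R := resultant Θ (derivative Θ) N (N - 1) with hR
    have hR0 : R ≠ 0 := by
      intro h
      rw [← hmap, Polynomial.map_map, res_sep _ (hmon.map _) N (by rw [hmon.natDegree_map, hdeg]),
        derivative_map, resultant_map_map, ← hR, h, map_zero] at ht
      exact ht rfl
    obtain ⟨P, Q, -, -, hPQ⟩ := exists_mul_add_mul_eq_C_resultant Θ (derivative Θ) (m := N)
      (n := N - 1) (by rw [hdeg]) ((natDegree_derivative_le _).trans (by rw [hdeg]))
      (Or.inl (by
        haveI := hne
        have := Fintype.card_pos (α := IX n e)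
        omega))
    obtain ⟨hb1, hb2⟩ := hdδ a b t c hc N hN
    have h3 := weil K hmon (by
        rw [hdeg]
        haveI := hne
        have := Fintype.card_pos (α := IX n e)
        omega) (A := P) (B := Q) (D := R) (by rw [← hPQ]; ring) hR0 hb2 hb1 hirr
    rw [hdeg, ← hN, Nat.card_eq_fintype_card] at h3
    have h4 : ({z : F × F | evalEval z.1 z.2 Θ = 0}.ncard) =
        (univ.filter (fun z : F × F => evalEval z.1 z.2 Θ = 0)).card := by
      rw [← Set.ncard_coe_finset]
      congr 1
      ext z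
      simp
    rw [h4] at h3
    have h5 := TS_compare e a b t c h2 hne hmon N hdeg δ hR0 hb2
    rw [← hΘ] at h5
    have h6 : |(TS e a b c : ℝ) - q| ≤ δ * (N + 2 * M) + WC N d δ * √(q : ℝ) := by
      rw [abs_sub_comm] at h5
      have h7 := abs_add_le ((TS e a b c : ℝ) -
        ((univ.filter (fun z : F × F => evalEval z.1 z.2 Θ = 0)).card : ℝ))
        (((univ.filter (fun z : F × F => evalEval z.1 z.2 Θ = 0)).card : ℝ) - q)
      have h8 : ((TS e a b c : ℝ) -
        ((univ.filter (fun z : F × F => evalEval z.1 z.2 Θ = 0)).card : ℝ)) +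
        (((univ.filter (fun z : F × F => evalEval z.1 z.2 Θ = 0)).card : ℝ) - q) =
        (TS e a b c : ℝ) - q := by ring
      rw [h8] at h7
      linarith
    refine h6.trans ?_
    have h9 : (δ : ℝ) * (N + 2 * M) ≤ δ * (N + 2 * M) * √(q : ℝ) := by
      have : 0 ≤ (δ : ℝ) * (N + 2 * M) := by positivity
      nlinarith
    have h10 : 0 ≤ (2 * M + 1) * B * √(q : ℝ) := by positivity
    nlinarith

end

end Pool.Agent.K9h5.T
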