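import Mathlib
import Pool.Agent.K9h5.T.Twc
import Pool.Agent.K9h5.T.Grp

/-!
# Independence of several polynomials with full monodromy
-/

set_option autoImplicit false
set_option linter.all false

namespace Pool.Agent.K9h5.T

open Polynomial Finset Pool.Agent.K9h5

section disc

variable {R : Type} [CommRing R]

/-- the square of the Vandermonde determinant -/
theorem prod_diff {n : ℕ} (w : Fin n → R) :
    ∏ j : Fin n, ∏ j' ∈ univ.filter (fun j' => j' ≠ j), (w j - w j') =
      (∏ j : Fin n, ∏ j' ∈ Ioi j, (-1 : R)) * (Matrix.vandermonde w).det ^ 2 := by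
  classical
  have h1 : ∀ j : Fin n, ∏ j' ∈ univ.filter (fun j' => j' ≠ j), (w j - w j') =
      (∏ j' ∈ Ioi j, (w j - w j')) * ∏ j' ∈ Iio j, (w j - w j') := by
    intro j
    rw [← prod_union]
    · apply prod_congr _ (fun _ _ => rfl)
      ext j'
      simp only [mem_filter, mem_univ, true_and, mem_union, mem_Ioi, mem_Iio]
      constructor
      · intro h
        rcases lt_or_gt_of_ne h with h | h
        · exact Or.inr h
        · exact Or.inl h
      · rintro (h | h)
        · exact h.ne'
        · exact h.ne
    · rw [disjoint_left]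
      intro j' h h'
      rw [mem_Ioi] at h
      rw [mem_Iio] at h'
      exact absurd h' (not_lt.2 h.le)
  simp only [h1]
  rw [prod_mul_distrib]
  have h2 : ∏ j : Fin n, ∏ j' ∈ Iio j, (w j - w j') = ∏ j : Fin n, ∏ j' ∈ Ioi j, (w j' - w j) := by
    rw [prod_comm' (t := fun j => Iio j) (s' := fun j' => Ioi j') (t' := univ)]
    intro x y
    simp
  rw [h2, ← prod_mul_distrib, Matrix.det_vandermonde, ← prod_pow, ← prod_mul_distrib]
  refine prod_congr rfl fun j _ => ?_
  rw [← prod_mul_distrib, ← prod_pow, ← prod_mul_distrib]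
  refine prod_congr rfl fun j' _ => ?_
  ring

theorem eps_or {n : ℕ} : (∏ j : Fin n, ∏ j' ∈ Ioi j, (-1 : R)) = 1 ∨
    (∏ j : Fin n, ∏ j' ∈ Ioi j, (-1 : R)) = -1 := by
  have h1 : (∏ j : Fin n, ∏ j' ∈ Ioi j, (-1 : R)) = (-1) ^ (∑ j : Fin n, (Ioi j).card) := by
    rw [← prod_pow_eq_pow_sum]
    refine prod_congr rfl fun j _ => ?_
    rw [prod_const]
  rw [h1]
  exact neg_one_pow_eq_or R _

/-- the resultant of a split polynomial and its derivative -/
theorem res_split {L : Type} [Field L] {n : ℕ} (P : L[X]) (w : Fin n → L)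
    (hw : P = ∏ j, (X - C (w j))) :
    resultant P (derivative P) n (n - 1) =
      (∏ j : Fin n, ∏ j' ∈ Ioi j, (-1 : L)) * (Matrix.vandermonde w).det ^ 2 := by
  classical
  have hdeg : P.natDegree = n := by
    rw [hw, natDegree_finset_prod_X_sub_C_eq_card, card_univ, Fintype.card_fin]
  have hmon : P.Monic := by
    rw [hw]; exact monic_prod_of_monic _ _ fun s _ => monic_X_sub_C _
  have hroots : P.roots = Multiset.map w univ.val := by
    have h1 : P = (Multiset.map (fun a => X - C a) (Multiset.map w univ.val)).prod := by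
      rw [hw, Multiset.map_map]
      rfl
    rw [h1, roots_multiset_prod_X_sub_C]
  have hspl : P.Splits := by
    rw [hw]
    exact Splits.prod fun j _ => Splits.X_sub_C _
  have h1 := resultant_eq_prod_eval P (derivative P) (n - 1)
    ((natDegree_derivative_le _).trans (by rw [hdeg])) hspl
  rw [hdeg, hmon.leadingCoeff, one_pow, one_mul, hroots, Multiset.map_map] at h1
  rw [h1, ← prod_diff]
  have h2 : (Multiset.map ((fun x => eval x (derivative P)) ∘ w) (univ : Finset (Fin n)).val).prod =
      ∏ j, (derivative P).eval (w j) := rfl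
  refine h2.trans ?_
  refine prod_congr rfl fun j _ => ?_
  rw [hw, derivative_prod_finset, eval_finset_sum, sum_eq_single j]
  · rw [derivative_X_sub_C, mul_one, eval_prod]
    have h3 : univ.erase j = univ.filter (fun j' => j' ≠ j) := by
      ext j'
      simp
    rw [h3]
    refine prod_congr rfl fun j' _ => ?_
    rw [eval_sub, eval_X, eval_C]
  · intro i _ hij
    rw [derivative_X_sub_C, mul_one, eval_prod]
    apply prod_eq_zero (mem_erase.2 ⟨hij.symm, mem_univ j⟩)
    rw [eval_sub, eval_X, eval_C, sub_self]
  · intro h; exact absurd (mem_univ _) h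

end disc

section

variable {K : Type} [Field K] (a b : K)

/-- full monodromy of one polynomial -/
def Full1 {n : ℕ} (c : Fin n → QA K a b) : Prop :=
  ∃ w : Fin n → Om a b, pol (fun k => jO a b (c k)) = ∏ j, (X - C (w j)) ∧
    Function.Injective w ∧
    ∀ π : Equiv.Perm (Fin n), ∃ σ : Om a b ≃+* Om a b,
      (∀ z : QA K a b, σ (jO a b z) = jO a b z) ∧ ∀ j, σ (w j) = w (π j)

/-- the group of the monodromies -/
def HG {m n : ℕ} (w : Fin m → Fin n → Om a b) : Subgroup (Fin m → Equiv.Perm (Fin n)) where
  carrier := {π | ∃ σ : Om a b ≃+* Om a b,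
      (∀ z : QA K a b, σ (jO a b z) = jO a b z) ∧ ∀ i j, σ (w i j) = w i (π i j)}
  mul_mem' := by
    rintro π π' ⟨σ, h1, h2⟩ ⟨σ', h1', h2'⟩
    refine ⟨σ'.trans σ, fun z => ?_, fun i j => ?_⟩
    · rw [RingEquiv.trans_apply, h1', h1]
    · rw [RingEquiv.trans_apply, h2', h2]
      rfl
  one_mem' := ⟨RingEquiv.refl _, fun _ => rfl, fun _ _ => rfl⟩
  inv_mem' := by
    rintro π ⟨σ, h1, h2⟩
    refine ⟨σ.symm, fun z => ?_, fun i j => ?_⟩
    · conv_lhs => rw [← h1 z]
      rw [RingEquiv.symm_apply_apply]
    · have h3 := h2 i ((π⁻¹ : Fin m → Equiv.Perm (Fin n)) i j)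
      have h4 : π i ((π⁻¹ : Fin m → Equiv.Perm (Fin n)) i j) = j := by
        rw [Pi.inv_apply]
        exact Equiv.apply_symm_apply (π i) j
      rw [h4] at h3
      rw [← h3, RingEquiv.symm_apply_apply]

/-- an automorphism fixing the coefficients permutes the roots -/
theorem perm_of_aut {n : ℕ} (c : Fin n → QA K a b) (w : Fin n → Om a b)
    (hw : pol (fun k => jO a b (c k)) = ∏ j, (X - C (w j))) (hwi : Function.Injective w)
    (σ : Om a b ≃+* Om a b) (hσ : ∀ z : QA K a b, σ (jO a b z) = jO a b z) :
    ∃ π : Equiv.Perm (Fin n), ∀ j, σ (w j) = w (π j) := by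
  choose g hg using perm_roots' (fun k => jO a b (c k)) w w hw (σ : Om a b →+* Om a b) (by
    have h1 : (fun k => (σ : Om a b →+* Om a b) (jO a b (c k))) = fun k => jO a b (c k) := by
      funext k
      exact hσ _
    rw [h1, hw])
  have hinj : Function.Injective g := by
    intro j j' h
    apply hwi
    apply σ.injective
    have h1 : σ (w j) = w (g j) := hg j
    have h2 : σ (w j') = w (g j') := hg j'
    rw [h1, h2, h]
  refine ⟨Equiv.ofBijective g (Finite.injective_iff_bijective.1 hinj), fun j => ?_⟩
  exact hg j

/-- **Independence.** -/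
theorem full_of (h2 : (2 : K) ≠ 0) {m n : ℕ} (c : Fin m → Fin n → QA K a b)
    (h1 : ∀ i, Full1 a b (c i))
    (hι : ∀ i, ∃ (L0 : Type) (_ : Field L0) (ι : QA K a b →+* L0), Function.Injective ι ∧
      (∀ k, k ≠ i → ∃ v : Fin n → L0, pol (fun k' => ι (c k k')) = ∏ j, (X - C (v j))) ∧
      ∀ δ : L0, δ ^ 2 ≠ ι (resultant (pol (c i)) (derivative (pol (c i))) n (n - 1)) ∧
        δ ^ 2 ≠ - ι (resultant (pol (c i)) (derivative (pol (c i))) n (n - 1))) :
    FullM a b c := by
  classical
  have h2O : (2 : Om a b) ≠ 0 := by
    intro h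
    apply h2
    apply (cO a b).injective
    rw [map_ofNat, map_zero, h]
  choose w hw hwi hπ using h1
  have hH : HG a b w = ⊤ := by
    apply all_of_odd
    · intro i π
      obtain ⟨σ, hσ1, hσ2⟩ := hπ i π
      choose ρ hρ using fun k => perm_of_aut a b (c k) (w k) (hw k) (hwi k) σ hσ1
      refine ⟨Function.update ρ i π, ⟨σ, hσ1, ?_⟩, Function.update_self _ _ _⟩
      intro k j
      by_cases hk : k = i
      · subst hk
        rw [Function.update_self, hσ2]
      · rw [Function.update_of_ne hk, hρ]
    · intro i
      obtain ⟨L0, _, ι, hinj, hspl, hns⟩ := hι i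
      set Λ := AlgebraicClosure L0 with hΛ
      set ρ : FE a b →+* L0 := IsFractionRing.lift hinj with hρ
      have hρa : ∀ z : QA K a b, ρ (algebraMap (QA K a b) (FE a b) z) = ι z := fun z =>
        IsFractionRing.lift_algebraMap hinj z
      haveI : Algebra.IsIntegral (FE a b) (Om a b) := Algebra.IsAlgebraic.isIntegral
      obtain ⟨J, hJ⟩ := ext_hom (A := FE a b) (B := Om a b) ((algebraMap L0 Λ).comp ρ) (by
        intro z hz
        rw [RingHom.mem_ker] at hz ⊢
        have hz0 : z = 0 := (algebraMap (FE a b) (Om a b)).injective (by rw [hz, map_zero])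
        rw [hz0, map_zero])
      have hJz : ∀ z : QA K a b, J (jO a b z) = algebraMap L0 Λ (ι z) := by
        intro z
        show J (algebraMap (FE a b) (Om a b) (algebraMap (QA K a b) (FE a b) z)) = _
        rw [hJ, RingHom.comp_apply, hρa]
      -- the subfield
      set M : IntermediateField (FE a b) (Om a b) := IntermediateField.adjoin (FE a b)
        (Set.range (fun x : {k // k ≠ i} × Fin n => w x.1 x.2)) with hM
      have hMJ : ∀ z ∈ M, ∃ u : L0, J z = algebraMap L0 Λ u := by
        intro z hz
        have hle : M.toSubfield ≤ (algebraMap L0 Λ).fieldRange.comap J := by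
          rw [hM, IntermediateField.adjoin_toSubfield, Subfield.closure_le]
          intro u hu
          rcases hu with ⟨v, rfl⟩ | ⟨⟨⟨k, hk⟩, j⟩, rfl⟩
          · show J _ ∈ (algebraMap L0 Λ).fieldRange
            rw [hJ]
            exact ⟨ρ v, rfl⟩
          · show J (w k j) ∈ (algebraMap L0 Λ).fieldRange
            obtain ⟨v, hv⟩ := hspl k hk
            have e1 : (pol (fun k' => algebraMap L0 Λ (ι (c k k')))) =
                ∏ j, (X - C (algebraMap L0 Λ (v j))) := by
              have := congrArg (fun P => P.map (algebraMap L0 Λ)) hv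
              simp only [pol_map, Polynomial.map_prod, Polynomial.map_sub, map_X, map_C] at this
              exact this
            have e2 : (pol (fun k' => algebraMap L0 Λ (ι (c k k')))) = ∏ j, (X - C (J (w k j))) := by
              have := congrArg (fun P => P.map J) (hw k)
              simp only [pol_map, Polynomial.map_prod, Polynomial.map_sub, map_X, map_C, hJz] at this
              exact this
            have e3 := congrArg (fun P => P.eval (J (w k j))) (e1.symm.trans e2)
            simp only [eval_prod, eval_sub, eval_X, eval_C] at e3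
            rw [Finset.prod_eq_zero (f := fun j' => J (w k j) - J (w k j')) (mem_univ j)
              (sub_self _), Finset.prod_eq_zero_iff] at e3
            obtain ⟨j', _, h3⟩ := e3
            exact ⟨v j', (sub_eq_zero.1 h3).symm⟩
        obtain ⟨u, hu⟩ := hle hz
        exact ⟨u, hu.symm⟩
      -- the square root of the discriminant
      set Δ : Om a b := (Matrix.vandermonde (w i)).det with hΔ
      set R := resultant (pol (c i)) (derivative (pol (c i))) n (n - 1) with hR
      set ε : Om a b := (∏ j : Fin n, ∏ j' ∈ Ioi j, (-1 : Om a b)) with hε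
      have hRΔ : jO a b R = ε * Δ ^ 2 := by
        rw [hR, ← resultant_map_map, ← derivative_map, pol_map, res_split _ (w i) (hw i)]
      have hεor : ε = 1 ∨ ε = -1 := eps_or
      have hΔM : Δ ∉ M := by
        intro hmem
        obtain ⟨u, hu⟩ := hMJ Δ hmem
        have h3 : J (jO a b R) = J ε * (algebraMap L0 Λ u) ^ 2 := by
          rw [hRΔ, map_mul, map_pow, hu]
        rw [hJz] at h3
        rcases hεor with h4 | h4
        · apply (hns u).1
          apply (algebraMap L0 Λ).injective
          rw [h3, h4, map_one, one_mul, map_pow]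
        · apply (hns u).2
          apply (algebraMap L0 Λ).injective
          rw [map_neg, h3, h4, map_neg, map_one, map_pow]
          ring
      have hΔ0 : Δ ≠ 0 := by
        rw [hΔ, Matrix.det_vandermonde_ne_zero_iff]
        exact hwi i
      -- the square lies in the base
      have hsqM : Δ ^ 2 ∈ M := by
        have h3 : Δ ^ 2 = ε * jO a b R := by
          rw [hRΔ]
          rcases hεor with h4 | h4 <;> rw [h4] <;> ring
        rw [h3]
        apply M.mul_mem
        · rcases hεor with h4 | h4
          · rw [h4]; exact M.one_mem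
          · rw [h4]; exact M.neg_mem M.one_mem
        · exact M.algebraMap_mem (algebraMap (QA K a b) (FE a b) R)
      have hirr : Irreducible (X ^ 2 - C (⟨Δ ^ 2, hsqM⟩ : M)) := by
        apply X_pow_sub_C_irreducible_of_prime Nat.prime_two
        intro u hu
        have h3 : (u : Om a b) ^ 2 = Δ ^ 2 := congrArg Subtype.val hu
        rcases sq_eq_sq_iff_eq_or_eq_neg.1 h3 with h4 | h4
        · exact hΔM (by rw [← h4]; exact u.2)
        · exact hΔM (by
            have h5 : Δ = -(u : Om a b) := by rw [h4, neg_neg]
            rw [h5]; exact M.neg_mem u.2)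
      have hmin : ∀ z : Om a b, z ^ 2 = Δ ^ 2 → minpoly M z = X ^ 2 - C (⟨Δ ^ 2, hsqM⟩ : M) := by
        intro z hz
        refine (minpoly.eq_of_irreducible_of_monic hirr ?_ (monic_X_pow_sub_C _ (by norm_num))).symm
        rw [map_sub, map_pow, aeval_X, aeval_C, hz]
        exact sub_self _
      have hconj : IsConjRoot M (-Δ) Δ := by
        unfold IsConjRoot
        rw [hmin _ rfl, hmin _ (by ring)]
      haveI : Normal M (Om a b) := by
        haveI : Algebra.IsAlgebraic M (Om a b) := Algebra.IsAlgebraic.tower_top (K := FE a b) M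
        haveI : IsAlgClosure M (Om a b) := ⟨inferInstance, inferInstance⟩
        exact IsAlgClosure.normal M (Om a b)
      obtain ⟨σ, hσ⟩ := hconj.exists_algEquiv
      have hσz : ∀ z : QA K a b, (σ : Om a b ≃+* Om a b) (jO a b z) = jO a b z := by
        intro z
        exact σ.commutes (⟨jO a b z, M.algebraMap_mem (algebraMap (QA K a b) (FE a b) z)⟩ : M)
      choose ρ' hρ' using fun k => perm_of_aut a b (c k) (w k) (hw k) (hwi k)
        (σ : Om a b ≃+* Om a b) hσz
      refine ⟨fun k => if k = i then ρ' k else 1, ⟨(σ : Om a b ≃+* Om a b), hσz, ?_⟩, ?_, ?_⟩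
      · intro k j
        by_cases hk : k = i
        · simp only [if_pos hk, hρ']
        · simp only [if_neg hk]
          show σ (w k j) = w k j
          have hmem : w k j ∈ M := by
            rw [hM]
            apply IntermediateField.subset_adjoin
            exact ⟨⟨⟨k, hk⟩, j⟩, rfl⟩
          exact σ.commutes (⟨w k j, hmem⟩ : M)
      · simp only [if_true]
        have h3 : (σ : Om a b ≃+* Om a b) Δ = (Equiv.Perm.sign (ρ' i) : ℤ) * Δ := by
          have h4 : ((Matrix.vandermonde (w i)).submatrix (ρ' i) id).det =
              (Equiv.Perm.sign (ρ' i) : ℤ) * Δ := by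
            rw [Matrix.det_permute]
          rw [← h4, hΔ]
          have h5 : (Matrix.vandermonde (w i)).submatrix (ρ' i) id =
              ((σ : Om a b ≃+* Om a b) : Om a b →+* Om a b).mapMatrix (Matrix.vandermonde (w i)) := by
            ext j j'
            rw [RingHom.mapMatrix_apply, Matrix.map_apply, Matrix.submatrix_apply,
              Matrix.vandermonde_apply, Matrix.vandermonde_apply, map_pow]
            congr 1
            exact (hρ' i j).symm
          rw [h5, ← RingHom.map_det]
          rfl
        rcases Int.units_eq_one_or (Equiv.Perm.sign (ρ' i)) with h4 | h4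
        · exfalso
          rw [h4] at h3
          have h5 : (σ : Om a b ≃+* Om a b) Δ = -Δ := hσ
          rw [h5] at h3
          simp only [Units.val_one, Int.cast_one, one_mul] at h3
          have h6 : 2 * Δ = 0 := by linear_combination -h3
          rcases mul_eq_zero.1 h6 with h7 | h7
          · exact h2O h7
          · exact hΔ0 h7
        · exact h4
      · intro k hk
        simp only [if_neg hk]
  refine ⟨w, hw, hwi, fun π => ?_⟩
  have h3 : π ∈ HG a b w := by rw [hH]; exact Subgroup.mem_top _
  exact h3

end

end Pool.Agent.K9h5.T
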