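import Mathlib
import Pool.Agent.K9h5.T.GT

/-!
# Power series: splitting of separable polynomials, arcs on curves
-/

set_option autoImplicit false
set_option linter.all false

namespace Pool.Agent.K9h5.T

open Polynomial Finset Pool.Agent.K9h5

section

variable {K : Type} [Field K]

abbrev PS (K : Type) [Field K] : Type := PowerSeries K

theorem mem_spanX (f : PS K) : f ∈ Ideal.span {(PowerSeries.X : PS K)} ↔
    PowerSeries.constantCoeff f = 0 := by
  rw [Ideal.mem_span_singleton, PowerSeries.X_dvd_iff]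

/-- **Hensel.** -/
theorem hens (f : (PS K)[X]) (hf : f.Monic) (a₀ : K)
    (h0 : (f.map PowerSeries.constantCoeff).eval a₀ = 0)
    (h1 : (derivative (f.map PowerSeries.constantCoeff)).eval a₀ ≠ 0) :
    ∃ z : PS K, f.eval z = 0 ∧ PowerSeries.constantCoeff z = a₀ := by
  have hc : ∀ g : (PS K)[X], PowerSeries.constantCoeff (g.eval (PowerSeries.C a₀)) =
      (g.map PowerSeries.constantCoeff).eval a₀ := by
    intro g
    have h2 := Polynomial.eval₂_at_apply (p := g) (PowerSeries.constantCoeff (R := K))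
      (PowerSeries.C a₀)
    rw [PowerSeries.constantCoeff_C] at h2
    rw [← h2, eval_map]
  obtain ⟨z, hz, hz'⟩ := HenselianRing.is_henselian (I := Ideal.span {(PowerSeries.X : PS K)})
    f hf (PowerSeries.C a₀) (by rw [mem_spanX, hc, h0]) (by
      apply IsUnit.map
      rw [PowerSeries.isUnit_iff_constantCoeff, hc, ← derivative_map]
      exact isUnit_iff_ne_zero.2 h1)
  refine ⟨z, hz, ?_⟩
  rw [mem_spanX, map_sub, PowerSeries.constantCoeff_C, sub_eq_zero] at hz'
  exact hz'

/-- **A polynomial with unit discriminant splits.** -/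
theorem hens_split [IsAlgClosed K] {n : ℕ} (c : Fin n → PS K)
    (h : resultant (pol (fun k => PowerSeries.constantCoeff (c k)))
      (derivative (pol (fun k => PowerSeries.constantCoeff (c k)))) n (n - 1) ≠ 0) :
    ∃ w : Fin n → PS K, pol c = ∏ j, (X - C (w j)) := by
  classical
  set P := pol (fun k => PowerSeries.constantCoeff (c k)) with hP
  have hmap : (pol c).map PowerSeries.constantCoeff = P := pol_map _ c
  rw [← res_sep P (pol_monic _) n (pol_natDegree _)] at h
  obtain ⟨r, hr⟩ := exists_roots P (pol_monic _) (pol_natDegree _)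
  have hinj : Function.Injective r := by
    rw [hr, separable_prod_X_sub_C_iff] at h
    exact h
  have hroot : ∀ j, ∃ z : PS K, (pol c).eval z = 0 ∧ PowerSeries.constantCoeff z = r j := by
    intro j
    have h2 : P.eval (r j) = 0 := by
      rw [hr, eval_prod, prod_eq_zero (mem_univ j)]
      rw [eval_sub, eval_X, eval_C, sub_self]
    apply hens (pol c) (pol_monic c) (r j)
    · rw [hmap, h2]
    · rw [hmap]
      intro h3
      obtain ⟨A, B, hAB⟩ := h
      have h4 := congrArg (fun P => P.eval (r j)) hAB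
      simp only [eval_add, eval_mul, h2, h3, mul_zero, add_zero, eval_one] at h4
      exact zero_ne_one h4
  choose w hw hwr using hroot
  have hwi : Function.Injective w := by
    intro j j' h2
    apply hinj
    rw [← hwr, ← hwr, h2]
  refine ⟨w, ?_⟩
  have h3 : (∏ j, (X - C (w j))) ∣ pol c := by
    apply Finset.prod_dvd_of_coprime
    · intro i _ j _ hij
      show IsCoprime (X - C (w i)) (X - C (w j))
      apply isCoprime_X_sub_C_of_isUnit_sub
      rw [PowerSeries.isUnit_iff_constantCoeff, map_sub, hwr, hwr]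
      exact isUnit_iff_ne_zero.2 (sub_ne_zero.2 fun h => hij (hinj h))
    · intro j _
      rw [dvd_iff_isRoot]
      exact hw j
  have hmon : (∏ j, (X - C (w j))).Monic := monic_prod_of_monic _ _ fun s _ => monic_X_sub_C _
  apply eq_of_monic_of_dvd_of_natDegree_le hmon (pol_monic c) h3
  rw [pol_natDegree, natDegree_finset_prod_X_sub_C_eq_card, card_univ, Fintype.card_fin]

/-- scaling of a split polynomial -/
theorem scale_split {L : Type} [Field L] {n : ℕ} (c w : Fin n → L) (s : L) (hs : s ≠ 0)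
    (hw : pol c = ∏ j, (X - C (w j))) :
    pol (fun k => s ^ ((k : ℕ) + 1) * c k) = ∏ j, (X - C (s * w j)) := by
  have h1 : pol (fun k => s ^ ((k : ℕ) + 1) * c k) = C (s ^ n) * (pol c).comp (C s⁻¹ * X) := by
    unfold pol
    rw [add_comp, pow_comp, X_comp, mul_pow, mul_add, ← C_pow, ← mul_assoc, ← C_mul, inv_pow,
      mul_inv_cancel₀ (pow_ne_zero _ hs), C_1, one_mul]
    congr 1
    rw [← Polynomial.coe_compRingHom_apply, map_sum, mul_sum]
    refine sum_congr rfl fun k _ => ?_
    rw [Polynomial.coe_compRingHom_apply, mul_comp, C_comp, pow_comp, X_comp, mul_pow, ← C_pow, ← mul_assoc, ← mul_assoc, ← C_mul,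
      ← C_mul]
    congr 2
    have hk := k.2
    have h2 : s ^ n = s ^ ((k : ℕ) + 1) * s ^ (n - 1 - (k : ℕ)) := by
      rw [← pow_add]; congr 1; omega
    rw [h2, inv_pow]
    field_simp
  rw [h1, hw, Polynomial.prod_comp]
  have h3 : (C (s ^ n) : L[X]) = ∏ j : Fin n, C s := by
    rw [prod_const, card_univ, Fintype.card_fin, C_pow]
  rw [h3, ← prod_mul_distrib]
  refine prod_congr rfl fun j _ => ?_
  rw [sub_comp, X_comp, C_comp, mul_sub, ← mul_assoc, ← C_mul, mul_inv_cancel₀ hs, C_1, one_mul,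
    ← C_mul]

/-- the order of the value of a polynomial -/
theorem ord_eval (q : K[X]) (hq : q ≠ 0) (x₀ : K) (s : PS K) (e : ℕ) (hs : s.order = e)
    (he : e ≠ 0) : (q.eval₂ PowerSeries.C (PowerSeries.C x₀ + s)).order =
      ((q.rootMultiplicity x₀ * e : ℕ) : ℕ∞) := by
  obtain ⟨g, hg, hgx⟩ := exists_eq_pow_rootMultiplicity_mul_and_not_dvd q hq x₀
  have h1 : q.eval₂ PowerSeries.C (PowerSeries.C x₀ + s) =
      s ^ (q.rootMultiplicity x₀) * g.eval₂ PowerSeries.C (PowerSeries.C x₀ + s) := by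
    conv_lhs => rw [hg]
    rw [eval₂_mul, eval₂_pow, eval₂_sub, eval₂_X, eval₂_C, add_sub_cancel_left]
  have hs0 : PowerSeries.constantCoeff s = 0 := by
    rw [← PowerSeries.coeff_zero_eq_constantCoeff_apply]
    apply PowerSeries.coeff_of_lt_order
    rw [hs]
    exact_mod_cast Nat.pos_of_ne_zero he
  have h2 : (g.eval₂ PowerSeries.C (PowerSeries.C x₀ + s)).order = 0 := by
    apply PowerSeries.order_zero_of_unit
    rw [PowerSeries.isUnit_iff_constantCoeff, hom_eval₂]
    have h3 : (PowerSeries.constantCoeff (R := K)).comp PowerSeries.C = RingHom.id K := by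
      ext x
      simp
    rw [h3, map_add, PowerSeries.constantCoeff_C, hs0, add_zero, eval₂_id]
    rw [isUnit_iff_ne_zero]
    intro h4
    exact hgx (dvd_iff_isRoot.2 h4)
  rw [h1, PowerSeries.order_mul, h2, add_zero, PowerSeries.order_pow, hs]
  rw [nsmul_eq_mul]
  push_cast
  rfl

end

section arc

variable {K : Type} [Field K]

theorem two_orders (u v : PS K) (huo : u = 0 ∨ ∃ k : ℕ, u.order = ((k * 2 : ℕ) : ℕ∞))
    (hvo : v = 0 ∨ ∃ k : ℕ, v.order = ((k * 2 + 1 : ℕ) : ℕ∞)) :
    (u + v).order = (u + (-v)).order := by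
  have hne : u.order ≠ v.order ∨ (u = 0 ∧ v = 0) := by
    rcases huo with h3 | ⟨k, h3⟩
    · rcases hvo with h4 | ⟨k', h4⟩
      · exact Or.inr ⟨h3, h4⟩
      · left
        rw [h3, PowerSeries.order_zero, h4]
        exact (ENat.coe_ne_top _).symm
    · rcases hvo with h4 | ⟨k', h4⟩
      · left
        rw [h4, PowerSeries.order_zero, h3]
        exact ENat.coe_ne_top _
      · left
        rw [h3, h4]
        intro h5
        have h6 : k * 2 = k' * 2 + 1 := by exact_mod_cast h5
        omega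
  rcases hne with h3 | ⟨h3, h4⟩
  · rw [PowerSeries.order_add_of_order_ne _ _ h3,
      PowerSeries.order_add_of_order_ne _ _ (by rw [PowerSeries.order_neg]; exact h3),
      PowerSeries.order_neg]
  · rw [h3, h4, neg_zero]

theorem half_order (o : ℕ∞) (m : ℕ) (h : o + o = ((m * 2 : ℕ) : ℕ∞)) : o = m := by
  cases o with
  | top =>
    rw [top_add] at h
    exact absurd h.symm (ENat.coe_ne_top _)
  | coe k =>
    have h5 : k + k = m * 2 := by exact_mod_cast h
    have h6 : k = m := by omega
    rw [h6]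

theorem sum_order (o o' : ℕ∞) (m : ℕ) (hm : Odd m) (h : o + o' = (m : ℕ∞)) :
    (∃ k : ℕ, Odd k ∧ o = k) ∨ ∃ k : ℕ, Odd k ∧ o' = k := by
  cases o with
  | top =>
    rw [top_add] at h
    exact absurd h.symm (ENat.coe_ne_top _)
  | coe k =>
    cases o' with
    | top =>
      rw [add_top] at h
      exact absurd h.symm (ENat.coe_ne_top _)
    | coe k' =>
      have h5 : k + k' = m := by exact_mod_cast h
      rcases Nat.even_or_odd k with h6 | h6
      · right
        refine ⟨k', ?_, rfl⟩
        rw [← h5] at hm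
        rcases Nat.even_or_odd k' with h7 | h7
        · exact absurd hm (Nat.not_odd_iff_even.2 (h6.add h7))
        · exact h7
      · left
        exact ⟨k, h6, rfl⟩

/-- the ramified case, existence of the arc -/
theorem arc_ram {a b : K} (hD : Pool.Agent.H901R3.MS.Disc a b) (x₀ : K)
    (hf : x₀ ^ 3 + a * x₀ + b = 0) : ∃ s : PS K, s.order = 2 ∧
      (PowerSeries.X : PS K) ^ 2 = (PowerSeries.C x₀ + s) ^ 3 +
        PowerSeries.C a * (PowerSeries.C x₀ + s) + PowerSeries.C b := by
  have hf' : 3 * x₀ ^ 2 + a ≠ 0 := by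
    intro hc
    unfold Pool.Agent.H901R3.MS.Disc at hD
    apply hD
    have e1 : a = -3 * x₀ ^ 2 := by linear_combination hc
    have e2 : b = 2 * x₀ ^ 3 := by
      rw [e1] at hf
      linear_combination hf
    rw [e1, e2]
    ring
  obtain ⟨g, hg⟩ : ∃ g : PS K, g = PowerSeries.C b - PowerSeries.X ^ 2 := ⟨_, rfl⟩
  have hg0 : PowerSeries.constantCoeff g = b := by
    rw [hg, map_sub, map_pow, PowerSeries.constantCoeff_C, PowerSeries.constantCoeff_X]
    ring
  obtain ⟨X', hX', hX0⟩ := hens (X ^ 3 + C (PowerSeries.C a) * X + C g : (PS K)[X])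
    (by monicity!) x₀ (by
      simp only [Polynomial.map_add, Polynomial.map_pow, Polynomial.map_mul, map_X, map_C,
        eval_add, eval_pow, eval_mul, eval_X, eval_C, PowerSeries.constantCoeff_C, hg0]
      exact hf) (by
      simp only [Polynomial.map_add, Polynomial.map_pow, Polynomial.map_mul, map_X, map_C,
        PowerSeries.constantCoeff_C, hg0, derivative_add, derivative_X_pow, derivative_mul,
        derivative_C, derivative_X, eval_add, eval_mul, eval_pow, eval_X, eval_C]
      intro hc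
      apply hf'
      rw [← hc]
      norm_num)
  obtain ⟨s, rfl⟩ : ∃ s, X' = PowerSeries.C x₀ + s := ⟨X' - PowerSeries.C x₀, by ring⟩
  have hXe : (PowerSeries.X : PS K) ^ 2 = (PowerSeries.C x₀ + s) ^ 3 +
      PowerSeries.C a * (PowerSeries.C x₀ + s) + PowerSeries.C b := by
    rw [hg] at hX'
    simp only [eval_add, eval_pow, eval_mul, eval_X, eval_C] at hX'
    linear_combination -hX'
  refine ⟨s, ?_, hXe⟩
  have hs0 : PowerSeries.constantCoeff s = 0 := by
    rw [map_add, PowerSeries.constantCoeff_C] at hX0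
    linear_combination hX0
  have hsm : (PowerSeries.X : PS K) ^ 2 = s * (PowerSeries.C (3 * x₀ ^ 2 + a) +
      s * (3 * PowerSeries.C x₀ + s)) := by
    rw [hXe]
    have e1 : PowerSeries.C (x₀ ^ 3 + a * x₀ + b) = (0 : PS K) := by rw [hf, map_zero]
    simp only [map_add, map_mul, map_pow, map_ofNat] at e1 ⊢
    linear_combination e1
  have h3 := congrArg PowerSeries.order hsm
  rw [PowerSeries.order_mul, PowerSeries.order_X_pow] at h3
  have h4 : (PowerSeries.C (3 * x₀ ^ 2 + a) + s * (3 * PowerSeries.C x₀ + s) : PS K).order = 0 := by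
    apply PowerSeries.order_zero_of_unit
    rw [PowerSeries.isUnit_iff_constantCoeff, map_add, map_mul, hs0, zero_mul, add_zero,
      PowerSeries.constantCoeff_C]
    exact isUnit_iff_ne_zero.2 hf'
  rw [h4, add_zero] at h3
  exact_mod_cast h3.symm

theorem poly_order (q : K[X]) (x₀ : K) (s : PS K) (hs : s.order = 2) :
    q.eval₂ PowerSeries.C (PowerSeries.C x₀ + s) = 0 ∨
      ∃ k : ℕ, (q.eval₂ PowerSeries.C (PowerSeries.C x₀ + s)).order = ((k * 2 : ℕ) : ℕ∞) := by
  by_cases h0 : q = 0
  · left; rw [h0, eval₂_zero]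
  · right
    exact ⟨_, ord_eval q h0 x₀ s 2 (by exact_mod_cast hs) (by norm_num)⟩

theorem arc_ram2 {a b : K} (z : QA K a b) (hz : QuadraticAlgebra.norm z ≠ 0) (x₀ : K)
    (hodd : Odd ((QuadraticAlgebra.norm z).rootMultiplicity x₀)) (s : PS K) (hs : s.order = 2)
    (h : (PowerSeries.X : PS K) ^ 2 = (PowerSeries.C x₀ + s) ^ 3 +
        PowerSeries.C a * (PowerSeries.C x₀ + s) + PowerSeries.C b) :
    (evQ PowerSeries.C a b (PowerSeries.C x₀ + s) PowerSeries.X h z).order =
      ((QuadraticAlgebra.norm z).rootMultiplicity x₀ : ℕ∞) := by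
  have h' : (-PowerSeries.X : PS K) ^ 2 = (PowerSeries.C x₀ + s) ^ 3 +
        PowerSeries.C a * (PowerSeries.C x₀ + s) + PowerSeries.C b := by rw [neg_sq]; exact h
  have hNo := ord_eval (QuadraticAlgebra.norm z) hz x₀ s 2 (by exact_mod_cast hs) (by norm_num)
  rw [evQ_norm _ a b _ _ h h' z, PowerSeries.order_mul] at hNo
  obtain ⟨u, hu⟩ : ∃ u, u = z.re.eval₂ PowerSeries.C (PowerSeries.C x₀ + s) := ⟨_, rfl⟩
  obtain ⟨v, hv⟩ : ∃ v, v = z.im.eval₂ PowerSeries.C (PowerSeries.C x₀ + s) * PowerSeries.X :=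
    ⟨_, rfl⟩
  have e1 : evQ PowerSeries.C a b (PowerSeries.C x₀ + s) PowerSeries.X h z = u + v := by
    rw [evQ_apply, hu, hv]
  have e2 : evQ PowerSeries.C a b (PowerSeries.C x₀ + s) (-PowerSeries.X) h' z = u + (-v) := by
    rw [evQ_apply, hu, hv, mul_neg]
  have huo : u = 0 ∨ ∃ k : ℕ, u.order = ((k * 2 : ℕ) : ℕ∞) := by
    rw [hu]
    exact poly_order z.re x₀ s hs
  have hvo : v = 0 ∨ ∃ k : ℕ, v.order = ((k * 2 + 1 : ℕ) : ℕ∞) := by
    rcases poly_order z.im x₀ s hs with h3 | ⟨k, h3⟩
    · left; rw [hv, h3, zero_mul]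
    · right
      refine ⟨k, ?_⟩
      rw [hv, PowerSeries.order_mul, PowerSeries.order_X, h3]
      push_cast
      rfl
  have heq := two_orders u v huo hvo
  rw [e1, e2, ← heq] at hNo
  rw [e1]
  exact half_order _ _ hNo

end arc

section arc2

variable {K : Type} [Field K] [IsAlgClosed K] {a b : K}

/-- **The arc.** -/
theorem arc (hD : Pool.Agent.H901R3.MS.Disc a b) (z : QA K a b)
    (hz : QuadraticAlgebra.norm z ≠ 0) (x₀ : K)
    (hodd : Odd ((QuadraticAlgebra.norm z).rootMultiplicity x₀)) :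
    ∃ (X' Y' : PS K) (h : Y' ^ 2 = X' ^ 3 + PowerSeries.C a * X' + PowerSeries.C b),
      PowerSeries.constantCoeff X' = x₀ ∧ (∀ u, X' ≠ PowerSeries.C u) ∧
      ∃ m : ℕ, Odd m ∧ (evQ PowerSeries.C a b X' Y' h z).order = m := by
  classical
  have h2 : (2 : K) ≠ 0 := by
    unfold Pool.Agent.H901R3.MS.Disc at hD
    exact left_ne_zero_of_mul hD
  by_cases hf : x₀ ^ 3 + a * x₀ + b = 0
  · -- ramified point
    obtain ⟨s, hs, h⟩ := arc_ram hD x₀ hf
    have hs0 : PowerSeries.constantCoeff s = 0 := by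
      rw [← PowerSeries.coeff_zero_eq_constantCoeff_apply]
      apply PowerSeries.coeff_of_lt_order
      rw [hs]
      norm_num
    refine ⟨PowerSeries.C x₀ + s, PowerSeries.X, h, ?_, ?_,
      (QuadraticAlgebra.norm z).rootMultiplicity x₀, hodd, arc_ram2 z hz x₀ hodd s hs h⟩
    · rw [map_add, PowerSeries.constantCoeff_C, hs0, add_zero]
    · intro u hu
      have h3 : s = PowerSeries.C (u - x₀) := by rw [map_sub]; linear_combination hu
      have h4 : u - x₀ = 0 := by rw [h3, PowerSeries.constantCoeff_C] at hs0; exact hs0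
      rw [h4, map_zero] at h3
      rw [h3, PowerSeries.order_zero] at hs
      exact absurd hs (by decide)
  · -- unramified point
    obtain ⟨y₀, hy₀⟩ := IsAlgClosed.exists_pow_nat_eq (x₀ ^ 3 + a * x₀ + b) (n := 2) (by norm_num)
    have hy0 : y₀ ≠ 0 := by
      rintro rfl
      apply hf
      rw [← hy₀]
      ring
    obtain ⟨X', hX'⟩ : ∃ X' : PS K, X' = PowerSeries.C x₀ + PowerSeries.X := ⟨_, rfl⟩
    have hX0 : PowerSeries.constantCoeff X' = x₀ := by
      rw [hX', map_add, PowerSeries.constantCoeff_C, PowerSeries.constantCoeff_X, add_zero]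
    obtain ⟨g, hg⟩ : ∃ g : PS K, g = X' ^ 3 + PowerSeries.C a * X' + PowerSeries.C b := ⟨_, rfl⟩
    have hg0 : PowerSeries.constantCoeff g = x₀ ^ 3 + a * x₀ + b := by
      rw [hg, map_add, map_add, map_mul, map_pow, hX0, PowerSeries.constantCoeff_C,
        PowerSeries.constantCoeff_C]
    obtain ⟨Y', hY', hY0⟩ := hens (X ^ 2 - C g : (PS K)[X]) (monic_X_pow_sub_C _ (by norm_num)) y₀
      (by
        simp only [Polynomial.map_sub, Polynomial.map_pow, map_X, map_C, eval_sub, eval_pow, eval_X,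
          eval_C, hg0]
        rw [hy₀, sub_self]) (by
        simp only [Polynomial.map_sub, Polynomial.map_pow, map_X, map_C, derivative_sub,
          derivative_X_pow, derivative_C, sub_zero, eval_mul, eval_C, eval_pow, eval_X]
        norm_num
        exact ⟨h2, hy0⟩)
    have hYe : Y' ^ 2 = X' ^ 3 + PowerSeries.C a * X' + PowerSeries.C b := by
      simp only [eval_sub, eval_pow, eval_X, eval_C] at hY'
      rw [← hg]
      linear_combination hY'
    have hYe' : (-Y') ^ 2 = X' ^ 3 + PowerSeries.C a * X' + PowerSeries.C b := by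
      rw [neg_sq]; exact hYe
    have hNo : ((QuadraticAlgebra.norm z).eval₂ PowerSeries.C X').order =
        (((QuadraticAlgebra.norm z).rootMultiplicity x₀ * 1 : ℕ) : ℕ∞) := by
      rw [hX']
      exact ord_eval _ hz x₀ PowerSeries.X 1 (by rw [PowerSeries.order_X]; rfl) (by norm_num)
    rw [evQ_norm _ a b X' Y' hYe hYe' z, PowerSeries.order_mul, mul_one] at hNo
    have hXn : ∀ u, X' ≠ PowerSeries.C u := by
      intro u hu
      have h3 := congrArg (PowerSeries.coeff 1) hu
      rw [hX', map_add, PowerSeries.coeff_C, PowerSeries.coeff_C, PowerSeries.coeff_one_X] at h3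
      simp at h3
    rcases sum_order _ _ _ hodd hNo with ⟨k, hk, ho⟩ | ⟨k, hk, ho⟩
    · exact ⟨X', Y', hYe, hX0, hXn, k, hk, ho⟩
    · exact ⟨X', -Y', hYe', hX0, hXn, k, hk, ho⟩

end arc2

end Pool.Agent.K9h5.T
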