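import Mathlib
import Pool.Agent.K9h5.T.Hen
import Pool.Agent.K9h5.Ls

/-!
# Places of the function field separating the ramification of the translates
-/

set_option autoImplicit false
set_option linter.all false

namespace Pool.Agent.K9h5.T

open Polynomial Finset Pool.Agent.K9h5 Pool.Agent.H901R3.MS WeierstrassCurve

section

variable {K : Type} [Field K] [IsAlgClosed K] {a b : K} {L : Type} [Field L]

theorem eval_ne (κ : K →+* L) (q : K[X]) (hq : q ≠ 0) (U : L) (hU : ∀ u, U ≠ κ u) :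
    q.eval₂ κ U ≠ 0 := by
  intro h
  have h1 : U ∈ (q.map κ).roots := by
    rw [mem_roots ((Polynomial.map_ne_zero_iff κ.injective).2 hq), IsRoot.def, eval_map]
    exact h
  rw [(IsAlgClosed.splits q).roots_map] at h1
  obtain ⟨r, _, hr⟩ := Multiset.mem_map.1 h1
  exact hU r hr.symm

theorem inj_ev (κ : K →+* L) (U V : L) (h : V ^ 2 = U ^ 3 + κ a * U + κ b)
    (hU : ∀ u, U ≠ κ u) : Function.Injective (evQ κ a b U V h) := by
  rw [injective_iff_map_eq_zero]
  intro z hz
  by_contra hz0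
  have h1 := norm_ne_zero hz0
  have h' : (-V) ^ 2 = U ^ 3 + κ a * U + κ b := by rw [neg_sq]; exact h
  have h2 := evQ_norm κ a b U V h h' z
  rw [hz, zero_mul] at h2
  exact eval_ne κ _ h1 U hU h2

theorem const_pt [DecidableEq K] [DecidableEq L] (κ : K →+* L) (hD : Disc a b)
    (red : Pt a b →+ Pt (κ a) (κ b))
    (hred : ∀ (x y : K) (h : (CV a b).toAffine.Nonsingular x y),
        ∃ g : (CV (κ a) (κ b)).toAffine.Nonsingular (κ x) (κ y),
          red (Affine.Point.some x y h) = Affine.Point.some (κ x) (κ y) g)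
    (u : K) (U V : L) (hU : U = κ u) (h : (CV (κ a) (κ b)).toAffine.Nonsingular U V) :
    ∃ w, red w = Affine.Point.some U V h := by
  subst hU
  obtain ⟨y, hy⟩ := IsAlgClosed.exists_pow_nat_eq (u ^ 3 + a * u + b) (n := 2) (by norm_num)
  have h1 : V ^ 2 = (κ y) ^ 2 := by
    have h2 : V ^ 2 = (κ u) ^ 3 + κ a * κ u + κ b := eqn_of h
    rw [h2, ← map_pow κ y, hy]
    simp only [map_add, map_mul, map_pow]
  rcases sq_eq_sq_iff_eq_or_eq_neg.1 h1 with h3 | h3
  · subst h3
    have hns : (CV a b).toAffine.Nonsingular u y := (nonsingular_iff hD).2 hy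
    obtain ⟨g, hg⟩ := hred u y hns
    exact ⟨_, hg⟩
  · have h4 : V = κ (-y) := by rw [h3, map_neg]
    subst h4
    have hns : (CV a b).toAffine.Nonsingular u (-y) :=
      (nonsingular_iff hD).2 (by rw [Eqn, neg_sq]; exact hy)
    obtain ⟨g, hg⟩ := hred u (-y) hns
    exact ⟨_, hg⟩

theorem nonconst [DecidableEq K] [DecidableEq L] (κ : K →+* L) (hD : Disc a b)
    (red : Pt a b →+ Pt (κ a) (κ b))
    (hred : ∀ (x y : K) (h : (CV a b).toAffine.Nonsingular x y),
        ∃ g : (CV (κ a) (κ b)).toAffine.Nonsingular (κ x) (κ y),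
          red (Affine.Point.some x y h) = Affine.Point.some (κ x) (κ y) g)
    (X' Y' : L) (h : (CV (κ a) (κ b)).toAffine.Nonsingular X' Y') (hX : ∀ u, X' ≠ κ u)
    (w : Pt a b) : ∃ (U V : L) (h' : (CV (κ a) (κ b)).toAffine.Nonsingular U V),
      (Affine.Point.some X' Y' h + red w : Pt (κ a) (κ b)) = Affine.Point.some U V h' ∧
      ∀ u, U ≠ κ u := by
  have key : ∀ w' : Pt a b, red w' ≠ Affine.Point.some X' Y' h := by
    intro w' hw'
    cases w' with
    | zero =>
      have h0 : red (Affine.Point.zero : Pt a b) = Affine.Point.zero := map_zero red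
      rw [h0] at hw'
      cases hw'
    | some x y hxy =>
      obtain ⟨g, hg⟩ := hred x y hxy
      rw [hg] at hw'
      simp only [Affine.Point.some.injEq] at hw'
      exact hX x hw'.1.symm
  cases hc : (Affine.Point.some X' Y' h + red w : Pt (κ a) (κ b)) with
  | zero =>
    exfalso
    apply key (-w)
    rw [map_neg]
    exact (eq_neg_of_add_eq_zero_left hc).symm
  | some U V h' =>
    refine ⟨U, V, h', rfl, ?_⟩
    intro u hu
    obtain ⟨w', hw'⟩ := const_pt κ hD red hred u U V hu h'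
    apply key (w' - w)
    rw [map_sub, hw', ← hc]
    abel

/-- the relation of the values for two decompositions of a point -/
theorem val_rel [DecidableEq L] (κ : K →+* L) {e : ℕ} (Φ : MvPolynomial (Fin 3) K)
    (hΦ : Φ.IsHomogeneous e) {x₁ y₁ x y x₂ y₂ x' y' : L}
    (h₁ : (CV (κ a) (κ b)).toAffine.Nonsingular x₁ y₁) (h : (CV (κ a) (κ b)).toAffine.Nonsingular x y)
    (h₂ : (CV (κ a) (κ b)).toAffine.Nonsingular x₂ y₂) (h' : (CV (κ a) (κ b)).toAffine.Nonsingular x' y')
    (hx : x ≠ x₁) (hx' : x' ≠ x₂)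
    (heq : (Affine.Point.some x₁ y₁ h₁ + Affine.Point.some x y h : Pt (κ a) (κ b)) =
      Affine.Point.some x₂ y₂ h₂ + Affine.Point.some x' y' h') :
    MvPolynomial.eval₂ κ (TV x₁ y₁ x y) Φ = (((x - x₁) / (x' - x₂)) ^ 3) ^ e *
      MvPolynomial.eval₂ κ (TV x₂ y₂ x' y') Φ := by
  have h3 := eval_TV (MvPolynomial.map κ Φ) (hΦ.map κ) h₁ h hx
  have h4 := eval_TV (MvPolynomial.map κ Φ) (hΦ.map κ) h₂ h' hx'
  rw [MvPolynomial.eval_map] at h3 h4
  rw [h3, h4, heq, ← pow_mul, div_pow, ← mul_assoc, div_mul_cancel₀]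
  exact pow_ne_zero _ (sub_ne_zero.2 hx')

end

section

variable {K : Type} [Field K]

/-- the constants -/
noncomputable def kL (K : Type) [Field K] : K →+* LS K := (pL K).comp PowerSeries.C

theorem ps_const (f : PS K) (u : K) (h : pL K f = kL K u) : f = PowerSeries.C u := pL_inj h

/-- the discriminant form -/
noncomputable def DFm {n : ℕ} {R : Type} [CommRing R] (c : Fin n → R) : R :=
  resultant (pol c) (derivative (pol c)) n (n - 1)

theorem DFm_map {n : ℕ} {R S : Type} [CommRing R] [CommRing S] (φ : R →+* S) (c : Fin n → R) :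
    φ (DFm c) = DFm (fun k => φ (c k)) := by
  unfold DFm
  rw [← resultant_map_map, ← derivative_map, pol_map]

theorem phi_DFm {n : ℕ} (a b : K) (Φ : Fin n → MvPolynomial (Fin 3) K) (x y : K) :
    phi a b (DFm Φ) x y = DFm (fun k => phi a b (Φ k) x y) := by
  have h1 := DFm_map (MvPolynomial.eval₂Hom (qc K a b) (TV (qc K a b x) (qc K a b y) (qx K a b)
    (qy K a b))) Φ
  exact h1

theorem not_sq {x : LS K} (m : ℤ) (hm : Odd m) (hx : x.order = m) (hx0 : x ≠ 0) (δ : LS K) :
    δ ^ 2 ≠ x := by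
  intro h
  have h1 : (δ ^ 2).order = 2 * δ.order := by
    rw [HahnSeries.order_pow, nsmul_eq_mul]; rfl
  rw [h, hx] at h1
  rw [h1] at hm
  exact absurd hm (Int.not_odd_iff_even.2 ⟨δ.order, by ring⟩)

theorem evQ_pL {a b : K} (z : QA K a b) (X' Y' : PS K)
    (h : Y' ^ 2 = X' ^ 3 + PowerSeries.C a * X' + PowerSeries.C b)
    (h' : (pL K Y') ^ 2 = (pL K X') ^ 3 + kL K a * pL K X' + kL K b) :
    evQ (kL K) a b (pL K X') (pL K Y') h' z = pL K (evQ PowerSeries.C a b X' Y' h z) := by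
  rw [evQ_apply, evQ_apply, map_add, map_mul, hom_eval₂, hom_eval₂]
  rfl

theorem arc_LS [IsAlgClosed K] {a b : K} (hD : Disc a b) (z : QA K a b)
    (hz : QuadraticAlgebra.norm z ≠ 0) (x₀ : K)
    (hodd : Odd ((QuadraticAlgebra.norm z).rootMultiplicity x₀)) :
    ∃ (X' Y' : PS K) (h : Y' ^ 2 = X' ^ 3 + PowerSeries.C a * X' + PowerSeries.C b)
      (h' : (pL K Y') ^ 2 = (pL K X') ^ 3 + kL K a * pL K X' + kL K b),
      PowerSeries.constantCoeff X' = x₀ ∧ (∀ u, pL K X' ≠ kL K u) ∧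
      ∃ m : ℕ, Odd m ∧ (evQ (kL K) a b (pL K X') (pL K Y') h' z) ≠ 0 ∧
        (evQ (kL K) a b (pL K X') (pL K Y') h' z).order = m := by
  obtain ⟨X', Y', h, hX0, hXn, m, hm, ho⟩ := arc hD z hz x₀ hodd
  have h' : (pL K Y') ^ 2 = (pL K X') ^ 3 + kL K a * pL K X' + kL K b := by
    have := congrArg (pL K) h
    simp only [map_add, map_mul, map_pow] at this
    exact this
  refine ⟨X', Y', h, h', hX0, fun u hu => hXn u (ps_const X' u hu), m, hm, ?_⟩
  rw [evQ_pL z X' Y' h h']
  exact ord_pL ho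

variable [IsAlgClosed K] {a b : K}

/-- **The place of the `i`-th translate.** -/
theorem place [DecidableEq K] (hD : Disc a b) {n d m : ℕ} (Φ : Fin n → MvPolynomial (Fin 3) K)
    (hΦ : ∀ k, (Φ k).IsHomogeneous (((k : ℕ) + 1) * d))
    (hΦD : (DFm Φ).IsHomogeneous (n * (n - 1) * d))
    (x y : Fin m → K) (hn : ∀ i, (CV a b).toAffine.Nonsingular (x i) (y i))
    {x₁ y₁ : K} (h₁ : (CV a b).toAffine.Nonsingular x₁ y₁)
    (hN : QuadraticAlgebra.norm (phi a b (DFm Φ) x₁ y₁) ≠ 0) (x₀ : K)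
    (hodd : Odd ((QuadraticAlgebra.norm (phi a b (DFm Φ) x₁ y₁)).rootMultiplicity x₀))
    (i : Fin m)
    (hgood : ∀ k, k ≠ i → ∃ (x₂ y₂ : K) (h₂ : (CV a b).toAffine.Nonsingular x₂ y₂),
      (Affine.Point.some x₂ y₂ h₂ : Pt a b) = Affine.Point.some x₁ y₁ h₁ +
        (Affine.Point.some (x k) (y k) (hn k) - Affine.Point.some (x i) (y i) (hn i)) ∧
      (QuadraticAlgebra.norm (phi a b (DFm Φ) x₂ y₂)).eval x₀ ≠ 0) :
    ∃ (L0 : Type) (_ : Field L0) (ι : QA K a b →+* L0), Function.Injective ι ∧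
      (∀ k, k ≠ i → ∃ v : Fin n → L0, pol (fun k' => ι (phi a b (Φ k') (x k) (y k))) =
        ∏ j, (X - C (v j))) ∧
      ∀ δ : L0, δ ^ 2 ≠ ι (resultant (pol (fun k' => phi a b (Φ k') (x i) (y i)))
          (derivative (pol (fun k' => phi a b (Φ k') (x i) (y i)))) n (n - 1)) ∧
        δ ^ 2 ≠ - ι (resultant (pol (fun k' => phi a b (Φ k') (x i) (y i)))
          (derivative (pol (fun k' => phi a b (Φ k') (x i) (y i)))) n (n - 1)) := by
  classical
  obtain ⟨X', Y', hXY, hXYL, hX0, hXLn, mo, hmo, hz0, hzo⟩ :=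
    arc_LS hD (phi a b (DFm Φ) x₁ y₁) hN x₀ hodd
  set κ := kL K with hκ
  have hDL : Disc (κ a) (κ b) := disc_map κ hD
  obtain ⟨red, hred⟩ := baseChange κ a b hDL
  set XL := pL K X' with hXL
  set YL := pL K Y' with hYL
  have hns : (CV (κ a) (κ b)).toAffine.Nonsingular XL YL := (nonsingular_iff hDL).2 hXYL
  -- the point
  obtain ⟨U, V, hUV, hsum, hUn⟩ := nonconst κ hD red hred XL YL hns hXLn
    (Affine.Point.some x₁ y₁ h₁ - Affine.Point.some (x i) (y i) (hn i))
  have hUVe : V ^ 2 = U ^ 3 + κ a * U + κ b := eqn_of hUV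
  obtain ⟨g₁, hg₁⟩ := hred x₁ y₁ h₁
  choose g hg using fun k => hred (x k) (y k) (hn k)
  refine ⟨LS K, inferInstance, evQ κ a b U V hUVe, inj_ev κ U V hUVe hUn, ?_, ?_⟩
  · -- splitting
    intro k hk
    obtain ⟨x₂, y₂, h₂, he₂, hne₂⟩ := hgood k hk
    obtain ⟨g₂, hg₂⟩ := hred x₂ y₂ h₂
    have heq : (Affine.Point.some (κ (x k)) (κ (y k)) (g k) + Affine.Point.some U V hUV :
        Pt (κ a) (κ b)) = Affine.Point.some (κ x₂) (κ y₂) g₂ + Affine.Point.some XL YL hns := by
      rw [← hsum, ← hg₂, ← hg k, he₂]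
      simp only [map_add, map_sub]
      abel
    -- the values
    set c'' : Fin n → PS K := fun k' => MvPolynomial.eval₂ PowerSeries.C
      (TV (PowerSeries.C x₂) (PowerSeries.C y₂) X' Y') (Φ k') with hc''
    have hc0 : ∀ k', PowerSeries.constantCoeff (c'' k') = MvPolynomial.eval₂ (RingHom.id K)
        (TV x₂ y₂ x₀ (PowerSeries.constantCoeff Y')) (Φ k') := by
      intro k'
      rw [hc'', MvPolynomial.hom_eval₂]
      have e1 : (PowerSeries.constantCoeff (R := K)).comp PowerSeries.C = RingHom.id K := by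
        ext z; simp
      rw [e1]
      congr 1
      funext j
      rw [TV_map, PowerSeries.constantCoeff_C, PowerSeries.constantCoeff_C, hX0]
    have hy0 : (PowerSeries.constantCoeff Y') ^ 2 = x₀ ^ 3 + (RingHom.id K) a * x₀ +
        (RingHom.id K) b := by
      have := congrArg PowerSeries.constantCoeff hXY
      simp only [map_add, map_mul, map_pow, hX0, PowerSeries.constantCoeff_C] at this
      exact this
    have hsplit : ∃ w : Fin n → PS K, pol c'' = ∏ j, (X - C (w j)) := by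
      apply hens_split
      have h3 : resultant (pol (fun k' => PowerSeries.constantCoeff (c'' k')))
          (derivative (pol (fun k' => PowerSeries.constantCoeff (c'' k')))) n (n - 1) =
          evQ (RingHom.id K) a b x₀ (PowerSeries.constantCoeff Y') hy0 (phi a b (DFm Φ) x₂ y₂) := by
        rw [evQ_phi]
        have h4 := DFm_map (MvPolynomial.eval₂Hom (RingHom.id K)
          (TV x₂ y₂ x₀ (PowerSeries.constantCoeff Y'))) Φ
        rw [MvPolynomial.coe_eval₂Hom] at h4
        simp only [RingHom.id_apply]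
        rw [h4]
        show DFm _ = _
        congr 1
        funext k'
        exact hc0 k'
      rw [h3]
      intro h4
      apply hne₂
      have hy0' : (-(PowerSeries.constantCoeff Y')) ^ 2 = x₀ ^ 3 + (RingHom.id K) a * x₀ +
        (RingHom.id K) b := by rw [neg_sq]; exact hy0
      have h5 := evQ_norm (RingHom.id K) a b x₀ (PowerSeries.constantCoeff Y') hy0 hy0'
        (phi a b (DFm Φ) x₂ y₂)
      rw [h4, zero_mul, eval₂_id] at h5
      exact h5
    obtain ⟨w, hw⟩ := hsplit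
    have hw' : pol (fun k' => pL K (c'' k')) = ∏ j, (X - C (pL K (w j))) := by
      have := congrArg (fun P => P.map (pL K)) hw
      simp only [pol_map, Polynomial.map_prod, Polynomial.map_sub, map_X, map_C] at this
      exact this
    have hUk : U ≠ κ (x k) := hUn _
    have hXk : XL ≠ κ x₂ := hXLn _
    set s : LS K := (((U - κ (x k)) / (XL - κ x₂)) ^ 3) ^ d with hs
    have hs0 : s ≠ 0 := by
      rw [hs]
      exact pow_ne_zero _ (pow_ne_zero _ (div_ne_zero (sub_ne_zero.2 hUk) (sub_ne_zero.2 hXk)))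
    refine ⟨fun j => s * pL K (w j), ?_⟩
    rw [← scale_split _ _ s hs0 hw']
    congr 1
    funext k'
    have hpw : (((U - κ (x k)) / (XL - κ x₂)) ^ 3) ^ (((k' : ℕ) + 1) * d) = s ^ ((k' : ℕ) + 1) := by
      rw [hs, ← pow_mul (((U - κ (x k)) / (XL - κ x₂)) ^ 3) d, mul_comm d]
    rw [evQ_phi, val_rel κ (Φ k') (hΦ k') (g k) hUV g₂ hns hUk hXk heq, hpw]
    congr 1
    rw [hc'', MvPolynomial.hom_eval₂]
    congr 1
    funext j
    rw [TV_map]
    rfl
  · -- the discriminant
    have heq : (Affine.Point.some (κ (x i)) (κ (y i)) (g i) + Affine.Point.some U V hUV :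
        Pt (κ a) (κ b)) = Affine.Point.some (κ x₁) (κ y₁) g₁ + Affine.Point.some XL YL hns := by
      rw [← hsum, ← hg₁, ← hg i]
      simp only [map_add, map_sub]
      abel
    have hUk : U ≠ κ (x i) := hUn _
    have hXk : XL ≠ κ x₁ := hXLn _
    have h3 : evQ κ a b U V hUVe (resultant (pol (fun k' => phi a b (Φ k') (x i) (y i)))
          (derivative (pol (fun k' => phi a b (Φ k') (x i) (y i)))) n (n - 1)) =
        (((U - κ (x i)) / (XL - κ x₁)) ^ 3) ^ (n * (n - 1) * d) *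
          evQ κ a b XL YL hXYL (phi a b (DFm Φ) x₁ y₁) := by
      have h4 : resultant (pol (fun k' => phi a b (Φ k') (x i) (y i)))
          (derivative (pol (fun k' => phi a b (Φ k') (x i) (y i)))) n (n - 1) =
          phi a b (DFm Φ) (x i) (y i) := by
        rw [phi_DFm, DFm]
      rw [h4, evQ_phi, val_rel κ (DFm Φ) hΦD (g i) hUV g₁ hns hUk hXk heq, evQ_phi]
    obtain ⟨e, he⟩ : ∃ e, n * (n - 1) * d = 2 * e := by
      have h4 : Even (n * (n - 1)) := Nat.even_mul_pred_self n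
      obtain ⟨e, he⟩ := h4
      exact ⟨e * d, by rw [he]; ring⟩
    set q := (U - κ (x i)) / (XL - κ x₁) with hq
    have hq0 : q ≠ 0 := div_ne_zero (sub_ne_zero.2 hUk) (sub_ne_zero.2 hXk)
    set ζ := evQ κ a b XL YL hXYL (phi a b (DFm Φ) x₁ y₁) with hζ
    have hv0 : (q ^ 3) ^ (n * (n - 1) * d) * ζ ≠ 0 := mul_ne_zero (pow_ne_zero _ (pow_ne_zero _ hq0)) hz0
    have hvo : ((q ^ 3) ^ (n * (n - 1) * d) * ζ).order = 2 * (3 * e * q.order) + mo := by
      rw [HahnSeries.order_mul (pow_ne_zero _ (pow_ne_zero _ hq0)) hz0, ← pow_mul,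
        HahnSeries.order_pow, hzo, he, nsmul_eq_mul]
      push_cast
      ring
    have hodd' : Odd (2 * (3 * e * q.order) + (mo : ℤ)) := by
      obtain ⟨j, hj⟩ := hmo
      refine ⟨3 * e * q.order + j, ?_⟩
      rw [hj]
      push_cast
      ring
    intro δ
    rw [h3]
    refine ⟨not_sq _ hodd' hvo hv0 δ, not_sq _ hodd' ?_ (neg_ne_zero.2 hv0) δ⟩
    rw [HahnSeries.order_neg]
    exact hvo

end

end Pool.Agent.K9h5.T
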