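import Mathlib
import Pool.Agent.K9h5.T.Plc

/-!
# The discriminant form is multihomogeneous
-/

set_option autoImplicit false
set_option linter.all false

namespace Pool.Agent.K9h5.T

open Polynomial Finset Pool.Agent.K9h5 Pool.Agent.H901R3.MS WeierstrassCurve

theorem DFm_scale_field {L : Type} [Field L] [IsAlgClosed L] {n : ℕ} (c : Fin n → L) (s : L)
    (hs : s ≠ 0) :
    DFm (fun k => s ^ ((k : ℕ) + 1) * c k) = s ^ (n * (n - 1)) * DFm c := by
  classical
  obtain ⟨w, hw⟩ := exists_roots (pol c) (pol_monic c) (pol_natDegree c)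
  have h1 := scale_split c w s hs hw
  unfold DFm
  rw [res_split _ _ h1, res_split _ _ hw, ← prod_diff, ← prod_diff]
  have h2 : ∀ j : Fin n, ∏ j' ∈ univ.filter (fun j' => j' ≠ j), (s * w j - s * w j') =
      s ^ (n - 1) * ∏ j' ∈ univ.filter (fun j' => j' ≠ j), (w j - w j') := by
    intro j
    have h3 : (univ.filter (fun j' : Fin n => j' ≠ j)).card = n - 1 := by
      have h4 : univ.filter (fun j' : Fin n => j' ≠ j) = univ.erase j := by ext j'; simp
      rw [h4, card_erase_of_mem (mem_univ j), card_univ, Fintype.card_fin]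
    rw [← h3, ← prod_const, ← prod_mul_distrib]
    refine prod_congr rfl fun j' _ => ?_
    ring
  simp only [h2]
  rw [prod_mul_distrib, prod_const, card_univ, Fintype.card_fin, ← pow_mul, mul_comm (n - 1) n]

theorem DFm_scale {R : Type} [CommRing R] [IsDomain R] {n : ℕ} (c : Fin n → R) (s : R)
    (hs : s ≠ 0) :
    DFm (fun k => s ^ ((k : ℕ) + 1) * c k) = s ^ (n * (n - 1)) * DFm c := by
  set ι : R →+* AlgebraicClosure (FractionRing R) :=
    (algebraMap (FractionRing R) (AlgebraicClosure (FractionRing R))).comp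
      (algebraMap R (FractionRing R)) with hι
  have hinj : Function.Injective ι :=
    (algebraMap (FractionRing R) (AlgebraicClosure (FractionRing R))).injective.comp
      (IsFractionRing.injective R (FractionRing R))
  apply hinj
  rw [DFm_map, map_mul, map_pow, DFm_map]
  simp only [map_mul, map_pow]
  apply DFm_scale_field
  rw [← map_zero ι]
  exact fun h => hs (hinj h)

section wh

variable {σ R : Type} [CommRing R]

/-- weighted scaling of the variables -/
noncomputable def wsc (w : σ → ℕ) : MvPolynomial σ R →+* (MvPolynomial σ R)[X] :=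
  MvPolynomial.eval₂Hom (C.comp MvPolynomial.C) (fun v => X ^ (w v) * C (MvPolynomial.X v))

theorem wsc_homog (w : σ → ℕ) {f : MvPolynomial σ R} {d : ℕ} (hf : f.IsWeightedHomogeneous w d) :
    wsc w f = X ^ d * C f := by
  unfold wsc
  rw [MvPolynomial.coe_eval₂Hom]
  have h1 := eval₂_weighted (C.comp MvPolynomial.C) hf (X : (MvPolynomial σ R)[X])
    (fun v : σ => C (MvPolynomial.X v : MvPolynomial σ R))
  rw [h1]
  congr 1
  have h2 := MvPolynomial.hom_eval₂ f MvPolynomial.C (C : MvPolynomial σ R →+* _) MvPolynomial.X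
  rw [← h2, MvPolynomial.eval₂_eta]

theorem wsc_coeff (w : σ → ℕ) (f : MvPolynomial σ R) (d : σ →₀ ℕ) :
    MvPolynomial.coeff d ((wsc w f).coeff (Finsupp.weight w d)) = MvPolynomial.coeff d f := by
  classical
  induction f using MvPolynomial.induction_on' with
  | monomial e r =>
    have h1 : wsc w (MvPolynomial.monomial e r) =
        X ^ (Finsupp.weight w e) * C (MvPolynomial.monomial e r) :=
      wsc_homog w (MvPolynomial.isWeightedHomogeneous_monomial w e r rfl)
    rw [h1, mul_comm, coeff_C_mul, coeff_X_pow]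
    by_cases hed : e = d
    · subst hed
      rw [if_pos rfl, mul_one]
    · rw [MvPolynomial.coeff_monomial, if_neg hed]
      split_ifs
      · rw [mul_one, MvPolynomial.coeff_monomial, if_neg hed]
      · rw [mul_zero, MvPolynomial.coeff_zero]
  | add p q hp hq =>
    rw [map_add, coeff_add, MvPolynomial.coeff_add, MvPolynomial.coeff_add, hp, hq]

theorem homog_of_wsc (w : σ → ℕ) {f : MvPolynomial σ R} {d : ℕ} (h : wsc w f = X ^ d * C f) :
    f.IsWeightedHomogeneous w d := by
  intro e he
  by_contra hne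
  apply he
  rw [← wsc_coeff w f e, h, mul_comm, coeff_C_mul, coeff_X_pow, if_neg hne, mul_zero,
    MvPolynomial.coeff_zero]

/-- **The discriminant form is weighted homogeneous.** -/
theorem DFm_homog [IsDomain R] (w : σ → ℕ) {n d : ℕ} (F : Fin n → MvPolynomial σ R)
    (hF : ∀ k, (F k).IsWeightedHomogeneous w (((k : ℕ) + 1) * d)) :
    (DFm F).IsWeightedHomogeneous w (n * (n - 1) * d) := by
  apply homog_of_wsc
  rw [DFm_map]
  have h1 : (fun k => wsc w (F k)) = fun k : Fin n => (X ^ d) ^ ((k : ℕ) + 1) * C (F k) := by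
    funext k
    rw [wsc_homog w (hF k), ← pow_mul, mul_comm d]
  rw [h1, DFm_scale _ _ (pow_ne_zero _ X_ne_zero), ← pow_mul, ← DFm_map, mul_comm d]

end wh

theorem specF_DFm {r n : ℕ} {S : Type} [CommRing S] (F : Fin n → MvPolynomial (Fin r × Fin 3) ℤ)
    (j : Fin r) (V : Fin r → Fin 3 → S) :
    specF (DFm F) j V = DFm (fun k => specF (F k) j V) := by
  have h1 := DFm_map (spH (fun i k => if i = j then (MvPolynomial.X k : MvPolynomial (Fin 3) S)
    else MvPolynomial.C (V i k))) F
  exact h1

theorem evF_DFm {r n : ℕ} {S : Type} [CommRing S] (F : Fin n → MvPolynomial (Fin r × Fin 3) ℤ)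
    (V : Fin r → Fin 3 → S) :
    evF (DFm F) V = DFm (fun k => evF (F k) V) := by
  have h1 := DFm_map (spH V) F
  exact h1

end Pool.Agent.K9h5.T
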