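import Mathlib
import Pool.Agent.K9h5.Box

/-!
# Averages of products, with more exceptional translations
-/

set_option autoImplicit false
set_option linter.all false

namespace Pool.Agent.K9h5.T

open Finset Pool.Agent.K9h5

section group

variable {Λ G G' : Type} [AddCommGroup Λ] [AddCommGroup G] [AddCommGroup G'] [Fintype Λ]
  [Fintype G] [Fintype G'] [DecidableEq G] [DecidableEq G'] [DecidableEq Λ]

/-- **The average of a product**, with four-fold correlations. -/
theorem avg_four3 (φ : Λ →+ G) (φ' : Λ →+ G') (τ : G) (τ' : G') (g : G → ℝ) (g' : G' → ℝ)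
    (hg : ∀ u, |g u| ≤ 1) (hg' : ∀ u, |g' u| ≤ 1) (Bd : Finset G) (β : ℝ)
    (hβ : 3 / 2 * (Bd.card : ℝ) ≤ β) (κ : ℝ) (hκ : 0 ≤ κ)
    (hcor : ∀ h h', h ∉ Bd → h' ∉ Bd → h + h' ∉ Bd → h - h' ∉ Bd →
      |∑ u, g u * g (u + h) * g (u + h') * g (u + (h + h'))| ≤ κ) :
    (∑ c : Λ, g (τ + φ c) * g' (τ' + φ' c)) ^ 2 ≤ (Fintype.card Λ : ℝ) ^ 2 *
      (β / (Nat.card (φ'.ker.map φ)) +
        √(2 * β * Fintype.card G + Nat.card φ.range * κ) / Nat.card φ.range) := by
  classical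
  have hB0 : (0 : ℝ) ≤ Bd.card := Nat.cast_nonneg _
  have hfirst := avg_bound φ φ' τ τ' g g' hg hg' Bd
    (√(2 * β * Fintype.card G + Nat.card φ.range * κ)) (Real.sqrt_nonneg _) (by
    intro h hh σ
    set F : G → ℝ := fun u => g u * g (u + h) with hF
    have hF1 : ∀ u, |F u| ≤ 1 := by
      intro u
      rw [hF]
      simp only
      rw [abs_mul]
      exact mul_le_one₀ (hg _) (abs_nonneg _) (hg _)
    set Bd' : Finset G := Bd ∪ (Bd.image (fun v => v - h) ∪ Bd.image (fun v => h - v)) with hBd'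
    have hBc : (Bd'.card : ℝ) ≤ 2 * β := by
      have h1 : Bd'.card ≤ 3 * Bd.card := by
        refine (card_union_le _ _).trans ?_
        have h2 := card_union_le (Bd.image (fun v => v - h)) (Bd.image (fun v => h - v))
        have := card_image_le (s := Bd) (f := fun v => v - h)
        have := card_image_le (s := Bd) (f := fun v => h - v)
        omega
      have h2 : (Bd'.card : ℝ) ≤ 3 * Bd.card := by exact_mod_cast h1
      linarith
    have h1 := coset_corr φ.range F hF1 Bd' κ hκ (by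
      intro h' hh'
      rw [hBd', mem_union, mem_union, not_or, not_or] at hh'
      have h2 : h + h' ∉ Bd := by
        intro h3
        apply hh'.2.1
        rw [mem_image]
        exact ⟨h + h', h3, by abel⟩
      have h2' : h - h' ∉ Bd := by
        intro h3
        apply hh'.2.2
        rw [mem_image]
        exact ⟨h - h', h3, by abel⟩
      have h3 := hcor h h' hh hh'.1 h2 h2'
      refine le_trans (le_of_eq ?_) h3
      congr 1
      refine Finset.sum_congr rfl fun u _ => ?_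
      rw [hF]
      simp only
      have e : u + h' + h = u + (h + h') := by abel
      rw [e]
      ring) σ
    have h2 : (∑ w : φ.range, F (σ + w)) ^ 2 ≤
        2 * β * Fintype.card G + Nat.card φ.range * κ := by
      refine h1.trans ?_
      have := mul_le_mul_of_nonneg_right hBc (Nat.cast_nonneg (α := ℝ) (Fintype.card G))
      linarith
    exact Real.abs_le_sqrt h2)
  refine hfirst.trans ?_
  apply mul_le_mul_of_nonneg_left _ (by positivity)
  apply add_le_add _ le_rfl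
  apply div_le_div_of_nonneg_right _ (Nat.cast_nonneg _)
  linarith

end group

/-- **The correlation of two primes on a box.** -/
theorem pair_bound3 {G G' : Type} [AddCommGroup G] [AddCommGroup G'] [Fintype G] [Fintype G']
    {ρ T : ℕ} (hT : Fintype.card G * Fintype.card G' ≤ T) (x : Fin ρ → G) (x' : Fin ρ → G')
    (τ : G) (τ' : G') (g : G → ℝ) (g' : G' → ℝ) (hg : ∀ u, |g u| ≤ 1) (hg' : ∀ u, |g' u| ≤ 1)
    (Bd : Finset G) (β : ℝ) (hβ : 3 / 2 * (Bd.card : ℝ) ≤ β) (κ : ℝ) (hκ : 0 ≤ κ)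
    (hcor : ∀ h h', h ∉ Bd → h' ∉ Bd → h + h' ∉ Bd → h - h' ∉ Bd →
      |∑ u, g u * g (u + h) * g (u + h') * g (u + (h + h'))| ≤ κ) :
    |∑ n ∈ Fintype.piFinset (fun _ : Fin ρ => range T),
      g (τ + ∑ k, n k • x k) * g' (τ' + ∑ k, n k • x' k)| ≤
    (T : ℝ) ^ ρ * (√(β / (kset x x').ncard +
        √(2 * β * Fintype.card G + (gset x).ncard * κ) / (gset x).ncard) +
      ρ * 2 ^ ρ * ((Fintype.card G * Fintype.card G' : ℕ) / T)) := by
  classical
  set m := Fintype.card G * Fintype.card G' with hm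
  have hG0 : 0 < Fintype.card G := Fintype.card_pos
  have hG'0 : 0 < Fintype.card G' := Fintype.card_pos
  have hm0 : 0 < m := Nat.mul_pos hG0 hG'0
  haveI : NeZero m := ⟨hm0.ne'⟩
  have hmG : ∀ u : G, m • u = 0 := by
    intro u
    rw [hm, mul_comm, mul_smul, card_nsmul_eq_zero, smul_zero]
  have hmG' : ∀ u : G', m • u = 0 := by
    intro u
    rw [hm, mul_smul, card_nsmul_eq_zero, smul_zero]
  obtain ⟨φ, hφ⟩ := exists_hom x hmG
  obtain ⟨φ', hφ'⟩ := exists_hom x' hmG'
  set f : (Fin ρ → ZMod m) → ℝ := fun c => g (τ + φ c) * g' (τ' + φ' c) with hf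
  have hf1 : ∀ c, |f c| ≤ 1 := by
    intro c
    rw [hf]
    simp only
    rw [abs_mul]
    exact mul_le_one₀ (hg _) (abs_nonneg _) (hg' _)
  have h1 := box_sum (ρ := ρ) hT f hf1
  have h2 : ∑ n ∈ Fintype.piFinset (fun _ : Fin ρ => range T), f (fun k => (n k : ZMod m)) =
      ∑ n ∈ Fintype.piFinset (fun _ : Fin ρ => range T),
      g (τ + ∑ k, n k • x k) * g' (τ' + ∑ k, n k • x' k) := by
    refine Finset.sum_congr rfl fun n _ => ?_
    rw [hf]
    simp only
    rw [hφ, hφ']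
  rw [h2] at h1
  have h3 := avg_four3 φ φ' τ τ' g g' hg hg' Bd β hβ κ hκ hcor
  have hβ0 : 0 ≤ β := le_trans (by positivity) hβ
  have h4 : (Nat.card φ.range : ℝ) = ((gset x).ncard : ℝ) := by
    have h5 : Nat.card φ.range = (gset x).ncard := by
      rw [← range_eq_gset x φ hφ]
      rfl
    rw [h5]
  have h4' : (Nat.card (φ'.ker.map φ) : ℝ) = ((kset x x').ncard : ℝ) := by
    have h5 : Nat.card (φ'.ker.map φ) = (kset x x').ncard := by
      rw [← map_ker_eq_kset x x' φ φ' hφ hφ']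
      rfl
    rw [h5]
  rw [h4, h4'] at h3
  set Z := β / (kset x x').ncard +
        √(2 * β * Fintype.card G + (gset x).ncard * κ) / (gset x).ncard with hZ
  have hZ0 : 0 ≤ Z := by positivity
  have h5 : |∑ c : Fin ρ → ZMod m, f c| ≤ (m : ℝ) ^ ρ * √Z := by
    have h6 : (∑ c : Fin ρ → ZMod m, f c) ^ 2 ≤ ((m : ℝ) ^ ρ * √Z) ^ 2 := by
      rw [mul_pow, Real.sq_sqrt hZ0]
      refine h3.trans (le_of_eq ?_)
      rw [Fintype.card_fun, Fintype.card_fin, ZMod.card]
      push_cast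
      ring
    exact abs_le_of_sq_le_sq h6 (by positivity)
  have hmr : (0 : ℝ) < m := by exact_mod_cast hm0
  have h6 : |((T : ℝ) / m) ^ ρ * ∑ c : Fin ρ → ZMod m, f c| ≤ (T : ℝ) ^ ρ * √Z := by
    rw [abs_mul, abs_of_nonneg (by positivity : (0 : ℝ) ≤ ((T : ℝ) / m) ^ ρ)]
    calc ((T : ℝ) / m) ^ ρ * |∑ c : Fin ρ → ZMod m, f c| ≤ ((T : ℝ) / m) ^ ρ * ((m : ℝ) ^ ρ * √Z) :=
          mul_le_mul_of_nonneg_left h5 (by positivity)
      _ = (T : ℝ) ^ ρ * √Z := by
          rw [← mul_assoc, ← mul_pow, div_mul_cancel₀ _ hmr.ne']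
  have h7 := abs_sub_abs_le_abs_sub (∑ n ∈ Fintype.piFinset (fun _ : Fin ρ => range T),
      g (τ + ∑ k, n k • x k) * g' (τ' + ∑ k, n k • x' k))
      (((T : ℝ) / m) ^ ρ * ∑ c : Fin ρ → ZMod m, f c)
  rw [mul_add]
  have h8 : (T : ℝ) ^ ρ * (ρ * 2 ^ ρ * ((m : ℝ) / T)) = ρ * 2 ^ ρ * (m / T) * (T : ℝ) ^ ρ := by ring
  rw [h8]
  linarith

end Pool.Agent.K9h5.T
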