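import Mathlib
import Pool.Agent.K9h5.Main
import Pool.Agent.K9h5.T.Coren

/-!
# Counting points for general weights
-/

set_option autoImplicit false
set_option linter.all false

namespace Pool.Agent.K9h5.T

open Pool.Agent.K9h5 Pool.Agent.H901R3.MS WeierstrassCurve Finset

/-- **The main theorem**, for points. -/
theorem points_gen {r : ℕ} (a b : Fin r → ℤ) (hD : ∀ i, Disc (a i : ℚ) (b i : ℚ)) (j : Fin r)
    (Lift : (∀ i, Pt (a i : ℚ) (b i : ℚ)) → Prop)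
    (G : ∀ (p : ℕ) [Fact p.Prime], (∀ i, Pt (a i : ZMod p) (b i : ZMod p)) →
      Pt (a j : ZMod p) (b j : ZMod p) → ℝ)
    (hG1 : ∀ (p : ℕ) [Fact p.Prime] (P : ∀ i, Pt (a i : ZMod p) (b i : ZMod p))
      (u : Pt (a j : ZMod p) (b j : ZMod p)), |G p P u| ≤ 1)
    (hGcg : ∀ (p : ℕ) [Fact p.Prime] (P P' : ∀ i, Pt (a i : ZMod p) (b i : ZMod p)),
      (∀ i, i ≠ j → P i = P' i) → G p P = G p P')
    (bp : MvPolynomial (Fin r × Fin 3) ℤ) (Cl : ℝ) (p₀ : ℕ) (hCl : 0 ≤ Cl)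
    (hloc : ∀ (p : ℕ) [Fact p.Prime],
      p₀ ≤ p → (∀ i, Disc (a i : ZMod p) (b i : ZMod p)) ∧ p ≠ 2 ∧
      (∀ S : ∀ i, Finset (Pt (a i : ZMod p) (b i : ZMod p)),
        ((badT a b p bp S).card : ℝ) ≤ Cl * bdT a b p S) ∧
      (∀ P : ∀ i, Pt (a i : ZMod p) (b i : ZMod p), Good a b j bp p P →
        ∃ Bd : Finset (Pt (a j : ZMod p) (b j : ZMod p)), 3 / 2 * (Bd.card : ℝ) ≤ Cl ∧
          ∀ h h', h ∉ Bd → h' ∉ Bd → h + h' ∉ Bd → h - h' ∉ Bd →
            |∑ u : Pt (a j : ZMod p) (b j : ZMod p), G p P u * G p P (u + h) *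
              G p P (u + h') * G p P (u + (h + h'))| ≤ Cl * √p))
    (cl : ℝ) (hcl : 0 < cl)
    (hlift : ∀ (p : ℕ) [Fact p.Prime], p₀ ≤ p → ∀ P, Lift P →
      cl ≤ G p (fun i => rd p (a i) (b i) (P i)) (rd p (a j) (b j) (P j)))
    (hrk : ∀ i, 1 ≤ Module.finrank ℤ (Pt (a i : ℚ) (b i : ℚ)))
    (hrj : 3 ≤ Module.finrank ℤ (Pt (a j : ℚ) (b j : ℚ))) :
    ∃ C : ℝ, 0 ≤ C ∧ ∀ B : ℝ, 1 ≤ B →
      ({P : ∀ i, Pt (a i : ℚ) (b i : ℚ) | (∀ i, hP (P i) ≤ B) ∧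
        Lift P}.ncard : ℝ) ≤
      C * (B ^ (-(1 / 300) : ℝ) * ((AB a b B).ncard : ℝ)) := by
  classical
  set ρ : Fin r → ℕ := fun i => Module.finrank ℤ (Pt (a i : ℚ) (b i : ℚ)) with hρ
  choose e₁ c₁ C₁ hHB₁ hC₁ hcov₁ using fun i => cover (hD i) 1 (hrk i)
  obtain ⟨e₃, c₃, C₃, hHB₃, hC₃, hcov₃⟩ := cover (hD j) 3 hrj
  choose c₀ hc₀ hlow using fun i => lower (hD i)
  set c : ℝ := (∑ i, c₁ i) + c₃ with hc
  have hc1 : ∀ i, 0 ≤ c₁ i := fun i => by linarith [(hHB₁ i).1]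
  have hc3 : 1 ≤ c₃ := hHB₃.1
  have hcc : ∀ i, c₁ i ≤ c := by
    intro i
    have := single_le_sum (f := c₁) (fun i _ => hc1 i) (mem_univ i)
    rw [hc]; linarith
  have hcc3 : c₃ ≤ c := by
    have : 0 ≤ ∑ i, c₁ i := sum_nonneg fun i _ => hc1 i
    rw [hc]; linarith
  have hc1' : 1 ≤ c := hc3.trans hcc3
  obtain ⟨CC, hCC, hcore⟩ := core_gen a b j Lift G hG1 hGcg bp Cl p₀ hCl hloc cl hcl hlift
    (fun i => e₁ i 0) e₃ c (by
    intro i _
    have h1 := HB_mono (hHB₁ i) (hcc i)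
    have h2 : (fun _ : Fin 1 => e₁ i 0) = e₁ i := by
      funext k
      rw [Subsingleton.elim k 0]
    rw [h2]
    exact h1) (HB_mono hHB₃ hcc3)
  set K : ℝ := 7 * c with hK
  have hK1 : 1 ≤ K := by rw [hK]; linarith
  set C₄ : ℝ := C₃ * ∏ i, (C₁ i + 1) with hC₄
  have hC₄0 : 0 ≤ C₄ := mul_nonneg hC₃ (prod_nonneg fun i _ => by linarith [hC₁ i])
  refine ⟨C₄ * CC * K ^ (∑ i, ρ i) / ∏ i, c₀ i, ?_, ?_⟩
  · have : 0 < ∏ i, c₀ i := prod_pos fun i _ => hc₀ i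
    positivity
  intro B hB
  have hB0 : 0 < B := by linarith
  have hfin := AB_finite a b B
  -- the size of the boxes
  set T₁ : ℕ := ⌈c * √(B + 1)⌉₊ with hT₁
  set T : ℕ := 2 * T₁ + 1 with hT
  have hT1 : 1 ≤ T := by omega
  have hTr : (1 : ℝ) ≤ T := by exact_mod_cast hT1
  have hT0 : (0 : ℝ) < T := by linarith
  have hsB : (1 : ℝ) ≤ √B := by rw [Real.one_le_sqrt]; exact hB
  have hsB2 : √(B + 1) ≤ 3 / 2 * √B := by
    rw [show (3 / 2 : ℝ) * √B = √(9 / 4 * B) by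
      rw [Real.sqrt_mul' _ hB0.le]
      congr 1
      rw [show (9 / 4 : ℝ) = (3 / 2) ^ 2 by norm_num, Real.sqrt_sq (by norm_num)]]
    apply Real.sqrt_le_sqrt
    linarith
  have hTK : (T : ℝ) ≤ K * √B := by
    have h1 : (T₁ : ℝ) < c * √(B + 1) + 1 := Nat.ceil_lt_add_one (by positivity)
    have h2 : (T : ℝ) = 2 * T₁ + 1 := by rw [hT]; push_cast; ring
    rw [h2, hK]
    have h3 : c * √(B + 1) ≤ c * (3 / 2 * √B) := mul_le_mul_of_nonneg_left hsB2 (by linarith)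
    have h4 : 1 ≤ c * √B := by nlinarith
    nlinarith
  have hTB : √B ≤ T := by
    have h1 : c * √(B + 1) ≤ T₁ := Nat.le_ceil _
    have h2 : (T : ℝ) = 2 * T₁ + 1 := by rw [hT]; push_cast; ring
    have h3 : √B ≤ √(B + 1) := Real.sqrt_le_sqrt (by linarith)
    have h4 : √(B + 1) ≤ c * √(B + 1) := le_mul_of_one_le_left (Real.sqrt_nonneg _) hc1'
    rw [h2]
    have h5 : (0 : ℝ) ≤ T₁ := Nat.cast_nonneg _
    linarith
  choose Sh₁ hSh₁c hSh₁ using fun i => hcov₁ i T₁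
  obtain ⟨Sh₃, hSh₃c, hSh₃⟩ := hcov₃ T₁
  set Sh := Function.update Sh₁ j Sh₃ with hSh
  -- the cover
  set LB : Set (∀ i, Pt (a i : ℚ) (b i : ℚ)) := {P | (∀ i, hP (P i) ≤ B) ∧ Lift P} with hLB
  set UU : Finset (∀ i, Pt (a i : ℚ) (b i : ℚ)) := (Fintype.piFinset Sh).biUnion (fun σ =>
    (Nx j T).biUnion (fun n => ((Bx T).filter (fun m => Lift (ptb a b j (fun i => e₁ i 0) e₃ σ n m))).image
      (fun m => ptb a b j (fun i => e₁ i 0) e₃ σ n m))) with hUU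
  have hLU : LB ⊆ (UU : Set _) := by
    rintro P ⟨hPB, hPw⟩
    have hle : ∀ (c' : ℝ), 0 ≤ c' → c' ≤ c → ∀ i, c' * √(hP (P i) + 1) ≤ T₁ := by
      intro c' hc'0 hc' i
      refine le_trans ?_ (Nat.le_ceil (c * √(B + 1)))
      refine mul_le_mul hc' ?_ (Real.sqrt_nonneg _) (by linarith)
      apply Real.sqrt_le_sqrt
      linarith [hPB i]
    choose σ₁ hσ₁ n₁ hn₁ hP₁ using fun i => hSh₁ i (P i) (hle (c₁ i) (hc1 i) (hcc i) i)
    obtain ⟨σ₃, hσ₃, m, hm, hP₃⟩ := hSh₃ (P j) (hle c₃ (by linarith) hcc3 j)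
    set σ := Function.update σ₁ j σ₃ with hσ
    set n : Fin r → ℕ := fun i => if i = j then 0 else n₁ i 0 with hn
    have hpt : ptb a b j (fun i => e₁ i 0) e₃ σ n m = P := by
      funext i
      unfold ptb
      by_cases hij : i = j
      · subst hij
        rw [Function.update_self, hσ, Function.update_self]
        exact hP₃.symm
      · rw [Function.update_of_ne hij, hσ, Function.update_of_ne hij, hn]
        simp only
        rw [if_neg hij]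
        have h1 := hP₁ i
        rw [Fin.sum_univ_one] at h1
        exact h1.symm
    rw [mem_coe, hUU, mem_biUnion]
    refine ⟨σ, ?_, ?_⟩
    · rw [Fintype.mem_piFinset]
      intro i
      by_cases hij : i = j
      · subst hij
        rw [hSh, hσ, Function.update_self, Function.update_self]
        exact hσ₃
      · rw [hSh, hσ, Function.update_of_ne hij, Function.update_of_ne hij]
        exact hσ₁ i
    · rw [mem_biUnion]
      refine ⟨n, ?_, ?_⟩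
      · rw [Nx, Fintype.mem_piFinset]
        intro i
        rw [hn, mem_range]
        simp only
        by_cases hij : i = j
        · rw [if_pos hij, if_pos hij]; exact Nat.one_pos
        · rw [if_neg hij, if_neg hij]; exact hn₁ i 0
      · rw [mem_image]
        refine ⟨m, ?_, hpt⟩
        rw [mem_filter, Bx, Fintype.mem_piFinset]
        refine ⟨fun k => mem_range.2 (hm k), ?_⟩
        rw [hpt]
        exact hPw
  have h1 : (LB.ncard : ℝ) ≤ (UU.card : ℝ) := by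
    have h2 := Set.ncard_le_ncard hLU (Finset.finite_toSet _)
    rw [Set.ncard_coe_finset] at h2
    exact_mod_cast h2
  have h2 : (UU.card : ℝ) ≤ ((Fintype.piFinset Sh).card : ℝ) *
      (CC * ((T : ℝ) ^ (r - 1) * (T : ℝ) ^ 3 * (T : ℝ) ^ (-(1 / 150) : ℝ))) := by
    have h3 : UU.card ≤ ∑ σ ∈ Fintype.piFinset Sh, ∑ n ∈ Nx j T,
        ((Bx T).filter (fun m => Lift (ptb a b j (fun i => e₁ i 0) e₃ σ n m))).card := by
      refine card_biUnion_le.trans (sum_le_sum fun σ _ => ?_)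
      exact card_biUnion_le.trans (sum_le_sum fun n _ => card_image_le)
    have h4 : (UU.card : ℝ) ≤ ∑ σ ∈ Fintype.piFinset Sh, ∑ n ∈ Nx j T,
        (((Bx T).filter (fun m => Lift (ptb a b j (fun i => e₁ i 0) e₃ σ n m))).card : ℝ) := by
      exact_mod_cast h3
    refine h4.trans ?_
    have h5 : ∀ σ ∈ Fintype.piFinset Sh, ∑ n ∈ Nx j T, (((Bx T).filter (fun m => Lift (ptb a b j (fun i => e₁ i 0) e₃ σ n m))).card : ℝ) ≤
        CC * ((T : ℝ) ^ (r - 1) * (T : ℝ) ^ 3 * (T : ℝ) ^ (-(1 / 150) : ℝ)) := by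
      intro σ _
      refine le_trans (le_of_eq ?_) (hcore T hT1 σ)
      refine sum_congr rfl fun n _ => ?_
      congr!
    refine (sum_le_sum h5).trans ?_
    rw [sum_const, nsmul_eq_mul]
  have h3 : ((Fintype.piFinset Sh).card : ℝ) ≤
      C₄ * ∏ i, (T : ℝ) ^ (ρ i - (if i = j then 3 else 1)) := by
    rw [Fintype.card_piFinset]
    push_cast
    have h4 : ∀ i, ((Sh i).card : ℝ) ≤ (if i = j then C₃ else C₁ i) *
        (T : ℝ) ^ (ρ i - (if i = j then 3 else 1)) := by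
      intro i
      by_cases hij : i = j
      · subst hij
        rw [hSh, Function.update_self, if_pos rfl, if_pos rfl]
        exact hSh₃c
      · rw [hSh, Function.update_of_ne hij, if_neg hij, if_neg hij]
        exact hSh₁c i
    refine (prod_le_prod (fun i _ => Nat.cast_nonneg _) fun i _ => h4 i).trans ?_
    rw [prod_mul_distrib]
    refine mul_le_mul_of_nonneg_right ?_ (prod_nonneg fun i _ => by positivity)
    rw [hC₄, ← mul_prod_erase (univ : Finset (Fin r)) _ (mem_univ j), if_pos rfl]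
    refine mul_le_mul_of_nonneg_left ?_ hC₃
    rw [← mul_prod_erase (univ : Finset (Fin r)) (fun i => C₁ i + 1) (mem_univ j)]
    have h5 : ∏ i ∈ univ.erase j, (if i = j then C₃ else C₁ i) ≤ ∏ i ∈ univ.erase j, (C₁ i + 1) := by
      refine prod_le_prod (fun i hi => ?_) fun i hi => ?_
      · rw [if_neg (mem_erase.1 hi).1]; exact hC₁ i
      · rw [if_neg (mem_erase.1 hi).1]; linarith
    refine h5.trans (le_mul_of_one_le_left (prod_nonneg fun i _ => by linarith [hC₁ i]) ?_)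
    linarith [hC₁ j]
  have h4 : (LB.ncard : ℝ) ≤ C₄ * CC * ((∏ i, (T : ℝ) ^ ρ i) * (T : ℝ) ^ (-(1 / 150) : ℝ)) := by
    refine h1.trans (h2.trans ?_)
    refine (mul_le_mul_of_nonneg_right h3 (by positivity)).trans (le_of_eq ?_)
    rw [← prod_pow_sub j ρ hrk hrj (T : ℝ)]
    ring
  -- powers of B
  have h5 : (∏ i, (T : ℝ) ^ ρ i) ≤ K ^ (∑ i, ρ i) * ∏ i, B ^ ((ρ i : ℝ) / 2) := by
    rw [prod_pow_eq_pow_sum]
    refine (pow_le_pow_left₀ hT0.le hTK _).trans (le_of_eq ?_)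
    rw [mul_pow]
    congr 1
    rw [← prod_pow_eq_pow_sum]
    refine prod_congr rfl fun i _ => ?_
    rw [Real.sqrt_eq_rpow, ← Real.rpow_natCast, ← Real.rpow_mul hB0.le]
    congr 1
    ring
  have h6 : (T : ℝ) ^ (-(1 / 150) : ℝ) ≤ B ^ (-(1 / 300) : ℝ) := by
    have h7 : (T : ℝ) ^ (-(1 / 150) : ℝ) ≤ (√B) ^ (-(1 / 150) : ℝ) :=
      Real.rpow_le_rpow_of_nonpos (by linarith) hTB (by norm_num)
    refine h7.trans (le_of_eq ?_)
    rw [Real.sqrt_eq_rpow, ← Real.rpow_mul hB0.le]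
    norm_num
  have h7 : (∏ i, c₀ i) * ∏ i, B ^ ((ρ i : ℝ) / 2) ≤ ((AB a b B).ncard : ℝ) := by
    rw [AB_card, ← prod_mul_distrib]
    push_cast
    refine prod_le_prod (fun i _ => mul_nonneg (hc₀ i).le (by positivity)) fun i _ => ?_
    exact hlow i B hB0.le (northcott B)
  have hc0p : 0 < ∏ i, c₀ i := prod_pos fun i _ => hc₀ i
  calc (LB.ncard : ℝ) ≤ C₄ * CC * ((∏ i, (T : ℝ) ^ ρ i) * (T : ℝ) ^ (-(1 / 150) : ℝ)) := h4
    _ ≤ C₄ * CC * ((K ^ (∑ i, ρ i) * ∏ i, B ^ ((ρ i : ℝ) / 2)) * B ^ (-(1 / 300) : ℝ)) := by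
        refine mul_le_mul_of_nonneg_left ?_ (by positivity)
        exact mul_le_mul h5 h6 (by positivity) (by positivity)
    _ = C₄ * CC * K ^ (∑ i, ρ i) / (∏ i, c₀ i) *
        (B ^ (-(1 / 300) : ℝ) * ((∏ i, c₀ i) * ∏ i, B ^ ((ρ i : ℝ) / 2))) := by
        field_simp
    _ ≤ _ := by
        refine mul_le_mul_of_nonneg_left ?_ (by positivity)
        exact mul_le_mul_of_nonneg_left h7 (by positivity)

/-- **The main theorem.** -/
theorem count_gen {r : ℕ} (a b : Fin r → ℤ) (Q : (∀ i, Pt (a i : ℚ) (b i : ℚ)) → ℚ → Prop)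
    (N : ℕ) (hQ : ∀ P, {w : ℚ | Q P w}.Finite ∧ {w : ℚ | Q P w}.ncard ≤ N) (C : ℝ) (hC : 0 ≤ C)
    (hmain : ∀ B : ℝ, 1 ≤ B →
      ({P : ∀ i, Pt (a i : ℚ) (b i : ℚ) | (∀ i, hP (P i) ≤ B) ∧ ∃ w : ℚ, Q P w}.ncard : ℝ) ≤
      C * (B ^ (-(1 / 300) : ℝ) * ((AB a b B).ncard : ℝ))) :
    ∃ C : ℝ, 0 < C ∧ ∀ B : ℝ, 1 ≤ B → (AB a b B).Finite ∧
      {z : (∀ i, Pt (a i : ℚ) (b i : ℚ)) × ℚ | (∀ i, hP (z.1 i) ≤ B) ∧
        Q z.1 z.2}.Finite ∧
      ({z : (∀ i, Pt (a i : ℚ) (b i : ℚ)) × ℚ | (∀ i, hP (z.1 i) ≤ B) ∧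
        Q z.1 z.2}.ncard : ℝ) ≤
      C * (B ^ (-(1 / 300) : ℝ) * ((AB a b B).ncard : ℝ)) := by
  classical
  refine ⟨N * C + 1, by positivity, ?_⟩
  intro B hB
  have hB0 : 0 < B := by linarith
  set Z := {z : (∀ i, Pt (a i : ℚ) (b i : ℚ)) × ℚ | (∀ i, hP (z.1 i) ≤ B) ∧
        Q z.1 z.2} with hZ
  set LB : Set (∀ i, Pt (a i : ℚ) (b i : ℚ)) := {P | (∀ i, hP (P i) ≤ B) ∧
        ∃ w : ℚ, Q P w} with hLB
  have hLBf : LB.Finite := (AB_finite a b B).subset fun P hP => hP.1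
  set U : Finset ((∀ i, Pt (a i : ℚ) (b i : ℚ)) × ℚ) := hLBf.toFinset.biUnion (fun P =>
    ((hQ P).1.toFinset).image
      (fun w => (P, w))) with hU
  have hZU : Z ⊆ (U : Set _) := by
    rintro ⟨P, w⟩ ⟨h1, h2⟩
    rw [mem_coe, hU, mem_biUnion]
    refine ⟨P, ?_, ?_⟩
    · rw [Set.Finite.mem_toFinset]
      exact ⟨h1, w, h2⟩
    · rw [mem_image]
      refine ⟨w, ?_, rfl⟩
      rw [Set.Finite.mem_toFinset]
      exact h2
  have hUf : (U : Set ((∀ i, Pt (a i : ℚ) (b i : ℚ)) × ℚ)).Finite := Finset.finite_toSet U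
  refine ⟨AB_finite a b B, hUf.subset hZU, ?_⟩
  have h1 : Z.ncard ≤ U.card := by
    have h2 := Set.ncard_le_ncard hZU hUf
    rwa [Set.ncard_coe_finset] at h2
  have h2 : U.card ≤ LB.ncard * N := by
    refine card_biUnion_le.trans ?_
    refine (sum_le_card_nsmul _ _ N ?_).trans ?_
    · intro P _
      refine card_image_le.trans ?_
      have h3 := (hQ P).2
      rwa [Set.ncard_eq_toFinset_card _ (hQ P).1] at h3
    · rw [smul_eq_mul, Set.ncard_eq_toFinset_card _ hLBf]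
  have h3 : (Z.ncard : ℝ) ≤ LB.ncard * N := by exact_mod_cast h1.trans h2
  have h4 := hmain B hB
  have h5 : (0 : ℝ) ≤ B ^ (-(1 / 300) : ℝ) * ((AB a b B).ncard : ℝ) := by positivity
  calc (Z.ncard : ℝ) ≤ LB.ncard * N := h3
    _ ≤ (C * (B ^ (-(1 / 300) : ℝ) * ((AB a b B).ncard : ℝ))) * N :=
        mul_le_mul_of_nonneg_right h4 (Nat.cast_nonneg _)
    _ ≤ _ := by
        rw [add_mul, one_mul]
        have : (C * (B ^ (-(1 / 300) : ℝ) * ((AB a b B).ncard : ℝ))) * N =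
            N * C * (B ^ (-(1 / 300) : ℝ) * ((AB a b B).ncard : ℝ)) := by ring
        linarith

end Pool.Agent.K9h5.T
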