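import Mathlib
import Pool.Agent.K9h5.T.Plc

/-!
# Translations and full monodromy
-/

set_option autoImplicit false
set_option linter.all false

namespace Pool.Agent.K9h5.T

open Polynomial Finset Pool.Agent.K9h5 Pool.Agent.H901R3.MS WeierstrassCurve

/-- base change of points -/
theorem baseChange2 {F K : Type} [Field F] [Field K] [DecidableEq F] [DecidableEq K] (ι : F →+* K)
    (a b : F) (a' b' : K) (ha : ι a = a') (hb : ι b = b') (hD : Disc a' b') :
    ∃ red : Pt a b →+ Pt a' b',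
      ∀ (x y : F) (h : (CV a b).toAffine.Nonsingular x y),
        ∃ g : (CV a' b').toAffine.Nonsingular (ι x) (ι y),
          red (Affine.Point.some x y h) = Affine.Point.some (ι x) (ι y) g := by
  subst ha hb
  exact baseChange ι a b hD

theorem evQ_comp {S K L : Type} [CommRing S] [CommRing K] [CommRing L] (ι : S →+* K) (ψ : K →+* L)
    (a b : S) (x y : K) (h : y ^ 2 = x ^ 3 + ι a * x + ι b)
    (h' : (ψ y) ^ 2 = (ψ x) ^ 3 + (ψ.comp ι) a * (ψ x) + (ψ.comp ι) b) (z : QA S a b) :
    ψ (evQ ι a b x y h z) = evQ (ψ.comp ι) a b (ψ x) (ψ y) h' z := by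
  rw [evQ_apply, evQ_apply, map_add, map_mul, hom_eval₂, hom_eval₂]

section

variable {K : Type} [Field K] (a b : K)

/-- constants of the function field -/
noncomputable def kF : K →+* FE a b := (algebraMap (QA K a b) (FE a b)).comp
  ((algebraMap K[X] (QA K a b)).comp C)

noncomputable def xF : FE a b := algebraMap (QA K a b) (FE a b) (qx K a b)

noncomputable def yF : FE a b := algebraMap (QA K a b) (FE a b) (qy K a b)

theorem eqn_F : (yF a b) ^ 2 = (xF a b) ^ 3 + kF a b a * xF a b + kF a b b := by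
  apply (algebraMap (FE a b) (Om a b)).injective
  have h1 := eqn_O a b
  simp only [map_add, map_mul, map_pow]
  exact h1

theorem algF_eq (z : QA K a b) : algebraMap (QA K a b) (FE a b) z =
    evQ (kF a b) a b (xF a b) (yF a b) (eqn_F a b) z := by
  rw [evQ_apply]
  conv_lhs => rw [QA_decomp a b z]
  rw [map_add, map_mul]
  have h1 : ∀ p : K[X], algebraMap (QA K a b) (FE a b) (algebraMap K[X] (QA K a b) p) =
      p.eval₂ (kF a b) (xF a b) := by
    intro p
    have h2 : ((algebraMap (QA K a b) (FE a b)).comp (algebraMap K[X] (QA K a b))) =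
        eval₂RingHom (kF a b) (xF a b) := by
      apply Polynomial.ringHom_ext
      · intro z
        rw [coe_eval₂RingHom, eval₂_C]
        rfl
      · rw [coe_eval₂RingHom, eval₂_X]
        rfl
    exact congrArg (fun g => g p) h2
  rw [h1, h1]
  rfl

theorem xF_nonconst (u : K) : xF a b ≠ kF a b u := by
  intro h
  have h1 : qx K a b = algebraMap K[X] (QA K a b) (C u) := IsFractionRing.injective (QA K a b) (FE a b) h
  have h2 := congrArg QuadraticAlgebra.re h1
  rw [algebraMap_QA] at h2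
  have h3 : (X : K[X]) = C u := h2
  have h4 := congrArg (fun p => p.coeff 1) h3
  simp at h4

end

section

variable {K : Type} [Field K] [IsAlgClosed K] {a b : K}

/-- **Translations act on the function field.** -/
theorem transl [DecidableEq K] [DecidableEq (FE a b)] (hD : Disc a b)
    (red : Pt a b →+ Pt (kF a b a) (kF a b b))
    (hred : ∀ (x y : K) (h : (CV a b).toAffine.Nonsingular x y),
        ∃ g : (CV (kF a b a) (kF a b b)).toAffine.Nonsingular (kF a b x) (kF a b y),
          red (Affine.Point.some x y h) = Affine.Point.some (kF a b x) (kF a b y) g)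
    (hG : (CV (kF a b a) (kF a b b)).toAffine.Nonsingular (xF a b) (yF a b))
    (c : Pt a b) :
    ∃ (U V : FE a b) (h : (CV (kF a b a) (kF a b b)).toAffine.Nonsingular U V)
      (h' : V ^ 2 = U ^ 3 + kF a b a * U + kF a b b) (τ : FE a b ≃+* FE a b),
      (Affine.Point.some (xF a b) (yF a b) hG + red c : Pt (kF a b a) (kF a b b)) =
        Affine.Point.some U V h ∧ (∀ u, U ≠ kF a b u) ∧
      ∀ z : QA K a b, τ (algebraMap (QA K a b) (FE a b) z) = evQ (kF a b) a b U V h' z := by
  have hDF : Disc (kF a b a) (kF a b b) := disc_map (kF a b) hD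
  -- the homomorphisms
  have hom : ∀ c : Pt a b, ∃ (U V : FE a b)
      (h : (CV (kF a b a) (kF a b b)).toAffine.Nonsingular U V)
      (h' : V ^ 2 = U ^ 3 + kF a b a * U + kF a b b) (τ : FE a b →+* FE a b),
      (Affine.Point.some (xF a b) (yF a b) hG + red c : Pt (kF a b a) (kF a b b)) =
        Affine.Point.some U V h ∧ (∀ u, U ≠ kF a b u) ∧
      ∀ z : QA K a b, τ (algebraMap (QA K a b) (FE a b) z) = evQ (kF a b) a b U V h' z := by
    intro c
    obtain ⟨U, V, h, hs, hU⟩ := nonconst (kF a b) hD red hred (xF a b) (yF a b) hG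
      (xF_nonconst a b) c
    have h' : V ^ 2 = U ^ 3 + kF a b a * U + kF a b b := eqn_of h
    exact ⟨U, V, h, h', IsFractionRing.lift (inj_ev (kF a b) U V h' hU), hs, hU,
      fun z => IsFractionRing.lift_algebraMap _ z⟩
  have hinv : ∀ (c : Pt a b) (U V : FE a b)
      (h : (CV (kF a b a) (kF a b b)).toAffine.Nonsingular U V)
      (h' : V ^ 2 = U ^ 3 + kF a b a * U + kF a b b) (τ : FE a b →+* FE a b),
      (Affine.Point.some (xF a b) (yF a b) hG + red c : Pt (kF a b a) (kF a b b)) =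
        Affine.Point.some U V h →
      (∀ z : QA K a b, τ (algebraMap (QA K a b) (FE a b) z) = evQ (kF a b) a b U V h' z) →
      ∀ (U₂ V₂ : FE a b)
      (h₂ : (CV (kF a b a) (kF a b b)).toAffine.Nonsingular U₂ V₂)
      (h₂' : V₂ ^ 2 = U₂ ^ 3 + kF a b a * U₂ + kF a b b) (τ₂ : FE a b →+* FE a b),
      (Affine.Point.some (xF a b) (yF a b) hG + red (-c) : Pt (kF a b a) (kF a b b)) =
        Affine.Point.some U₂ V₂ h₂ →
      (∀ z : QA K a b, τ₂ (algebraMap (QA K a b) (FE a b) z) = evQ (kF a b) a b U₂ V₂ h₂' z) →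
      τ₂.comp τ = RingHom.id _ := by
    intro c U V h h' τ hs hτ U₂ V₂ h₂ h₂' τ₂ hs₂ hτ₂
    have hk : ∀ u : K, τ₂ (kF a b u) = kF a b u := by
      intro u
      show τ₂ (algebraMap (QA K a b) (FE a b) (algebraMap K[X] (QA K a b) (C u))) = _
      rw [hτ₂, algebraMap_QA, evQ_apply]
      simp
    have hx : τ₂ (xF a b) = U₂ := by
      unfold xF
      rw [hτ₂, evQ_apply]
      simp [qx]
    have hy : τ₂ (yF a b) = V₂ := by
      unfold yF
      rw [hτ₂, evQ_apply]
      simp [qy]
    obtain ⟨red₂, hred₂⟩ := baseChange2 τ₂ (kF a b a) (kF a b b) (kF a b a) (kF a b b) (hk a) (hk b) hDF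
    have hrr : ∀ w : Pt a b, red₂ (red w) = red w := by
      intro w
      cases w with
      | zero =>
        have h0 : red (Affine.Point.zero : Pt a b) = 0 := map_zero red
        rw [h0, map_zero]
      | some x y hxy =>
        obtain ⟨g, hg⟩ := hred x y hxy
        obtain ⟨g', hg'⟩ := hred₂ _ _ g
        rw [hg, hg']
        simp only [Affine.Point.some.injEq]
        exact ⟨hk x, hk y⟩
    obtain ⟨g₁, hg₁⟩ := hred₂ _ _ hG
    obtain ⟨g₂, hg₂⟩ := hred₂ _ _ h
    have h1 : (Affine.Point.some (τ₂ U) (τ₂ V) g₂ : Pt (kF a b a) (kF a b b)) =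
        Affine.Point.some (xF a b) (yF a b) hG := by
      rw [← hg₂, ← hs, map_add, hrr, hg₁]
      have h2 : (Affine.Point.some (τ₂ (xF a b)) (τ₂ (yF a b)) g₁ : Pt (kF a b a) (kF a b b)) =
          Affine.Point.some U₂ V₂ h₂ := by
        simp only [Affine.Point.some.injEq]
        exact ⟨hx, hy⟩
      rw [h2, ← hs₂, map_neg]
      abel
    simp only [Affine.Point.some.injEq] at h1
    obtain ⟨hU1, hV1⟩ := h1
    apply IsFractionRing.ringHom_ext (A := QA K a b)
    intro z
    rw [RingHom.comp_apply, hτ, RingHom.id_apply]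
    have e1 : τ₂.comp (kF a b) = kF a b := RingHom.ext hk
    have h3 : (τ₂ V) ^ 2 = (τ₂ U) ^ 3 + (τ₂.comp (kF a b)) a * (τ₂ U) + (τ₂.comp (kF a b)) b := by
      have := congrArg τ₂ h'
      simp only [map_add, map_mul, map_pow] at this
      exact this
    rw [evQ_comp (kF a b) τ₂ a b U V h' h3, algF_eq, evQ_apply, evQ_apply, e1, hU1, hV1]
  obtain ⟨U, V, h, h', τ, hs, hU, hτ⟩ := hom c
  obtain ⟨U₂, V₂, h₂, h₂', τ₂, hs₂, hU₂, hτ₂⟩ := hom (-c)
  have e1 := hinv c U V h h' τ hs hτ U₂ V₂ h₂ h₂' τ₂ hs₂ hτ₂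
  have e2 := hinv (-c) U₂ V₂ h₂ h₂' τ₂ hs₂ hτ₂ U V h h' τ (by rw [neg_neg]; exact hs) hτ
  exact ⟨U, V, h, h', RingEquiv.ofRingHom τ τ₂ e2 e1, hs, hU, hτ⟩

/-- **Full monodromy is invariant under translations.** -/
theorem full_transl (hD : Disc a b) {n d : ℕ} (Φ : Fin n → MvPolynomial (Fin 3) K)
    (hΦ : ∀ k, (Φ k).IsHomogeneous (((k : ℕ) + 1) * d))
    {x₁ y₁ x₂ y₂ : K} (h₁ : (CV a b).toAffine.Nonsingular x₁ y₁)
    (h₂ : (CV a b).toAffine.Nonsingular x₂ y₂)
    (hF : Full1 a b (fun k => phi a b (Φ k) x₁ y₁)) :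
    Full1 a b (fun k => phi a b (Φ k) x₂ y₂) := by
  classical
  have hDF : Disc (kF a b a) (kF a b b) := disc_map (kF a b) hD
  obtain ⟨red, hred⟩ := baseChange (kF a b) a b hDF
  have hG : (CV (kF a b a) (kF a b b)).toAffine.Nonsingular (xF a b) (yF a b) :=
    (nonsingular_iff hDF).2 (eqn_F a b)
  obtain ⟨U, V, h, h', τ, hs, hU, hτ⟩ := transl hD red hred hG
    (Affine.Point.some x₂ y₂ h₂ - Affine.Point.some x₁ y₁ h₁)
  obtain ⟨α, hα⟩ := lift_FE a b τ
  obtain ⟨g₁, hg₁⟩ := hred x₁ y₁ h₁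
  obtain ⟨g₂, hg₂⟩ := hred x₂ y₂ h₂
  have heq : (Affine.Point.some (kF a b x₂) (kF a b y₂) g₂ +
      Affine.Point.some (xF a b) (yF a b) hG : Pt (kF a b a) (kF a b b)) =
      Affine.Point.some (kF a b x₁) (kF a b y₁) g₁ + Affine.Point.some U V h := by
    rw [← hs, ← hg₁, ← hg₂, map_sub]
    abel
  have hx2 : xF a b ≠ kF a b x₂ := xF_nonconst a b _
  have hU1 : U ≠ kF a b x₁ := hU _
  set s : FE a b := (((xF a b - kF a b x₂) / (U - kF a b x₁)) ^ 3) ^ d with hsdef
  have hs0 : s ≠ 0 := by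
    rw [hsdef]
    exact pow_ne_zero _ (pow_ne_zero _ (div_ne_zero (sub_ne_zero.2 hx2) (sub_ne_zero.2 hU1)))
  have hval : ∀ k, jO a b (phi a b (Φ k) x₂ y₂) = (algebraMap (FE a b) (Om a b) s) ^ ((k : ℕ) + 1) *
      α (jO a b (phi a b (Φ k) x₁ y₁)) := by
    intro k
    have h3 := val_rel (kF a b) (Φ k) (hΦ k) g₂ hG g₁ h hx2 hU1 heq
    have hpw : (((xF a b - kF a b x₂) / (U - kF a b x₁)) ^ 3) ^ (((k : ℕ) + 1) * d) =
        s ^ ((k : ℕ) + 1) := by
      rw [hsdef, ← pow_mul (((xF a b - kF a b x₂) / (U - kF a b x₁)) ^ 3) d, mul_comm d]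
    rw [hpw, ← evQ_phi (kF a b) a b (xF a b) (yF a b) (eqn_F a b),
      ← evQ_phi (kF a b) a b U V h', ← algF_eq, ← hτ] at h3
    have h4 := congrArg (algebraMap (FE a b) (Om a b)) h3
    rw [map_mul, map_pow, ← hα] at h4
    exact h4
  obtain ⟨w, hw, hwi, hπ⟩ := hF
  have hs0' : algebraMap (FE a b) (Om a b) s ≠ 0 := by
    rw [Ne, map_eq_zero_iff _ (algebraMap (FE a b) (Om a b)).injective]
    exact hs0
  refine ⟨fun j => algebraMap (FE a b) (Om a b) s * α (w j), ?_, ?_, ?_⟩
  · have h3 : pol (fun k => α (jO a b (phi a b (Φ k) x₁ y₁))) = ∏ j, (X - C (α (w j))) := by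
      have := congrArg (fun P => P.map (α : Om a b →+* Om a b)) hw
      simp only [pol_map, Polynomial.map_prod, Polynomial.map_sub, map_X, map_C] at this
      exact this
    rw [← scale_split _ _ _ hs0' h3]
    congr 1
    funext k
    exact hval k
  · intro j j' hjj
    exact hwi (α.injective (mul_left_cancel₀ hs0' hjj))
  · intro π
    obtain ⟨σ, h3, h4⟩ := hπ π
    have hσF : ∀ z : FE a b, σ (algebraMap (FE a b) (Om a b) z) = algebraMap (FE a b) (Om a b) z := by
      intro z
      have e1 : (σ : Om a b →+* Om a b).comp (algebraMap (FE a b) (Om a b)) =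
          algebraMap (FE a b) (Om a b) := by
        apply IsFractionRing.ringHom_ext (A := QA K a b)
        intro z
        exact h3 z
      exact congrArg (fun g => g z) e1
    have hσα : ∀ z : FE a b, α (σ (α.symm (algebraMap (FE a b) (Om a b) z))) =
        algebraMap (FE a b) (Om a b) z := by
      intro z
      have e1 : α.symm (algebraMap (FE a b) (Om a b) z) = algebraMap (FE a b) (Om a b) (τ.symm z) := by
        rw [RingEquiv.symm_apply_eq, hα, RingEquiv.apply_symm_apply]
      rw [e1, hσF, hα, RingEquiv.apply_symm_apply]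
    refine ⟨(α.symm.trans σ).trans α, fun z => hσα _, fun j => ?_⟩
    show α (σ (α.symm (algebraMap (FE a b) (Om a b) s * α (w j)))) = _
    rw [map_mul, map_mul, map_mul, hσα, RingEquiv.symm_apply_apply, h4]

end

end Pool.Agent.K9h5.T
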