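import Mathlib
import Pool.Agent.K9h5.T.Tns

/-!
# The weights attached to the number of roots
-/

set_option autoImplicit false
set_option linter.all false

namespace Pool.Agent.K9h5.T

open Polynomial Finset Pool.Agent.K9h5 Pool.Agent.H901R3.MS WeierstrassCurve

section weights

variable {F : Type} [Field F] [Finite F] {a b : F} {n : ℕ}

/-- the number of points above `u` -/
noncomputable def fN (Φ : Fin n → MvPolynomial (Fin 3) F) (u : Pt a b) : ℕ :=
  nr (pol (fun k => Gv (Φ k) u))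

/-- the weight -/
noncomputable def gN (Φ : Fin n → MvPolynomial (Fin 3) F) (u : Pt a b) : ℝ :=
  (((fN Φ u : ℝ) - 1) * (n - fN Φ u) + 1) / (n : ℝ) ^ 2

theorem fN_le (Φ : Fin n → MvPolynomial (Fin 3) F) (u : Pt a b) : fN Φ u ≤ n := by
  unfold fN
  refine (nr_le _ (pol_monic _).ne_zero).trans ?_
  rw [pol_natDegree]

theorem gN_abs_le (hn : 1 ≤ n) (Φ : Fin n → MvPolynomial (Fin 3) F) (u : Pt a b) :
    |gN Φ u| ≤ 1 := by
  unfold gN
  have h1 : ((fN Φ u : ℕ) : ℝ) ≤ n := by exact_mod_cast fN_le Φ u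
  have h2 : (0 : ℝ) ≤ fN Φ u := Nat.cast_nonneg _
  have h3 : (1 : ℝ) ≤ n := by exact_mod_cast hn
  rw [abs_div, abs_of_nonneg (by positivity : (0 : ℝ) ≤ (n : ℝ) ^ 2), div_le_one (by positivity),
    abs_le]
  constructor <;> nlinarith

theorem gN_ge (hn : 1 ≤ n) (Φ : Fin n → MvPolynomial (Fin 3) F) (u : Pt a b) (h : 1 ≤ fN Φ u) :
    1 / (n : ℝ) ^ 2 ≤ gN Φ u := by
  unfold gN
  have h1 : ((fN Φ u : ℕ) : ℝ) ≤ n := by exact_mod_cast fN_le Φ u
  have h2 : (1 : ℝ) ≤ fN Φ u := by exact_mod_cast h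
  have h3 : (1 : ℝ) ≤ n := by exact_mod_cast hn
  apply div_le_div_of_nonneg_right _ (by positivity)
  nlinarith

/-- a root gives a point -/
theorem fN_pos (Φ : Fin n → MvPolynomial (Fin 3) F) (u : Pt a b) (z : F)
    (hz : (pol (fun k => Gv (Φ k) u)).eval z = 0) : 1 ≤ fN Φ u := by
  unfold fN nr
  haveI : Nonempty {z : F // (pol (fun k => Gv (Φ k) u)).eval z = 0} := ⟨⟨z, hz⟩⟩
  exact Nat.card_pos

/-- the coefficients -/
def kap (n : ℕ) : Fin 3 → ℝ := ![1 - (n : ℝ), n, -1]

theorem gN_exp (hn : 1 ≤ n) (Φ : Fin n → MvPolynomial (Fin 3) F) (u : Pt a b) :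
    (n : ℝ) ^ 2 * gN Φ u = ∑ e : Fin 3, kap n e * ((fN Φ u).descFactorial (e : ℕ) : ℝ) := by
  have h3 : (1 : ℝ) ≤ n := by exact_mod_cast hn
  rw [Fin.sum_univ_three]
  have e2 : ((fN Φ u).descFactorial 2 : ℝ) = (fN Φ u : ℝ) * ((fN Φ u : ℝ) - 1) := by
    rcases Nat.eq_zero_or_pos (fN Φ u) with h | h
    · rw [h]; simp
    · rw [Nat.descFactorial_succ, Nat.descFactorial_one]
      push_cast [Nat.cast_sub h]
      ring
  unfold gN kap
  simp only [Fin.val_zero, Nat.descFactorial_zero, Matrix.cons_val_zero, Fin.val_one,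
    Nat.descFactorial_one, Matrix.cons_val_one, Fin.val_two, Matrix.cons_val]
  rw [e2, mul_div_cancel₀ _ (by positivity : ((n : ℝ) ^ 2) ≠ 0)]
  push_cast
  ring

theorem kap_sum : ∑ e : Fin 3, kap n e = 0 := by
  rw [Fin.sum_univ_three]
  unfold kap
  simp

theorem kap_abs (hn : 1 ≤ n) (e : Fin 3) : |kap n e| ≤ n := by
  have h3 : (1 : ℝ) ≤ n := by exact_mod_cast hn
  unfold kap
  fin_cases e
  · simp only [Fin.zero_eta, Matrix.cons_val_zero]
    rw [abs_le]
    constructor <;> linarith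
  · simp
  · simp [h3]

end weights

section points

variable {F : Type} [Field F] [Fintype F] [DecidableEq F]

/-- scaling does not change the number of roots -/
theorem nr_scale {n : ℕ} (c : Fin n → F) (s : F) (hs : s ≠ 0) :
    nr (pol (fun k => s ^ ((k : ℕ) + 1) * c k)) = nr (pol c) := by
  have key : ∀ z : F, (pol (fun k => s ^ ((k : ℕ) + 1) * c k)).eval (s * z) =
      s ^ n * (pol c).eval z := by
    intro z
    unfold pol
    simp only [eval_add, eval_pow, eval_X, eval_finset_sum, eval_mul, eval_C]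
    rw [mul_add, mul_pow, mul_sum]
    congr 1
    refine sum_congr rfl fun k _ => ?_
    have hk := k.2
    have h2 : s ^ n = s ^ ((k : ℕ) + 1) * s ^ (n - 1 - (k : ℕ)) := by
      rw [← pow_add]; congr 1; omega
    rw [h2, mul_pow]
    ring
  unfold nr
  symm
  apply Nat.card_congr
  refine ⟨fun z => ⟨s * z.1, by rw [key, z.2, mul_zero]⟩, fun z => ⟨s⁻¹ * z.1, ?_⟩, ?_, ?_⟩
  · have h1 := key (s⁻¹ * z.1)
    rw [← mul_assoc, mul_inv_cancel₀ hs, one_mul, z.2] at h1
    exact (mul_eq_zero.1 h1.symm).resolve_left (pow_ne_zero _ hs)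
  · intro z
    apply Subtype.ext
    show s⁻¹ * (s * z.1) = z.1
    rw [← mul_assoc, inv_mul_cancel₀ hs, one_mul]
  · intro z
    apply Subtype.ext
    show s * (s⁻¹ * z.1) = z.1
    rw [← mul_assoc, mul_inv_cancel₀ hs, one_mul]

open Classical in
/-- the point with given coordinates -/
noncomputable def pz (a b : F) (z : F × F) : Pt a b :=
  if h : (CV a b).toAffine.Nonsingular z.1 z.2 then Affine.Point.some z.1 z.2 h
  else Affine.Point.zero

theorem pz_some {a b : F} (z : F × F) (h : (CV a b).toAffine.Nonsingular z.1 z.2) :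
    pz a b z = Affine.Point.some z.1 z.2 h := by
  unfold pz
  rw [dif_pos h]

/-- sums over the points -/
theorem sum_Pt {a b : F} (hD : Disc a b) (T : Pt a b → ℕ) :
    ∑ u : Pt a b, T u = T Affine.Point.zero + ∑ z ∈ Sf (fE a b), T (pz a b z) := by
  classical
  have hns : ∀ z ∈ Sf (fE a b), (CV a b).toAffine.Nonsingular z.1 z.2 := by
    intro z hz
    apply (nonsingular_iff hD).2
    simp only [Sf, mem_filter, mem_univ, true_and] at hz
    rw [fE_eval] at hz
    exact hz
  have hinj : Set.InjOn (pz a b) (Sf (fE a b)) := by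
    intro z hz z' hz' h
    rw [pz_some z (hns z hz), pz_some z' (hns z' hz')] at h
    simp only [Affine.Point.some.injEq] at h
    exact Prod.ext h.1 h.2
  have h0 : (Affine.Point.zero : Pt a b) ∉ (Sf (fE a b)).image (pz a b) := by
    intro h
    obtain ⟨z, hz, h1⟩ := mem_image.1 h
    rw [pz_some z (hns z hz)] at h1
    cases h1
  have huniv : (univ : Finset (Pt a b)) = insert Affine.Point.zero ((Sf (fE a b)).image (pz a b)) := by
    ext u
    simp only [mem_univ, true_iff, mem_insert, mem_image]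
    cases u with
    | zero => left; rfl
    | some x y h =>
      right
      refine ⟨(x, y), ?_, pz_some (x, y) h⟩
      simp only [Sf, mem_filter, mem_univ, true_and]
      rw [fE_eval]
      exact eqn_of h
  rw [huniv, sum_insert h0, sum_image hinj]

/-- **The sum over the translates.** -/
theorem trans_sum {m n d : ℕ} {a b : F} (hD : Disc a b) (e : Fin m → ℕ)
    (Φ : Fin n → MvPolynomial (Fin 3) F)
    (hΦ : ∀ k, (Φ k).IsHomogeneous (((k : ℕ) + 1) * d)) (x y : Fin m → F)
    (hn : ∀ i, (CV a b).toAffine.Nonsingular (x i) (y i)) :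
    |((∑ u : Pt a b, ∏ i, (fN Φ (Affine.Point.some (x i) (y i) (hn i) + u)).descFactorial (e i) :
      ℕ) : ℝ) - TS e a b (fun i k => phi a b (Φ k) (x i) (y i))| ≤
      (2 * m + 1) * ∏ i, (n : ℝ) ^ (e i) := by
  classical
  set T : Pt a b → ℕ := fun u =>
    ∏ i, (fN Φ (Affine.Point.some (x i) (y i) (hn i) + u)).descFactorial (e i) with hT
  set M : ℝ := ∏ i, (n : ℝ) ^ (e i) with hM
  have hM0 : 0 ≤ M := by positivity
  have hTM : ∀ u, (T u : ℝ) ≤ M := by
    intro u
    have h1 : T u ≤ ∏ i, n ^ (e i) := by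
      rw [hT]
      apply Finset.prod_le_prod'
      intro i _
      exact descF_le (fN_le Φ _)
    rw [hM]
    exact_mod_cast h1
  set T' : F × F → ℕ := fun z => ∏ i, (nr (pol (fun k => vv (phi a b (Φ k) (x i) (y i)) z.1 z.2))).descFactorial
    (e i) with hT'
  have hT'M : ∀ z, (T' z : ℝ) ≤ M := by
    intro z
    have h1 := term_le e a b (fun i k => phi a b (Φ k) (x i) (y i)) z.1 z.2
    rw [hM]
    exact_mod_cast h1
  have hns : ∀ z ∈ Sf (fE a b), (CV a b).toAffine.Nonsingular z.1 z.2 := by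
    intro z hz
    apply (nonsingular_iff hD).2
    simp only [Sf, mem_filter, mem_univ, true_and] at hz
    rw [fE_eval] at hz
    exact hz
  have key : ∀ z ∈ Sf (fE a b), z.1 ∉ univ.image x → T (pz a b z) = T' z := by
    intro z hz hx
    rw [hT, hT']
    simp only
    refine prod_congr rfl fun i _ => ?_
    congr 1
    have hzn := hns z hz
    rw [pz_some z hzn]
    have hxi : z.1 ≠ x i := fun h => hx (mem_image.2 ⟨i, mem_univ i, h.symm⟩)
    have hE : z.2 ^ 2 = z.1 ^ 3 + (RingHom.id F) a * z.1 + (RingHom.id F) b := eqn_of hzn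
    have h1 : ∀ k, vv (phi a b (Φ k) (x i) (y i)) z.1 z.2 =
        (((z.1 - x i) ^ 3) ^ d) ^ ((k : ℕ) + 1) *
          Gv (Φ k) (Affine.Point.some (x i) (y i) (hn i) + Affine.Point.some z.1 z.2 hzn) := by
      intro k
      have h2 : vv (phi a b (Φ k) (x i) (y i)) z.1 z.2 =
          evQ (RingHom.id F) a b z.1 z.2 hE (phi a b (Φ k) (x i) (y i)) := by
        rw [evQ_apply, vv, eval₂_id, eval₂_id]
      rw [h2, evQ_phi]
      have h3 := eval_TV (Φ k) (hΦ k) (hn i) hzn hxi
      simp only [RingHom.id_apply]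
      rw [MvPolynomial.eval₂_id]
      rw [h3, Gv]
      congr 1
      rw [← pow_mul, ← pow_mul]
      congr 1
      ring
    unfold fN
    simp only [h1]
    rw [nr_scale _ _ (pow_ne_zero _ (pow_ne_zero _ (sub_ne_zero.2 hxi)))]
  rw [sum_Pt hD T]
  unfold TS
  push_cast
  have e1 : (T Affine.Point.zero : ℝ) + ∑ z ∈ Sf (fE a b), (T (pz a b z) : ℝ) -
      ∑ z ∈ Sf (fE a b), ∏ i, ((nr (pol (fun k => vv (phi a b (Φ k) (x i) (y i)) z.1 z.2))).descFactorial
        (e i) : ℝ) = T Affine.Point.zero + ∑ z ∈ Sf (fE a b), ((T (pz a b z) : ℝ) - T' z) := by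
    rw [sum_sub_distrib, hT']
    push_cast
    ring
  rw [e1]
  refine (abs_add_le _ _).trans ?_
  have h2 : |(T Affine.Point.zero : ℝ)| ≤ M := by
    rw [abs_of_nonneg (Nat.cast_nonneg _)]
    exact hTM _
  have h3 : |∑ z ∈ Sf (fE a b), ((T (pz a b z) : ℝ) - T' z)| ≤ 2 * m * M := by
    refine (abs_sum_le_sum_abs _ _).trans ?_
    have h4 : ∀ z ∈ Sf (fE a b), |((T (pz a b z) : ℝ) - T' z)| ≤
        if z.1 ∈ univ.image x then M else 0 := by
      intro z hz
      split_ifs with hx
      · have := hTM (pz a b z)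
        have := hT'M z
        have : (0 : ℝ) ≤ T (pz a b z) := Nat.cast_nonneg _
        have : (0 : ℝ) ≤ T' z := Nat.cast_nonneg _
        rw [abs_le]
        constructor <;> linarith
      · rw [key z hz hx, sub_self, abs_zero]
    refine (sum_le_sum h4).trans ?_
    rw [← sum_filter, sum_const, nsmul_eq_mul]
    apply mul_le_mul_of_nonneg_right _ hM0
    have h5 := fib_card (Sf (fE a b)) (univ.image x) 2 (by
      intro x
      refine (card_le_card ?_).trans (sq_card_le ((fE a b).eval x))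
      intro y hy
      simp only [Sf, mem_filter, mem_univ, true_and] at hy ⊢
      exact hy)
    have h6 : (univ.image x).card ≤ m := by
      refine card_image_le.trans ?_
      rw [card_univ, Fintype.card_fin]
    have h7 := h5.trans (Nat.mul_le_mul_left 2 h6)
    exact_mod_cast h7
  linarith

end points

end Pool.Agent.K9h5.T
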