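import Mathlib
import Pool.Agent.K9h5.T.Wn

/-!
# Four-fold correlations of the weights
-/

set_option autoImplicit false
set_option linter.all false

namespace Pool.Agent.K9h5.T

open Polynomial Finset Pool.Agent.K9h5 Pool.Agent.H901R3.MS WeierstrassCurve

/-- **Four-fold correlations.** -/
theorem corr_N {n : ℕ} (hn2 : 2 ≤ n) (d D : ℕ) : ∃ C : ℝ, 0 ≤ C ∧
    ∀ (p : ℕ) [Fact p.Prime], p ≠ 2 → ∀ (a b : ZMod p), Disc a b →
    ∀ Φ : Fin n → MvPolynomial (Fin 3) (ZMod p), (∀ k, (Φ k).IsHomogeneous (((k : ℕ) + 1) * d)) →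
    (DFm Φ).IsHomogeneous (n * (n - 1) * d) →
    (∀ k, ∀ x y : ZMod p, degQ (phi a b (Φ k) x y) D) →
    (∀ x y : ZMod p, degQ (phi a b (DFm Φ) x y) D) →
    ∀ (x₁ y₁ : ZMod p) (h₁ : (CV a b).toAffine.Nonsingular x₁ y₁),
    (∀ g : (AlgebraicClosure (ZMod p))[X], g ^ 2 ≠
      (QuadraticAlgebra.norm (phi a b (DFm Φ) x₁ y₁)).map
        (algebraMap (ZMod p) (AlgebraicClosure (ZMod p)))) →
    Full1 _ _ (fun k => mapQ (algebraMap (ZMod p) (AlgebraicClosure (ZMod p))) a b _ _ rfl rfl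
      (phi a b (Φ k) x₁ y₁)) →
    ∃ Bd : Finset (Pt a b), (Bd.card : ℝ) ≤ C ∧ ∀ h h', h ∉ Bd → h' ∉ Bd → h + h' ∉ Bd →
      h - h' ∉ Bd →
      |∑ u : Pt a b, gN Φ u * gN Φ (u + h) * gN Φ (u + h') * gN Φ (u + (h + h'))| ≤
        C * √p := by
  classical
  -- the constants
  have htow : ∀ e' : Fin 4 → Fin 3, ∃ C : ℝ, 0 ≤ C ∧
      ∀ (F : Type) [Field F] [Fintype F] [DecidableEq F], (2 : F) ≠ 0 → ∀ (a b : F)
      (c : Fin 4 → Fin n → QA F a b), (∀ i k, degQ (c i k) D) →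
      FullM _ _ (cK (AlgebraicClosure F) c) →
      |(TS (fun i => ((e' i : Fin 3) : ℕ)) a b c : ℝ) - Fintype.card F| ≤ C * √(Fintype.card F : ℝ) := by
    intro e'
    apply tower D (fun i => ((e' i : Fin 3) : ℕ))
    have h1 : ∀ i, ((e' i : Fin 3) : ℕ) ≤ n := fun i => by have := (e' i).2; omega
    exact ⟨fun i => Fin.castLEEmb (h1 i)⟩
  choose Ct hCt0 hCt using htow
  set M : (Fin 4 → Fin 3) → ℝ := fun e' => ∏ i, (n : ℝ) ^ ((e' i : Fin 3) : ℕ) with hM
  set C1 : ℝ := ∑ e' : Fin 4 → Fin 3, (n : ℝ) ^ 4 * (Ct e' + (2 * (4 : ℕ) + 1) * M e') with hC1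
  have hM0 : ∀ e', 0 ≤ M e' := fun e' => by rw [hM]; positivity
  have hC10 : 0 ≤ C1 := by
    rw [hC1]
    apply sum_nonneg
    intro e' _
    have := hCt0 e'
    have := hM0 e'
    positivity
  set Zc : ℕ := 2 * (1 + 2 * (1 + (2 * D + 3))) + 3 with hZc
  refine ⟨C1 + 2 * Zc, by positivity, ?_⟩
  intro p _ hp2 a b hD Φ hΦ hΦD hdeg hdegD x₁ y₁ h₁ hc hF
  have hn1 : 1 ≤ n := by omega
  have hnr : (1 : ℝ) ≤ n := by exact_mod_cast hn1
  set K := AlgebraicClosure (ZMod p) with hK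
  set ι := algebraMap (ZMod p) K with hι
  have h2Z : (2 : ZMod p) ≠ 0 := by
    unfold Disc at hD
    exact left_ne_zero_of_mul hD
  have h2K : (2 : K) ≠ 0 := by
    intro h
    apply h2Z
    apply ι.injective
    rw [map_ofNat, map_zero, h]
  have hs1 : (1 : ℝ) ≤ √p := by
    rw [Real.one_le_sqrt]
    exact_mod_cast (Fact.out : p.Prime).one_lt.le
  -- the exceptional translations
  set N := QuadraticAlgebra.norm (phi a b (DFm Φ) x₁ y₁) with hNdef
  have hNd : N.natDegree ≤ 2 * D + 3 := by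
    have h1 := hdegD x₁ y₁
    rw [hNdef, normQ]
    refine (natDegree_sub_le _ _).trans (max_le ?_ ?_)
    · refine natDegree_pow_le.trans ?_
      have := h1.1; omega
    · refine natDegree_mul_le.trans ?_
      rw [fE_natDegree]
      have := natDegree_pow_le (p := (phi a b (DFm Φ) x₁ y₁).im) (n := 2)
      have := h1.2; omega
  obtain ⟨hN0, x₀, hx₀⟩ := exists_mult (l := 2) (by norm_num) hc
  obtain ⟨Bd, hBd, hgood⟩ := norm_ne ι hD (DFm Φ) hΦD h₁ hN0 x₀
  rw [← hNdef] at hBd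
  refine ⟨Bd ∪ Bd.image (fun v => -v), ?_, ?_⟩
  · have h1 : (Bd ∪ Bd.image (fun v => -v)).card ≤ 2 * Zc := by
      refine (card_union_le _ _).trans ?_
      have := card_image_le (s := Bd) (f := fun v => -v)
      omega
    have h2 : ((Bd ∪ Bd.image (fun v => -v)).card : ℝ) ≤ 2 * Zc := by exact_mod_cast h1
    linarith
  intro h h' e1 e2 e3 e4
  have hsym : ∀ v, v ∉ Bd ∪ Bd.image (fun v => -v) → v ∉ Bd ∧ -v ∉ Bd := by
    intro v hv
    rw [mem_union, not_or] at hv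
    refine ⟨hv.1, fun hc => hv.2 (mem_image.2 ⟨-v, hc, neg_neg v⟩)⟩
  obtain ⟨f1, f1'⟩ := hsym h e1
  obtain ⟨f2, f2'⟩ := hsym h' e2
  obtain ⟨f3, f3'⟩ := hsym (h + h') e3
  obtain ⟨f4, f4'⟩ := hsym (h - h') e4
  set sh : Fin 4 → Pt a b := ![0, h, h', h + h'] with hsh
  have s0 : sh 0 = 0 := rfl
  have s1 : sh 1 = h := rfl
  have s2 : sh 2 = h' := rfl
  have s3 : sh 3 = h + h' := rfl
  have hdiff : ∀ i k, k ≠ i → sh k - sh i ∉ Bd := by
    intro i k hki
    fin_cases i <;> fin_cases k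
    · exact absurd rfl hki
    · show h - 0 ∉ Bd
      rw [sub_zero]; exact f1
    · show h' - 0 ∉ Bd
      rw [sub_zero]; exact f2
    · show h + h' - 0 ∉ Bd
      rw [sub_zero]; exact f3
    · show 0 - h ∉ Bd
      rw [zero_sub]; exact f1'
    · exact absurd rfl hki
    · show h' - h ∉ Bd
      rw [← neg_sub]; exact f4'
    · show h + h' - h ∉ Bd
      rw [add_sub_cancel_left]; exact f2
    · show 0 - h' ∉ Bd
      rw [zero_sub]; exact f2'
    · show h - h' ∉ Bd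
      exact f4
    · exact absurd rfl hki
    · show h + h' - h' ∉ Bd
      rw [add_sub_cancel_right]; exact f1
    · show 0 - (h + h') ∉ Bd
      rw [zero_sub]; exact f3'
    · show h - (h + h') ∉ Bd
      have e : h - (h + h') = -h' := by abel
      rw [e]; exact f2'
    · show h' - (h + h') ∉ Bd
      have e : h' - (h + h') = -h := by abel
      rw [e]; exact f1'
    · exact absurd rfl hki
  -- the translates
  have hpt : ∀ i, ∃ (x y : ZMod p) (hxy : (CV a b).toAffine.Nonsingular x y),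
      (Affine.Point.some x y hxy : Pt a b) = Affine.Point.some x₁ y₁ h₁ + sh i := by
    intro i
    by_cases hi : i = 0
    · subst hi
      exact ⟨x₁, y₁, h₁, by rw [s0, add_zero]⟩
    · have h3 := hdiff 0 i hi
      rw [s0, sub_zero] at h3
      obtain ⟨x₂, y₂, h₂, he, _⟩ := hgood (sh i) h3
      exact ⟨x₂, y₂, h₂, he.symm⟩
  choose x y hxy hPi using hpt
  obtain ⟨red, hred⟩ := baseChange ι a b (disc_map ι hD)
  obtain ⟨g₁, hg₁⟩ := hred x₁ y₁ h₁
  choose g hg using fun i => hred (x i) (y i) (hxy i)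
  -- the forms over the closure
  set ΦK : Fin n → MvPolynomial (Fin 3) K := fun k => MvPolynomial.map ι (Φ k) with hΦK
  have hΦKh : ∀ k, (ΦK k).IsHomogeneous (((k : ℕ) + 1) * d) := fun k => (hΦ k).map ι
  have hDK : DFm ΦK = MvPolynomial.map ι (DFm Φ) := (DFm_map (MvPolynomial.map ι) Φ).symm
  have hDKh : (DFm ΦK).IsHomogeneous (n * (n - 1) * d) := by rw [hDK]; exact hΦD.map ι
  have hnorm : ∀ x y : ZMod p, QuadraticAlgebra.norm (phi (ι a) (ι b) (DFm ΦK) (ι x) (ι y)) =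
      (QuadraticAlgebra.norm (phi a b (DFm Φ) x y)).map ι := by
    intro x y
    rw [hDK, ← mapQ_phi ι a b (ι a) (ι b) rfl rfl, mapQ_norm]
  have hF1 : Full1 (ι a) (ι b) (fun k => phi (ι a) (ι b) (ΦK k) (ι x₁) (ι y₁)) := by
    have h3 : (fun k => phi (ι a) (ι b) (ΦK k) (ι x₁) (ι y₁)) =
        fun k => mapQ ι a b _ _ rfl rfl (phi a b (Φ k) x₁ y₁) := by
      funext k
      rw [mapQ_phi]
    rw [h3]
    exact hF
  have hFi : ∀ i, Full1 (ι a) (ι b) (fun k => phi (ι a) (ι b) (ΦK k) (ι (x i)) (ι (y i))) :=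
    fun i => full_transl (disc_map ι hD) ΦK hΦKh g₁ (g i) hF1
  have hfull : FullM (ι a) (ι b) (fun i k => phi (ι a) (ι b) (ΦK k) (ι (x i)) (ι (y i))) := by
    apply full_of (ι a) (ι b) h2K
    · exact hFi
    · intro i
      apply place (disc_map ι hD) ΦK hΦKh hDKh (fun i => ι (x i)) (fun i => ι (y i)) g g₁ ?_ x₀ ?_ i
      · intro k hki
        obtain ⟨x₂, y₂, h₂, he, hne⟩ := hgood (sh k - sh i) (hdiff i k hki)
        obtain ⟨g₂, hg₂⟩ := hred x₂ y₂ h₂
        refine ⟨ι x₂, ι y₂, g₂, ?_, ?_⟩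
        · rw [← hg₂, ← hg k, ← hg i, ← hg₁, ← he, hPi k, hPi i, ← map_sub, ← map_add]
          congr 1
          abel
        · rw [hnorm]
          exact hne
      · rw [hnorm]
        exact hN0
      · rw [hnorm, ← Nat.not_even_iff_odd, even_iff_two_dvd]
        exact hx₀
  have hcK : cK K (fun i k => phi a b (Φ k) (x i) (y i)) =
      fun i k => phi (ι a) (ι b) (ΦK k) (ι (x i)) (ι (y i)) := by
    funext i k
    unfold cK
    rw [mapQ_phi]
  -- the sums
  set A : (Fin 4 → Fin 3) → ℕ := fun e' => ∑ u : Pt a b,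
    ∏ i, (fN Φ (Affine.Point.some (x i) (y i) (hxy i) + u)).descFactorial (((e' i : Fin 3) : ℕ))
    with hA
  have hAb : ∀ e', |(A e' : ℝ) - p| ≤ (Ct e' + (2 * (4 : ℕ) + 1) * M e') * √p := by
    intro e'
    have h3 := hCt e' (ZMod p) h2Z a b (fun i k => phi a b (Φ k) (x i) (y i))
      (fun i k => hdeg k _ _) (by rw [hcK]; exact hfull)
    rw [ZMod.card] at h3
    have h4 := trans_sum hD (fun i => ((e' i : Fin 3) : ℕ)) Φ hΦ x y hxy
    have h5 : (A e' : ℝ) - p = ((A e' : ℝ) - TS (fun i => ((e' i : Fin 3) : ℕ)) a b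
        (fun i k => phi a b (Φ k) (x i) (y i))) + ((TS (fun i => ((e' i : Fin 3) : ℕ)) a b
        (fun i k => phi a b (Φ k) (x i) (y i)) : ℝ) - p) := by ring
    rw [h5]
    refine (abs_add_le _ _).trans ?_
    have h6 : (2 * (4 : ℕ) + 1) * M e' ≤ ((2 * (4 : ℕ) + 1) * M e') * √p :=
      le_mul_of_one_le_right (by have := hM0 e'; positivity) hs1
    have h7 := h4.trans h6
    rw [add_mul, add_comm (Ct e' * √(p : ℝ))]
    exact add_le_add h7 h3
  -- the expansion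
  have hexp : ((n : ℝ) ^ 2) ^ 4 * ∑ u : Pt a b, ∏ i, gN Φ (Affine.Point.some (x i) (y i) (hxy i) + u) =
      ∑ e' : Fin 4 → Fin 3, (∏ i, kap n (e' i)) * (A e' : ℝ) := by
    have h3 : ∀ u : Pt a b, ((n : ℝ) ^ 2) ^ 4 * ∏ i, gN Φ (Affine.Point.some (x i) (y i) (hxy i) + u) =
        ∑ e' : Fin 4 → Fin 3, (∏ i, kap n (e' i)) *
          (∏ i, ((fN Φ (Affine.Point.some (x i) (y i) (hxy i) + u)).descFactorial
            (((e' i : Fin 3) : ℕ)) : ℝ)) := by
      intro u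
      have h4 : ((n : ℝ) ^ 2) ^ 4 * ∏ i, gN Φ (Affine.Point.some (x i) (y i) (hxy i) + u) =
          ∏ i, ((n : ℝ) ^ 2 * gN Φ (Affine.Point.some (x i) (y i) (hxy i) + u)) := by
        rw [prod_mul_distrib, prod_const, card_univ, Fintype.card_fin]
      rw [h4, prod_congr rfl fun i _ => gN_exp hn1 Φ _, prod_univ_sum, Fintype.piFinset_univ]
      refine sum_congr rfl fun e' _ => ?_
      rw [prod_mul_distrib]
    rw [mul_sum, sum_congr rfl fun u _ => h3 u, sum_comm]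
    refine sum_congr rfl fun e' _ => ?_
    rw [← mul_sum, hA]
    push_cast
    rfl
  have hkap : ∑ e' : Fin 4 → Fin 3, (∏ i, kap n (e' i)) = 0 := by
    have h3 := prod_univ_sum (fun _ : Fin 4 => (univ : Finset (Fin 3))) (fun _ e => kap n e)
    rw [Fintype.piFinset_univ] at h3
    rw [← h3, prod_congr rfl fun i _ => kap_sum, prod_const, card_univ, Fintype.card_fin]
    norm_num
  have hbound : |∑ e' : Fin 4 → Fin 3, (∏ i, kap n (e' i)) * (A e' : ℝ)| ≤ C1 * √p := by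
    have h3 : ∑ e' : Fin 4 → Fin 3, (∏ i, kap n (e' i)) * (A e' : ℝ) =
        ∑ e' : Fin 4 → Fin 3, (∏ i, kap n (e' i)) * ((A e' : ℝ) - p) := by
      have h4 : ∀ e' : Fin 4 → Fin 3, (∏ i, kap n (e' i)) * ((A e' : ℝ) - p) =
          (∏ i, kap n (e' i)) * (A e' : ℝ) - (∏ i, kap n (e' i)) * p := fun e' => by ring
      rw [sum_congr rfl fun e' _ => h4 e', sum_sub_distrib, ← sum_mul, hkap, zero_mul, sub_zero]
    rw [h3, hC1, sum_mul]
    refine (abs_sum_le_sum_abs _ _).trans (sum_le_sum fun e' _ => ?_)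
    rw [abs_mul, mul_assoc]
    apply mul_le_mul _ (hAb e') (abs_nonneg _) (by positivity)
    rw [abs_prod]
    calc ∏ i, |kap n (e' i)| ≤ ∏ i : Fin 4, (n : ℝ) :=
          prod_le_prod (fun i _ => abs_nonneg _) fun i _ => kap_abs hn1 _
      _ = (n : ℝ) ^ 4 := by rw [prod_const, card_univ, Fintype.card_fin]
  -- conclusion
  have hsum : ∑ u : Pt a b, gN Φ u * gN Φ (u + h) * gN Φ (u + h') * gN Φ (u + (h + h')) =
      ∑ u : Pt a b, ∏ i, gN Φ (Affine.Point.some (x i) (y i) (hxy i) + u) := by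
    rw [← Equiv.sum_comp (Equiv.addRight (Affine.Point.some x₁ y₁ h₁ : Pt a b))]
    refine sum_congr rfl fun u _ => ?_
    rw [Fin.prod_univ_four, hPi, hPi, hPi, hPi, s0, s1, s2, s3]
    simp only [Equiv.coe_addRight]
    have t0 : (Affine.Point.some x₁ y₁ h₁ + 0 + u : Pt a b) = u + Affine.Point.some x₁ y₁ h₁ := by abel
    have t1 : (Affine.Point.some x₁ y₁ h₁ + h + u : Pt a b) = u + Affine.Point.some x₁ y₁ h₁ + h := by
      abel
    have t2 : (Affine.Point.some x₁ y₁ h₁ + h' + u : Pt a b) =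
      u + Affine.Point.some x₁ y₁ h₁ + h' := by abel
    have t3 : (Affine.Point.some x₁ y₁ h₁ + (h + h') + u : Pt a b) =
      u + Affine.Point.some x₁ y₁ h₁ + (h + h') := by abel
    rw [t0, t1, t2, t3]
  rw [hsum]
  rw [← hexp] at hbound
  rw [abs_mul, abs_of_nonneg (by positivity : (0 : ℝ) ≤ ((n : ℝ) ^ 2) ^ 4)] at hbound
  have hn8 : (1 : ℝ) ≤ ((n : ℝ) ^ 2) ^ 4 := one_le_pow₀ (one_le_pow₀ hnr)
  have h9 : |∑ u : Pt a b, ∏ i, gN Φ (Affine.Point.some (x i) (y i) (hxy i) + u)| ≤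
      ((n : ℝ) ^ 2) ^ 4 * |∑ u : Pt a b, ∏ i, gN Φ (Affine.Point.some (x i) (y i) (hxy i) + u)| :=
    le_mul_of_one_le_left (abs_nonneg _) hn8
  refine (h9.trans hbound).trans ?_
  apply mul_le_mul_of_nonneg_right _ (by positivity)
  have : (0 : ℝ) ≤ 2 * Zc := by positivity
  linarith

end Pool.Agent.K9h5.T
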