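import Mathlib
import Pool.Agent.K9h5.T.Tns
import Pool.Agent.K9h5.T.Df

/-!
# From the generic point to its translates
-/

set_option autoImplicit false
set_option linter.all false

namespace Pool.Agent.K9h5.T

open Polynomial Finset Pool.Agent.K9h5 Pool.Agent.H901R3.MS WeierstrassCurve

section

variable {K : Type} [Field K] {a b : K}

theorem full_of_rel {n : ℕ} (c c' : Fin n → QA K a b) (τ : FE a b ≃+* FE a b) (s : FE a b)
    (hs0 : s ≠ 0) (hval : ∀ k, algebraMap (QA K a b) (FE a b) (c' k) = s ^ ((k : ℕ) + 1) *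
      τ (algebraMap (QA K a b) (FE a b) (c k))) (hF : Full1 a b c) : Full1 a b c' := by
  classical
  obtain ⟨α, hα⟩ := lift_FE a b τ
  have hval' : ∀ k, jO a b (c' k) = (algebraMap (FE a b) (Om a b) s) ^ ((k : ℕ) + 1) *
      α (jO a b (c k)) := by
    intro k
    have h4 := congrArg (algebraMap (FE a b) (Om a b)) (hval k)
    rw [map_mul, map_pow, ← hα] at h4
    exact h4
  obtain ⟨w, hw, hwi, hπ⟩ := hF
  have hs0' : algebraMap (FE a b) (Om a b) s ≠ 0 := by
    rw [Ne, map_eq_zero_iff _ (algebraMap (FE a b) (Om a b)).injective]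
    exact hs0
  refine ⟨fun j => algebraMap (FE a b) (Om a b) s * α (w j), ?_, ?_, ?_⟩
  · have h3 : pol (fun k => α (jO a b (c k))) = ∏ j, (X - C (α (w j))) := by
      have := congrArg (fun P => P.map (α : Om a b →+* Om a b)) hw
      simp only [pol_map, Polynomial.map_prod, Polynomial.map_sub, map_X, map_C] at this
      exact this
    rw [← scale_split _ _ _ hs0' h3]
    congr 1
    funext k
    exact hval' k
  · intro j j' hjj
    exact hwi (α.injective (mul_left_cancel₀ hs0' hjj))
  · intro π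
    obtain ⟨σ, h3, h4⟩ := hπ π
    have hσF : ∀ z : FE a b, σ (algebraMap (FE a b) (Om a b) z) = algebraMap (FE a b) (Om a b) z := by
      intro z
      have e1 : (σ : Om a b →+* Om a b).comp (algebraMap (FE a b) (Om a b)) =
          algebraMap (FE a b) (Om a b) := by
        apply IsFractionRing.ringHom_ext (A := QA K a b)
        intro z
        exact h3 z
      exact congrArg (fun g => g z) e1
    have hσα : ∀ z : FE a b, α (σ (α.symm (algebraMap (FE a b) (Om a b) z))) =
        algebraMap (FE a b) (Om a b) z := by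
      intro z
      have e1 : α.symm (algebraMap (FE a b) (Om a b) z) = algebraMap (FE a b) (Om a b) (τ.symm z) := by
        rw [RingEquiv.symm_apply_eq, hα, RingEquiv.apply_symm_apply]
      rw [e1, hσF, hα, RingEquiv.apply_symm_apply]
    refine ⟨(α.symm.trans σ).trans α, fun z => hσα _, fun j => ?_⟩
    show α (σ (α.symm (algebraMap (FE a b) (Om a b) s * α (w j)))) = _
    rw [map_mul, map_mul, map_mul, hσα, RingEquiv.symm_apply_apply, h4]

end

/-- **From the generic point to its translate.** -/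
theorem full_transl0 {K : Type} [Field K] [IsAlgClosed K] {a b : K} (hD : Disc a b) {r n d : ℕ}
    (F : Fin n → MvPolynomial (Fin r × Fin 3) ℤ) (j : Fin r)
    (hF : ∀ k, (F k).IsWeightedHomogeneous (wtj j) (((k : ℕ) + 1) * d))
    (V : Fin r → Fin 3 → K)
    {x₁ y₁ : K} (h₁ : (CV a b).toAffine.Nonsingular x₁ y₁)
    (hFull : Full1 a b (fun k => evF (F k) (gen j a b V))) :
    Full1 a b (fun k => phi a b (specF (F k) j V) x₁ y₁) := by
  classical
  have hDF : Disc (kF a b a) (kF a b b) := disc_map (kF a b) hD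
  obtain ⟨red, hred⟩ := baseChange (kF a b) a b hDF
  have hG : (CV (kF a b a) (kF a b b)).toAffine.Nonsingular (xF a b) (yF a b) :=
    (nonsingular_iff hDF).2 (eqn_F a b)
  obtain ⟨U, W, h, h', τ, hs, hU, hτ⟩ := transl hD red hred hG (Affine.Point.some x₁ y₁ h₁)
  obtain ⟨g₁, hg₁⟩ := hred x₁ y₁ h₁
  have hx1 : xF a b ≠ kF a b x₁ := xF_nonconst a b _
  have hG1 : (Affine.Point.some (kF a b x₁) (kF a b y₁) g₁ +
      Affine.Point.some (xF a b) (yF a b) hG : Pt (kF a b a) (kF a b b)) =
      Affine.Point.some U W h := by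
    rw [← hs, ← hg₁]
    abel
  set s : FE a b := ((xF a b - kF a b x₁) ^ 3) ^ d with hsdef
  have hs0 : s ≠ 0 := by
    rw [hsdef]
    exact pow_ne_zero _ (pow_ne_zero _ (sub_ne_zero.2 hx1))
  refine full_of_rel _ _ τ s hs0 ?_ hFull
  intro k
  have hΦ : (specF (F k) j V).IsHomogeneous (((k : ℕ) + 1) * d) := specF_homog (F k) j (hF k) V
  have h3 := eval_TV (MvPolynomial.map (kF a b) (specF (F k) j V)) (hΦ.map (kF a b)) g₁ hG hx1
  rw [MvPolynomial.eval_map, MvPolynomial.eval_map, hG1,
    ← evQ_phi (kF a b) a b (xF a b) (yF a b) (eqn_F a b), ← algF_eq] at h3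
  have hpw : (xF a b - kF a b x₁) ^ (3 * (((k : ℕ) + 1) * d)) = s ^ ((k : ℕ) + 1) := by
    rw [hsdef, ← pow_mul, ← pow_mul]
    congr 1
    ring
  rw [hpw] at h3
  rw [h3]
  congr 1
  rw [hτ, evQ_gen, specF_eval]
  rfl

end Pool.Agent.K9h5.T
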