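import Mathlib
import Pool.Agent.K9h5.T.Tnz
import Pool.Agent.K9h5.T.NF
import Pool.Agent.K9h5.T.Fib
import Pool.Agent.K9h5.Sp

/-!
# Transfer of full monodromy to large characteristics
-/

set_option autoImplicit false
set_option linter.all false

namespace Pool.Agent.K9h5.T

open Polynomial Finset Pool.Agent.K9h5 Pool.Agent.H901R3.MS WeierstrassCurve

/-- the curve of the orderings of the roots -/
noncomputable def Th1 {S : Type} [CommRing S] (a b t : S) {n : ℕ} (c : Fin n → QA S a b) : S[X][X] :=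
  Th a b 1 (fun _ => n) (lamt (fun _ => n) t) 1 (fun _ => c)

/-- its degree -/
noncomputable def N1 (n : ℕ) : ℕ := 2 * Fintype.card (IX n (fun _ : Fin 1 => n))

theorem N1_pos (n : ℕ) : 0 < N1 n := by
  unfold N1
  haveI : Nonempty (IX n (fun _ : Fin 1 => n)) := ⟨fun _ => Function.Embedding.refl _⟩
  have : 0 < Fintype.card (IX n (fun _ : Fin 1 => n)) := Fintype.card_pos
  omega

theorem Th1_map {S T : Type} [CommRing S] [CommRing T] (φ : S →+* T) (a b t : S) (a' b' t' : T)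
    (ha : φ a = a') (hb : φ b = b') (ht : φ t = t') {n : ℕ} (c : Fin n → QA S a b) :
    (Th1 a b t c).map (mapRingHom φ) = Th1 a' b' t' (fun k => mapQ φ a b a' b' ha hb (c k)) := by
  unfold Th1
  rw [Th_map φ a b a' b' ha hb, lamt_map, map_one, ht]

theorem Th1_monic {S K : Type} [CommRing S] [Field K] (ι : S →+* K) (hι : Function.Injective ι)
    (a b t : S) {n : ℕ} (c : Fin n → QA S a b) :
    (Th1 a b t c).Monic ∧ (Th1 a b t c).natDegree = N1 n :=
  Th_monic ι hι a b t (fun _ => n) (fun _ => c)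

section

variable {K : Type} [Field K] (a b t : K) {n : ℕ}

theorem Th1_sep (c : Fin n → QA K a b) : ((Th1 a b t c).map (kO a b)).Separable ↔
    resultant (Th1 a b t c) (derivative (Th1 a b t c)) (N1 n) (N1 n - 1) ≠ 0 := by
  obtain ⟨hmon, hdeg⟩ := Th1_monic (RingHom.id K) Function.injective_id a b t c
  rw [res_sep _ (hmon.map _) (N1 n) (by rw [hmon.natDegree_map, hdeg]), derivative_map,
      resultant_map_map, Ne, Ne, map_eq_zero_iff _ (kO_inj a b)]

/-- full monodromy from the curve of orderings -/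
theorem Th1_full (hn : 1 ≤ n) (c : Fin n → QA K a b)
    (hirr : Irreducible (Th1 a b t c))
    (hres : resultant (Th1 a b t c) (derivative (Th1 a b t c)) (N1 n) (N1 n - 1) ≠ 0) :
    Full1 a b c := by
  classical
  obtain ⟨hmon, hdeg⟩ := Th1_monic (RingHom.id K) Function.injective_id a b t c
  obtain ⟨w, hw⟩ := exists_roots (pol (fun k => jO a b (c k))) (pol_monic _) (pol_natDegree _)
  have hsep := (Th1_sep a b t c).2 hres
  have hne : Nonempty (IX n (fun _ : Fin 1 => n)) := ⟨fun _ => Function.Embedding.refl _⟩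
  obtain ⟨α, hα⟩ := exists_alpha a b
  have hw' : ∀ i : Fin 1, pol (fun k => jO a b ((fun _ : Fin 1 => c) i k)) =
      ∏ j, (X - C ((fun _ : Fin 1 => w) i j)) := fun _ => hw
  unfold Th1 at hmon hdeg hirr hsep
  have hwi : Function.Injective w := by
    have h1 := th_fact_t a b (fun _ : Fin 1 => n) t (fun _ => c) (fun _ => w) hw' α hα
    have hsep' := hsep
    rw [h1, separable_prod_X_sub_C_iff] at hsep'
    have h2 := w_inj (fun _ : Fin 1 => n) (fun _ => w) (yO a b) (cO a b t) (fun s s' h => by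
      have h3 := @hsep' (Sum.inl s) (Sum.inl s') h
      exact Sum.inl_injective h3) hne 0 hn
    exact h2
  refine ⟨w, hw, hwi, fun π => ?_⟩
  obtain ⟨σ, h1, h2⟩ := tra_of_irr a b (fun _ : Fin 1 => n) (lamt (fun _ => n) t) 1 (fun _ => c)
    (fun _ => w) hw' hsep hirr hmon (fun _ => Function.Embedding.refl _) (fun _ => π.toEmbedding)
  exact ⟨σ, h1, fun j => h2 0 j⟩

theorem Th1_irr (c : Fin n → QA K a b) (hF : Full1 a b c)
    (hres : resultant (Th1 a b t c) (derivative (Th1 a b t c)) (N1 n) (N1 n - 1) ≠ 0) :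
    Irreducible (Th1 a b t c) := by
  obtain ⟨w, hw, hwi, hπ⟩ := hF
  have hsep := (Th1_sep a b t c).2 hres
  have hne : Nonempty (IX n (fun _ : Fin 1 => n)) := ⟨fun _ => Function.Embedding.refl _⟩
  unfold Th1 at hsep ⊢
  refine irr_of_tra a b (fun _ : Fin 1 => n) (lamt (fun _ => n) t) 1 (fun _ => c) (fun _ => w)
    (fun _ => hw) ?_ hsep hne
  apply tra_of_full
  intro π
  obtain ⟨σ, h1, h2⟩ := hπ (π 0)
  refine ⟨σ, h1, fun i j' => ?_⟩
  rw [Subsingleton.elim i 0]
  exact h2 j'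

theorem Th1_exists [CharZero K] (c : Fin n → QA K a b) (hF : Full1 a b c) : ∃ t₀ : ℕ,
    resultant (Th1 a b (t₀ : K) c) (derivative (Th1 a b (t₀ : K) c)) (N1 n) (N1 n - 1) ≠ 0 := by
  classical
  obtain ⟨w, hw, hwi, hπ⟩ := hF
  obtain ⟨t, ht, h⟩ := exists_t (RingHom.id K) two_ne_zero a b (fun _ : Fin 1 => n) (fun _ => c)
      (fun _ => w) (fun _ => hw) (fun _ => hwi)
      ((range ((2 * Fintype.card (IX n (fun _ : Fin 1 => n))) ^ 2 *
        Fintype.card (Σ i : Fin 1, Fin n) + 1)).map ⟨Nat.cast, Nat.cast_injective⟩)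
      (by rw [card_map, card_range]; omega)
  obtain ⟨t₀, _, rfl⟩ := mem_map.1 ht
  exact ⟨t₀, (Th1_sep a b (t₀ : K) c).1 h⟩

end

/-- **Transfer of full monodromy.** -/
theorem transfer {K₀ : Type} [Field K₀] [IsAlgClosed K₀] [CharZero K₀] {r n : ℕ} (hn : 1 ≤ n)
    (a b : ℤ) (F : Fin n → MvPolynomial (Fin r × Fin 3) ℤ)
    (j : Fin r) (V₀ : Fin r → Fin 3 → K₀)
    (hF : Full1 (a : K₀) (b : K₀) (fun k => phi (a : K₀) (b : K₀) (specF (F k) j V₀) (V₀ j 0) (V₀ j 1))) :
    ∃ bp : MvPolynomial (Fin r × Fin 3) ℤ, evF bp V₀ ≠ 0 ∧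
      ∀ (k K : Type) [Field k] [Field K] (ι : k →+* K) (V : Fin r → Fin 3 → k), evF bp V ≠ 0 →
        Full1 (ι (a : k)) (ι (b : k)) (fun k' => mapQ ι (a : k) (b : k) _ _ rfl rfl
          (phi (a : k) (b : k) (specF (F k') j V) (V j 0) (V j 1))) := by
  classical
  obtain ⟨t₀, hres⟩ := Th1_exists (a : K₀) (b : K₀) _ hF
  have hirr := Th1_irr (a : K₀) (b : K₀) (t₀ : K₀) _ hF hres
  -- the universal curve
  obtain ⟨hmonA, hdegA⟩ := Th1_monic (algebraMap (MvPolynomial (Fin r × Fin 3) ℤ)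
    (FractionRing (MvPolynomial (Fin r × Fin 3) ℤ)))
    (IsFractionRing.injective (MvPolynomial (Fin r × Fin 3) ℤ)
    (FractionRing (MvPolynomial (Fin r × Fin 3) ℤ)))
    (a : MvPolynomial (Fin r × Fin 3) ℤ) (b : MvPolynomial (Fin r × Fin 3) ℤ)
    (t₀ : MvPolynomial (Fin r × Fin 3) ℤ) (fun k => uphi (F k) j a b)
  obtain ⟨ΘA, hΘA⟩ : ∃ Θ, Θ = Th1 (a : MvPolynomial (Fin r × Fin 3) ℤ)
    (b : MvPolynomial (Fin r × Fin 3) ℤ)
    (t₀ : MvPolynomial (Fin r × Fin 3) ℤ) (fun k => uphi (F k) j a b) := ⟨_, rfl⟩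
  rw [← hΘA] at hmonA hdegA
  have hmapA : ∀ (S : Type) [CommRing S] (V : Fin r → Fin 3 → S),
      ΘA.map (mapRingHom (spH V)) = Th1 (a : S) (b : S) (t₀ : S)
        (fun k => phi (a : S) (b : S) (specF (F k) j V) (V j 0) (V j 1)) := by
    intro S _ V
    rw [hΘA, Th1_map (spH V) (a : MvPolynomial (Fin r × Fin 3) ℤ)
      (b : MvPolynomial (Fin r × Fin 3) ℤ) (t₀ : MvPolynomial (Fin r × Fin 3) ℤ) (a : S) (b : S)
      (t₀ : S) (map_intCast _ a) (map_intCast _ b) (map_natCast _ _)]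
    congr 1
    funext k
    exact uphi_map (F k) j a b V
  -- irreducibility
  rw [← hmapA] at hirr hres
  obtain ⟨D, hD0, hD⟩ := nf (spH V₀) ΘA hmonA (by rw [hdegA]; exact N1_pos n) hirr
  -- separability
  rw [derivative_map, resultant_map_map] at hres
  obtain ⟨i, hi⟩ : ∃ i, (spH V₀) ((resultant ΘA (derivative ΘA) (N1 n) (N1 n - 1)).coeff i) ≠ 0 := by
    by_contra hc
    push Not at hc
    apply hres
    ext i
    rw [coe_mapRingHom, coeff_map, hc, coeff_zero]
  refine ⟨D * (resultant ΘA (derivative ΘA) (N1 n) (N1 n - 1)).coeff i, ?_, ?_⟩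
  · rw [← spH_apply, map_mul]
    exact mul_ne_zero hD0 hi
  · intro k K _ _ ι V hV
    rw [← spH_apply, map_mul] at hV
    have hV1 := left_ne_zero_of_mul hV
    have hV2 := right_ne_zero_of_mul hV
    have hmapK : ΘA.map (mapRingHom (ι.comp (spH V))) = Th1 (ι (a : k)) (ι (b : k)) (t₀ : K)
        (fun k' => mapQ ι (a : k) (b : k) _ _ rfl rfl
          (phi (a : k) (b : k) (specF (F k') j V) (V j 0) (V j 1))) := by
      have h1 : mapRingHom (ι.comp (spH V)) = (mapRingHom ι).comp (mapRingHom (spH V)) := by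
        rw [mapRingHom_comp]
      rw [h1, ← Polynomial.map_map, hmapA, Th1_map ι (a : k) (b : k) (t₀ : k) _ _ (t₀ : K) rfl rfl
        (map_natCast _ _)]
    have hirrK := hD K (ι.comp (spH V)) (by
      rw [RingHom.comp_apply]
      intro h
      exact hV1 ((map_eq_zero_iff _ ι.injective).1 h))
    have hresK : resultant (ΘA.map (mapRingHom (ι.comp (spH V))))
        (derivative (ΘA.map (mapRingHom (ι.comp (spH V))))) (N1 n) (N1 n - 1) ≠ 0 := by
      rw [derivative_map, resultant_map_map, coe_mapRingHom]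
      intro h
      have h1 := congrArg (fun p => p.coeff i) h
      simp only [coeff_map, coeff_zero] at h1
      rw [RingHom.comp_apply] at h1
      exact hV2 ((map_eq_zero_iff _ ι.injective).1 h1)
    rw [hmapK] at hirrK hresK
    exact Th1_full (ι (a : k)) (ι (b : k)) (t₀ : K) hn _ hirrK hresK

end Pool.Agent.K9h5.T
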