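import Mathlib
import Pool.Agent.K9h5.Loc
import Pool.Agent.K9h5.T.Ramn
import Pool.Agent.K9h5.T.Trf
import Pool.Agent.K9h5.T.Corn

/-!
# The local theorem for covers with symmetric monodromy
-/

set_option autoImplicit false
set_option linter.all false

namespace Pool.Agent.K9h5.T

open Polynomial Pool.Agent.H901R3.MS WeierstrassCurve Finset Pool.Agent.K9h5

/-- integral roots -/
theorem root_place {K k : Type} [Field K] [Field k] (v : Place K k) {n : ℕ} (c : Fin n → K)
    (hc : ∀ i, c i ∈ v.A) (w : K) (hw : (pol c).eval w = 0) :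
    w ∈ v.A ∧ (pol (fun i => v.r (c i))).eval (v.r w) = 0 := by
  set c' : Fin n → v.A := fun i => ⟨c i, hc i⟩ with hc'
  have hcc : (fun i => v.r (c i)) = fun i => v.ρ (c' i) := by
    funext i
    rw [v.r_of (hc i)]
  have hcs : c = fun i => v.A.subtype (c' i) := rfl
  have hwA : w ∈ v.A := by
    by_contra hx
    obtain ⟨h1, h2⟩ := v.inv_of_notMem w hx
    have hw0 : w ≠ 0 := by rintro rfl; exact hx v.A.zero_mem
    have h3 : (1 : v.A) + ∑ i : Fin n, c' i * (⟨w⁻¹, h1⟩ : v.A) ^ ((i : ℕ) + 1) = 0 := by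
      apply Subtype.ext
      have h4 : (((1 : v.A) + ∑ i : Fin n, c' i * (⟨w⁻¹, h1⟩ : v.A) ^ ((i : ℕ) + 1) : v.A) : K) =
          1 + ∑ i : Fin n, c i * w⁻¹ ^ ((i : ℕ) + 1) := by
        have h5 := map_add v.A.subtype (1 : v.A) (∑ i : Fin n, c' i * (⟨w⁻¹, h1⟩ : v.A) ^ ((i : ℕ) + 1))
        simp only [map_one, map_sum, map_mul, map_pow] at h5
        exact h5
      rw [h4]
      have h6 : (pol c).eval w = w ^ n * (1 + ∑ i : Fin n, c i * w⁻¹ ^ ((i : ℕ) + 1)) := by
        unfold pol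
        rw [eval_add, eval_pow, eval_X, eval_finset_sum, mul_add, mul_one, mul_sum]
        congr 1
        refine sum_congr rfl fun i _ => ?_
        rw [eval_mul, eval_C, eval_pow, eval_X]
        have hi := i.2
        have h7 : w ^ n = w ^ ((i : ℕ) + 1) * w ^ (n - 1 - (i : ℕ)) := by
          rw [← pow_add]; congr 1; omega
        rw [h7, inv_pow]
        field_simp
      rw [hw] at h6
      have h8 := (mul_eq_zero.1 h6.symm).resolve_left (pow_ne_zero _ hw0)
      exact h8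
    have h4 := congrArg v.ρ h3
    rw [map_add, map_one, map_sum, map_zero, sum_eq_zero, add_zero] at h4
    · exact one_ne_zero h4
    · intro i _
      rw [map_mul, map_pow, h2, zero_pow (Nat.succ_ne_zero _), mul_zero]
  refine ⟨hwA, ?_⟩
  have h1 : (pol c').eval (⟨w, hwA⟩ : v.A) = 0 := by
    apply Subtype.ext
    have h2 := Polynomial.eval₂_at_apply (p := pol c') v.A.subtype (⟨w, hwA⟩ : v.A)
    have h3 : (pol c').eval₂ v.A.subtype (v.A.subtype (⟨w, hwA⟩ : v.A)) = (pol c).eval w := by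
      rw [← eval_map, pol_map]
      rfl
    rw [h3, hw] at h2
    exact h2.symm
  have h2 := Polynomial.eval₂_at_apply (p := pol c') v.ρ (⟨w, hwA⟩ : v.A)
  rw [h1, map_zero, ← eval_map, pol_map] at h2
  rw [hcc, v.r_of hwA]
  exact h2

theorem pol_scale {K : Type} [Field K] {n : ℕ} (c : Fin n → K) (s w : K) :
    (pol (fun k => s ^ ((k : ℕ) + 1) * c k)).eval (s * w) = s ^ n * (pol c).eval w := by
  unfold pol
  rw [eval_add, eval_pow, eval_X, eval_finset_sum, eval_add, eval_pow, eval_X, eval_finset_sum,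
    mul_add, mul_pow, mul_sum]
  congr 1
  refine sum_congr rfl fun i _ => ?_
  rw [eval_mul, eval_C, eval_pow, eval_X, eval_mul, eval_C, eval_pow, eval_X]
  have hi := i.2
  have h7 : s ^ n = s ^ ((i : ℕ) + 1) * s ^ (n - 1 - (i : ℕ)) := by
    rw [← pow_add]; congr 1; omega
  rw [h7, mul_pow]
  ring

/-- **The local condition.** -/
theorem lift_N {r n : ℕ} (a b : Fin r → ℤ) (F : Fin n → MvPolynomial (Fin r × Fin 3) ℤ)
    (j : Fin r) (d : Fin r → ℕ)
    (hF : ∀ k i, (F k).IsWeightedHomogeneous (wtj i) (((k : ℕ) + 1) * d i))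
    (p : ℕ) [Fact p.Prime] (hD : ∀ i, Disc (a i : ZMod p) (b i : ZMod p))
    (P : ∀ i, Pt (a i : ℚ) (b i : ℚ)) (w : ℚ)
    (hw : (pol (fun k => evF (F k) (fun i => rep (P i)))).eval w = 0) :
    1 ≤ fN (fun k => Fm a b (F k) j p (fun i => rd p (a i) (b i) (P i)))
      (rd p (a j) (b j) (P j)) := by
  choose u hu0 huA using fun i => (rd_spec p (a i) (b i) (hD i)).2.2 (P i)
  set s : ℚ := ∏ i, u i ^ d i with hs
  have h1 : ∀ k, evF (F k) (fun i k => u i * rep (P i) k) = s ^ ((k : ℕ) + 1) *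
      evF (F k) (fun i => rep (P i)) := by
    intro k
    rw [evF_scale (F k) (fun i => ((k : ℕ) + 1) * d i) (hF k) u (fun i => rep (P i)), hs,
      ← prod_pow]
    congr 1
    refine prod_congr rfl fun i _ => ?_
    rw [← pow_mul, mul_comm]
  have h2 : ∀ k, evF (F k) (fun i k => u i * rep (P i) k) ∈ (vp p).A := fun k =>
    (evF_place (vp p) (F k) (fun i k => u i * rep (P i) k) (fun i k => (huA i k).1)).1
  have h3 : (pol (fun k => evF (F k) (fun i k => u i * rep (P i) k))).eval (s * w) = 0 := by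
    simp only [h1]
    rw [pol_scale, hw, mul_zero]
  have h4 := (root_place (vp p) _ h2 _ h3).2
  apply fN_pos _ _ ((vp p).r (s * w))
  rw [← h4]
  congr 2
  funext k
  rw [(evF_place (vp p) (F k) (fun i k => u i * rep (P i) k) (fun i k => (huA i k).1)).2]
  unfold Gv Fm
  rw [← MvPolynomial.eval₂_id, specF_eval]
  congr 1
  funext i k
  rw [(huA i k).2]
  split_ifs with hi
  · subst hi; rfl
  · rfl

/-- **The local theorem.** -/
theorem local_N {r n : ℕ} (hn : 2 ≤ n) (a b : Fin r → ℤ) (hD : ∀ i, Disc (a i : ℚ) (b i : ℚ))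
    (F : Fin n → MvPolynomial (Fin r × Fin 3) ℤ) (j : Fin r) {d : ℕ}
    (hF : ∀ k, (F k).IsWeightedHomogeneous (wtj j) (((k : ℕ) + 1) * d))
    (V : Fin r → Fin 3 → ℂ) (W : Fin 3 → PowerSeries ℂ) (m : ℕ)
    (haff : ∀ i, i ≠ j → V i 2 = 1 ∧ V i 1 ^ 2 = V i 0 ^ 3 + a i * V i 0 + b i)
    (hW0 : W ≠ 0) (hWE : W 1 ^ 2 * W 2 = W 0 ^ 3 + (a j : PowerSeries ℂ) * W 0 * W 2 ^ 2 +
      (b j : PowerSeries ℂ) * W 2 ^ 3)
    (hord : (evF (DFm F) (fun i k => if i = j then W k else PowerSeries.C (V i k))).order = m)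
    (hm : Odd m)
    (hFull : Full1 (a j : ℂ) (b j : ℂ) (fun k => evF (F k) (gen j (a j : ℂ) (b j : ℂ) V))) :
    ∃ (bp : MvPolynomial (Fin r × Fin 3) ℤ) (C : ℝ) (p₀ : ℕ), 0 ≤ C ∧ ∀ (p : ℕ) [Fact p.Prime],
      p₀ ≤ p → (∀ i, Disc (a i : ZMod p) (b i : ZMod p)) ∧ p ≠ 2 ∧
      (∀ S : ∀ i, Finset (Pt (a i : ZMod p) (b i : ZMod p)),
        ((badT a b p bp S).card : ℝ) ≤ C * bdT a b p S) ∧
      (∀ P : ∀ i, Pt (a i : ZMod p) (b i : ZMod p), Good a b j bp p P →
        ∃ Bd : Finset (Pt (a j : ZMod p) (b j : ZMod p)), 3 / 2 * (Bd.card : ℝ) ≤ C ∧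
          ∀ h h', h ∉ Bd → h' ∉ Bd → h + h' ∉ Bd → h - h' ∉ Bd →
            |∑ u : Pt (a j : ZMod p) (b j : ZMod p), gN (fun k => Fm a b (F k) j p P) u *
              gN (fun k => Fm a b (F k) j p P) (u + h) *
              gN (fun k => Fm a b (F k) j p P) (u + h') *
              gN (fun k => Fm a b (F k) j p P) (u + (h + h'))| ≤ C * √p) := by
  classical
  have hDC : Disc (a j : ℂ) (b j : ℂ) := by
    have h1 := disc_map (Rat.castHom ℂ) (hD j)
    simpa using h1
  have hDh : (DFm F).IsWeightedHomogeneous (wtj j) (n * (n - 1) * d) := DFm_homog (wtj j) F hF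
  have h2d : 2 ∣ n * (n - 1) * d :=
    Dvd.dvd.mul_right (even_iff_two_dvd.1 (Nat.even_mul_pred_self n)) d
  obtain ⟨V₀, x₀, haff₀, hVV, hN0, hmm⟩ := ram_pt a b (DFm F) 2 j hDC hDh h2d V W m haff hW0 hWE
    hord (by rw [← even_iff_two_dvd, Nat.not_even_iff_odd]; exact hm)
  have hgen : gen j (a j : ℂ) (b j : ℂ) V = gen j (a j : ℂ) (b j : ℂ) V₀ := by
    funext i k
    unfold gen
    by_cases hi : i = j
    · rw [if_pos hi, if_pos hi]
    · rw [if_neg hi, if_neg hi, hVV i hi]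
  rw [hgen] at hFull
  have hns : (CV (a j : ℂ) (b j : ℂ)).toAffine.Nonsingular (V₀ j 0) (V₀ j 1) :=
    (nonsingular_iff hDC).2 (haff₀ j).2
  have hFull' := full_transl0 hDC F j hF V₀ hns hFull
  obtain ⟨bp₁, hbp₁, htr⟩ := transfer (by omega) (a j) (b j) F j V₀ hFull'
  obtain ⟨bp', hbp'0, hbp'⟩ := bpoly (DFm F) j (a j) (b j) 2 (by norm_num) V₀ x₀ hN0 hmm
  set bp : MvPolynomial (Fin r × Fin 3) ℤ := bp' * bp₁ * MvPolynomial.X (j, 2) with hbp
  have hev : ∀ (S : Type) [CommRing S] (V : Fin r → Fin 3 → S),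
      evF bp V = evF bp' V * evF bp₁ V * V j 2 := by
    intro S _ V
    unfold evF
    rw [hbp, MvPolynomial.eval₂_mul, MvPolynomial.eval₂_mul, MvPolynomial.eval₂_X]
  have hbp0 : evF bp V₀ ≠ 0 := by
    rw [hev, (haff₀ j).1, mul_one]
    exact mul_ne_zero hbp'0 hbp₁
  obtain ⟨Cs, ps, hs⟩ := sz a b V₀ haff₀ bp hbp0
  choose Dk hDk using fun k => degQ_spec (F k) j (a j) (b j)
  obtain ⟨D, hD'⟩ := degQ_spec (DFm F) j (a j) (b j)
  obtain ⟨Cc, hCc, hc⟩ := corr_N hn d ((∑ k, Dk k) + D)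
  have hmono : ∀ {S : Type} [CommRing S] {a b : S} (z : QA S a b) (D₁ D₂ : ℕ), D₁ ≤ D₂ →
      degQ z D₁ → degQ z D₂ := fun z D₁ D₂ h h' => ⟨h'.1.trans h, h'.2.trans h⟩
  choose q hq using fun i => disc_mod (hD i)
  refine ⟨bp, max (Cs : ℝ) (3 / 2 * Cc), max (max ps 3) (∑ i, q i), by positivity, ?_⟩
  intro p _ hp
  have hp1 : ps ≤ p := ((le_max_left _ _).trans (le_max_left _ _)).trans hp
  have hp2 : 3 ≤ p := ((le_max_right _ _).trans (le_max_left _ _)).trans hp
  have hp3 : ∀ i, q i ≤ p := fun i => ((single_le_sum (f := q) (fun _ _ => Nat.zero_le _)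
    (mem_univ i)).trans (le_max_right _ _)).trans hp
  refine ⟨fun i => hq i p (hp3 i), by omega, ?_, ?_⟩
  · intro S
    have h1 := hs p hp1 S
    have h2 : ((badT a b p bp S).card : ℝ) ≤ Cs * bdT a b p S := by exact_mod_cast h1
    exact h2.trans (mul_le_mul_of_nonneg_right (le_max_left _ _) (Nat.cast_nonneg _))
  · intro P hG
    obtain ⟨c, hcne⟩ := hG
    rw [hev] at hcne
    have h1 := left_ne_zero_of_mul (left_ne_zero_of_mul hcne)
    have h1' := right_ne_zero_of_mul (left_ne_zero_of_mul hcne)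
    have h2 := right_ne_zero_of_mul hcne
    set V : Fin r → Fin 3 → ZMod p := fun i => rep (Function.update P j c i) with hV
    have hVj : V j = rep c := by
      rw [hV]
      simp only [Function.update_self]
    have hFm : ∀ F' : MvPolynomial (Fin r × Fin 3) ℤ, Fm a b F' j p P = specF F' j V := by
      intro F'
      unfold Fm
      apply specF_congr
      intro i hi
      rw [hV]
      simp only
      rw [Function.update_of_ne hi]
    rw [Function.update_self] at h2
    cases hcc : c with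
    | zero =>
      exfalso
      apply h2
      rw [hcc]
      simp [rep]
    | some x y h =>
      rw [hcc] at hVj
      have hx : V j 0 = x := by rw [hVj]; simp [rep]
      have hy : V j 1 = y := by rw [hVj]; simp [rep]
      have h3 := hbp' (ZMod p) (AlgebraicClosure (ZMod p))
        (algebraMap (ZMod p) (AlgebraicClosure (ZMod p))) V h1
      have h3' := htr (ZMod p) (AlgebraicClosure (ZMod p))
        (algebraMap (ZMod p) (AlgebraicClosure (ZMod p))) V h1'
      rw [hx, hy, specF_DFm] at h3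
      rw [hx, hy] at h3'
      have h4 : ∀ k, (specF (F k) j V).IsHomogeneous (((k : ℕ) + 1) * d) :=
        fun k => specF_homog (F k) j (hF k) _
      have h5 : (DFm (fun k => specF (F k) j V)).IsHomogeneous (n * (n - 1) * d) := by
        rw [← specF_DFm]
        exact specF_homog (DFm F) j hDh _
      obtain ⟨Bd, hBd, hB⟩ := hc p (by omega) (a j) (b j) (hq j p (hp3 j))
        (fun k => specF (F k) j V) h4 h5
        (fun k x y => hmono _ _ _ ((single_le_sum (f := Dk) (fun _ _ => Nat.zero_le _)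
          (mem_univ k)).trans (Nat.le_add_right _ _)) (hDk k (ZMod p) _ x y))
        (fun x y => hmono _ _ _ (Nat.le_add_left _ _) (by
          rw [← specF_DFm]
          exact hD' (ZMod p) _ x y)) x y h h3 h3'
      refine ⟨Bd, ?_, ?_⟩
      · refine le_trans ?_ (le_max_right _ _)
        exact mul_le_mul_of_nonneg_left hBd (by norm_num)
      · intro h h' e1 e2 e3 e4
        simp only [hFm]
        refine (hB h h' e1 e2 e3 e4).trans ?_
        apply mul_le_mul_of_nonneg_right _ (Real.sqrt_nonneg _)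
        refine le_trans ?_ (le_max_right _ _)
        linarith

end Pool.Agent.K9h5.T
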