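import Mathlib
import Pool.Agent.K9h5.T.Locn
import Pool.Agent.K9h5.T.Mainn

/-!
# Covers with symmetric monodromy: the main theorem
-/

set_option autoImplicit false
set_option linter.all false

namespace Pool.Agent.K9h5.T

open Polynomial Pool.Agent.H901R3.MS WeierstrassCurve Finset Pool.Agent.K9h5

theorem main_N {r n : ℕ} (hn : 2 ≤ n) (a b : Fin r → ℤ) (hD : ∀ i, Disc (a i : ℚ) (b i : ℚ))
    (F : Fin n → MvPolynomial (Fin r × Fin 3) ℤ) (j : Fin r) (d : Fin r → ℕ)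
    (hF : ∀ k i, (F k).IsWeightedHomogeneous (wtj i) (((k : ℕ) + 1) * d i))
    (V : Fin r → Fin 3 → ℂ) (W : Fin 3 → PowerSeries ℂ) (m : ℕ)
    (haff : ∀ i, i ≠ j → V i 2 = 1 ∧ V i 1 ^ 2 = V i 0 ^ 3 + a i * V i 0 + b i)
    (hW0 : W ≠ 0) (hWE : W 1 ^ 2 * W 2 = W 0 ^ 3 + (a j : PowerSeries ℂ) * W 0 * W 2 ^ 2 +
      (b j : PowerSeries ℂ) * W 2 ^ 3)
    (hord : (evF (DFm F) (fun i k => if i = j then W k else PowerSeries.C (V i k))).order = m)
    (hm : Odd m)
    (hFull : Full1 (a j : ℂ) (b j : ℂ) (fun k => evF (F k) (gen j (a j : ℂ) (b j : ℂ) V)))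
    (hrk : ∀ i, 1 ≤ Module.finrank ℤ (Pt (a i : ℚ) (b i : ℚ)))
    (hrj : 3 ≤ Module.finrank ℤ (Pt (a j : ℚ) (b j : ℚ))) :
    ∃ C : ℝ, 0 < C ∧ ∀ B : ℝ, 1 ≤ B → (AB a b B).Finite ∧
      {z : (∀ i, Pt (a i : ℚ) (b i : ℚ)) × ℚ | (∀ i, hP (z.1 i) ≤ B) ∧
        (pol (fun k => evF (F k) (fun i => rep (z.1 i)))).eval z.2 = 0}.Finite ∧
      ({z : (∀ i, Pt (a i : ℚ) (b i : ℚ)) × ℚ | (∀ i, hP (z.1 i) ≤ B) ∧
        (pol (fun k => evF (F k) (fun i => rep (z.1 i)))).eval z.2 = 0}.ncard : ℝ) ≤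
      C * (B ^ (-(1 / 300) : ℝ) * ((AB a b B).ncard : ℝ)) := by
  classical
  obtain ⟨bp, Cl, p₀, hCl, hloc⟩ := local_N hn a b hD F j (fun k => hF k j) V W m haff hW0 hWE hord
    hm hFull
  obtain ⟨C, hC, hmain⟩ := points_gen a b hD j
    (fun P => ∃ w : ℚ, (pol (fun k => evF (F k) (fun i => rep (P i)))).eval w = 0)
    (fun p _ P u => gN (fun k => Fm a b (F k) j p P) u)
    (fun p _ P u => gN_abs_le (by omega) _ u)
    (fun p _ P P' h => by
      have h1 : ∀ k, Fm a b (F k) j p P = Fm a b (F k) j p P' := by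
        intro k
        unfold Fm
        apply specF_congr
        intro i hi
        rw [h i hi]
      funext u
      simp only [h1]) bp Cl p₀ hCl hloc (1 / (n : ℝ) ^ 2)
    (by
      have : (0 : ℝ) < n := by
        have : 0 < n := by omega
        exact_mod_cast this
      positivity)
    (fun p _ hp P hP => by
      obtain ⟨w, hw⟩ := hP
      apply gN_ge (by omega)
      exact lift_N a b F j d hF p (hloc p hp).1 P w hw) hrk hrj
  refine count_gen a b (fun P w => (pol (fun k => evF (F k) (fun i => rep (P i)))).eval w = 0) n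
    ?_ C hC hmain
  intro P
  have h0 : pol (fun k => evF (F k) (fun i => rep (P i))) ≠ 0 := (pol_monic _).ne_zero
  have h1 : {w : ℚ | (pol (fun k => evF (F k) (fun i => rep (P i)))).eval w = 0} ⊆
      ((pol (fun k => evF (F k) (fun i => rep (P i)))).roots.toFinset : Set ℚ) := by
    intro w hw
    rw [mem_coe, Multiset.mem_toFinset, mem_roots h0]
    exact hw
  refine ⟨(Finset.finite_toSet _).subset h1, ?_⟩
  have h2 := Set.ncard_le_ncard h1 (Finset.finite_toSet _)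
  rw [Set.ncard_coe_finset] at h2
  refine h2.trans ((Multiset.toFinset_card_le _).trans ((card_roots' _).trans ?_))
  rw [pol_natDegree]

end Pool.Agent.K9h5.T
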