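import Mathlib
import Pool.Agent.K9h5.T.Fin

/-!
# Galois groups over the function field of the curve
-/

set_option autoImplicit false
set_option linter.all false

namespace Pool.Agent.K9h5.T

open Polynomial Pool.Agent.H901R3.MS WeierstrassCurve Finset Pool.Agent.K9h5

/-- **The full symmetric group.** -/
theorem gal_full {F Ω : Type} [Field F] [Field Ω] [Algebra F Ω] [Normal F Ω] {n : ℕ} (hn : 2 ≤ n)
    (p : F[X]) (w : Fin n → Ω) (hw : p.map (algebraMap F Ω) = ∏ j, (X - C (w j)))
    (hG : Nat.card p.Gal = Nat.factorial n) :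
    Function.Injective w ∧ ∀ π : Equiv.Perm (Fin n), ∃ σ : Ω ≃ₐ[F] Ω, ∀ j, σ (w j) = w (π j) := by
  classical
  haveI hsp : Fact ((p.map (algebraMap F Ω)).Splits) := ⟨by
    rw [hw]
    exact Splits.prod fun j _ => Splits.X_sub_C _⟩
  have hp0 : p ≠ 0 := by
    rintro rfl
    rw [Polynomial.map_zero] at hw
    exact (monic_prod_of_monic _ _ fun s _ => monic_X_sub_C _).ne_zero hw.symm
  have hmem : ∀ z : Ω, z ∈ p.rootSet Ω ↔ ∃ j, w j = z := by
    intro z
    rw [mem_rootSet, ← eval_map_algebraMap, hw, eval_prod, Finset.prod_eq_zero_iff]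
    constructor
    · rintro ⟨_, j, _, h⟩
      rw [eval_sub, eval_X, eval_C, sub_eq_zero] at h
      exact ⟨j, h.symm⟩
    · rintro ⟨j, rfl⟩
      exact ⟨hp0, j, mem_univ j, by simp⟩
  set f : Fin n → p.rootSet Ω := fun j => ⟨w j, (hmem _).2 ⟨j, rfl⟩⟩ with hf
  have hfs : Function.Surjective f := by
    rintro ⟨z, hz⟩
    obtain ⟨j, hj⟩ := (hmem z).1 hz
    exact ⟨j, Subtype.ext hj⟩
  have hcard : Fintype.card (p.rootSet Ω) ≤ n := by
    have := Fintype.card_le_of_surjective f hfs
    rwa [Fintype.card_fin] at this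
  have hinjG := Gal.galActionHom_injective p Ω
  have h1 : Nat.factorial n ≤ Nat.factorial (Fintype.card (p.rootSet Ω)) := by
    rw [← hG, ← Fintype.card_perm, ← Nat.card_eq_fintype_card]
    exact Nat.card_le_card_of_injective _ hinjG
  have hcn : Fintype.card (p.rootSet Ω) = n := by
    by_contra hc
    have h2 : Fintype.card (p.rootSet Ω) ≤ n - 1 := by omega
    have h3 := Nat.factorial_le h2
    have h4 : Nat.factorial (n - 1) < Nat.factorial n :=
      Nat.factorial_lt_of_lt (by omega) (by omega)
    omega
  have hfb : Function.Bijective f := by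
    rw [Fintype.bijective_iff_surjective_and_card]
    exact ⟨hfs, by rw [hcn, Fintype.card_fin]⟩
  refine ⟨fun j j' h => hfb.1 (Subtype.ext h), fun π => ?_⟩
  have hbij : Function.Bijective (Gal.galActionHom p Ω) := by
    rw [Nat.bijective_iff_injective_and_card]
    refine ⟨hinjG, ?_⟩
    rw [hG, Nat.card_eq_fintype_card, Fintype.card_perm, hcn]
  set e : Fin n ≃ p.rootSet Ω := Equiv.ofBijective f hfb with he
  obtain ⟨g, hg⟩ := hbij.2 ((e.symm.trans π).trans e)
  obtain ⟨σ, hσ⟩ := Gal.restrict_surjective p Ω g
  refine ⟨σ, fun j => ?_⟩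
  have h2 := Gal.galActionHom_restrict p Ω σ (e j)
  rw [hσ, hg] at h2
  rw [Equiv.trans_apply, Equiv.trans_apply, Equiv.symm_apply_apply] at h2
  exact h2.symm

section

variable {K : Type} [Field K] (a b : K)

/-- the equation in the coordinate ring -/
theorem eqn_CR : (Affine.CoordinateRing.mk (CV a b).toAffine X) ^ 2 =
    (Affine.CoordinateRing.mk (CV a b).toAffine (C X)) ^ 3 +
      (algebraMap K (CV a b).toAffine.CoordinateRing) a *
        Affine.CoordinateRing.mk (CV a b).toAffine (C X) +
      (algebraMap K (CV a b).toAffine.CoordinateRing) b := by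
  have h1 : ∀ c : K, (algebraMap K (CV a b).toAffine.CoordinateRing) c =
      Affine.CoordinateRing.mk (CV a b).toAffine (C (C c)) := fun c => rfl
  rw [h1, h1, ← map_pow, ← map_pow, ← map_mul, ← map_add, ← map_add]
  apply AdjoinRoot.mk_eq_mk.2
  refine ⟨1, ?_⟩
  rw [mul_one]
  unfold Affine.polynomial
  simp only [CV]
  simp only [map_zero, zero_mul, add_zero, zero_add, map_add, map_mul, map_pow]

/-- the isomorphism of the coordinate rings -/
noncomputable def eCR : QA K a b ≃+* (CV a b).toAffine.CoordinateRing :=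
  RingEquiv.ofBijective (evQ (algebraMap K (CV a b).toAffine.CoordinateRing) a b
    (Affine.CoordinateRing.mk (CV a b).toAffine (C X))
    (Affine.CoordinateRing.mk (CV a b).toAffine X) (eqn_CR a b)) (by
    have hpol : ∀ p : K[X], p.eval₂ (algebraMap K (CV a b).toAffine.CoordinateRing)
        (Affine.CoordinateRing.mk (CV a b).toAffine (C X)) =
        Affine.CoordinateRing.mk (CV a b).toAffine (C p) := by
      intro p
      have h1 : eval₂RingHom (algebraMap K (CV a b).toAffine.CoordinateRing)
          (Affine.CoordinateRing.mk (CV a b).toAffine (C X)) =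
          (Affine.CoordinateRing.mk (CV a b).toAffine).comp C := by
        apply Polynomial.ringHom_ext
        · intro z
          rw [coe_eval₂RingHom, eval₂_C]
          rfl
        · rw [coe_eval₂RingHom, eval₂_X]
          rfl
      exact congrArg (fun g => g p) h1
    have hval : ∀ z : QA K a b, evQ (algebraMap K (CV a b).toAffine.CoordinateRing) a b
        (Affine.CoordinateRing.mk (CV a b).toAffine (C X))
        (Affine.CoordinateRing.mk (CV a b).toAffine X) (eqn_CR a b) z =
        z.re • (1 : (CV a b).toAffine.CoordinateRing) +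
          z.im • Affine.CoordinateRing.mk (CV a b).toAffine X := by
      intro z
      rw [evQ_apply, hpol, hpol, Affine.CoordinateRing.smul, Affine.CoordinateRing.smul, mul_one]
    constructor
    · rw [injective_iff_map_eq_zero]
      intro z hz
      rw [hval] at hz
      obtain ⟨h1, h2⟩ := Affine.CoordinateRing.smul_basis_eq_zero hz
      ext1
      · exact h1
      · exact h2
    · intro z
      obtain ⟨p, q, h⟩ := Affine.CoordinateRing.exists_smul_basis_eq z
      exact ⟨⟨p, q⟩, by rw [hval, ← h]⟩)

theorem eCR_apply (z : QA K a b) : eCR a b z = evQ (algebraMap K (CV a b).toAffine.CoordinateRing) a b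
    (Affine.CoordinateRing.mk (CV a b).toAffine (C X))
    (Affine.CoordinateRing.mk (CV a b).toAffine X) (eqn_CR a b) z := rfl

/-- the isomorphism of the function fields -/
noncomputable def eFF : FE a b ≃+* (CV a b).toAffine.FunctionField :=
  IsFractionRing.ringEquivOfRingEquiv (eCR a b)

theorem eFF_apply (z : QA K a b) : eFF a b (algebraMap _ _ z) =
    algebraMap (CV a b).toAffine.CoordinateRing (CV a b).toAffine.FunctionField (eCR a b z) :=
  IsFractionRing.ringEquivOfRingEquiv_algebraMap _ _

/-- **From the Galois group over the function field.** -/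
theorem full_of_gal {n : ℕ} (hn : 2 ≤ n) (c : Fin n → QA K a b)
    (p : (CV a b).toAffine.FunctionField[X])
    (hp : p = pol (fun k => eFF a b (algebraMap _ _ (c k))))
    (hG : Nat.card p.Gal = Nat.factorial n) : Full1 a b c := by
  letI : Algebra (CV a b).toAffine.FunctionField (Om a b) :=
    ((algebraMap (FE a b) (Om a b)).comp (eFF a b).symm.toRingHom).toAlgebra
  have hcomp : (algebraMap (FE a b) (Om a b)).comp (eFF a b).symm.toRingHom =
      (RingHom.id (Om a b)).comp (algebraMap (CV a b).toAffine.FunctionField (Om a b)) := rfl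
  haveI : Algebra.IsAlgebraic (CV a b).toAffine.FunctionField (Om a b) :=
    Algebra.IsAlgebraic.of_ringHom_of_comp_eq (eFF a b).symm.toRingHom (RingHom.id (Om a b))
      (eFF a b).symm.surjective Function.injective_id hcomp
  haveI : IsAlgClosure (CV a b).toAffine.FunctionField (Om a b) :=
    ⟨inferInstance, inferInstance⟩
  haveI : Normal (CV a b).toAffine.FunctionField (Om a b) :=
    IsAlgClosure.normal _ _
  have hmap : ∀ z : QA K a b, algebraMap (CV a b).toAffine.FunctionField (Om a b)
      (eFF a b (algebraMap _ _ z)) = jO a b z := by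
    intro z
    show algebraMap (FE a b) (Om a b) ((eFF a b).symm (eFF a b (algebraMap _ _ z))) = _
    rw [RingEquiv.symm_apply_apply]
    rfl
  obtain ⟨w, hw⟩ := exists_roots (pol (fun k => jO a b (c k))) (pol_monic _) (pol_natDegree _)
  have hpm : p.map (algebraMap (CV a b).toAffine.FunctionField (Om a b)) =
      ∏ j, (X - C (w j)) := by
    rw [← hw, hp, pol_map]
    simp only [hmap]
  obtain ⟨hwi, hπ⟩ := gal_full hn p w hpm hG
  refine ⟨w, hw, hwi, fun π => ?_⟩
  obtain ⟨σ, hσ⟩ := hπ π
  refine ⟨(σ : Om a b ≃+* Om a b), fun z => ?_, hσ⟩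
  rw [← hmap]
  exact σ.commutes _

end

end Pool.Agent.K9h5.T
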